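import Pool.Agent.Helper95.TF.PsiConv

/-!
Block J4psi (MP_a499ba_nt): counting over all primitive real characters of conductor at most `Q` is counting over `j : Fin 4` and
odd squarefree `q ≤ Q / cd j`.
-/

set_option autoImplicit false

namespace Pool.Agent.Q3psi

open scoped NumberTheorySymbols
open Pool.Agent.Helper11.Q3

/-- the primitive real characters of conductor at most `Q`, without the principal character -/
def RC (Q : ℕ) : Set (Σ N : ℕ, DirichletCharacter ℂ N) :=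
  {x | 1 ≤ x.1 ∧ x.1 ≤ Q ∧ x.2.IsPrimitive ∧ x.2 ^ 2 = 1 ∧ x.2 ≠ 1}

/-- the parameters -/
def par (Q : ℕ) : Finset (Σ _ : Fin 4, ℕ) := (Finset.univ : Finset (Fin 4)).sigma fun j => (OS (Q / cd j)).filter fun q => 1 < cd j * q

open Classical in
/-- the character with the parameters `j`, `q` -/
noncomputable def chi (j : Fin 4) (q : ℕ) : DirichletCharacter ℂ (cd j * q) :=
  if h : Odd q ∧ Squarefree q ∧ 1 < cd j * q then (j4psi j q h.1 h.2.1 h.2.2).choose_spec.choose else 1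

theorem chi_spec {j : Fin 4} {q : ℕ} (h1 : Odd q) (h2 : Squarefree q) (h3 : 1 < cd j * q) :
    (∀ n : ℕ, chi j q n = ((ps j n * jacobiSym n q : ℤ) : ℂ)) ∧ ∃ _ : NeZero (cd j * q), Pool.Agent.QT.Dat (chi j q)
      (fun n => (ArithmeticFunction.moebius n : ℝ) * ((ps j n * jacobiSym n q : ℤ) : ℝ)) := by
  have h : Odd q ∧ Squarefree q ∧ 1 < cd j * q := ⟨h1, h2, h3⟩
  have e : chi j q = (j4psi j q h.1 h.2.1 h.2.2).choose_spec.choose := by
    unfold chi
    rw [dif_pos h]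
  have hs := (j4psi j q h.1 h.2.1 h.2.2).choose_spec.choose_spec
  rw [e]
  exact ⟨hs.2, (j4psi j q h.1 h.2.1 h.2.2).choose, hs.1⟩

theorem mem_par {Q : ℕ} {x : Σ _ : Fin 4, ℕ} : x ∈ par Q ↔
    (1 ≤ x.2 ∧ cd x.1 * x.2 ≤ Q ∧ Odd x.2 ∧ Squarefree x.2 ∧ 1 < cd x.1 * x.2) := by
  unfold par OS
  simp only [Finset.mem_sigma, Finset.mem_univ, true_and, Finset.mem_filter, Finset.mem_Icc]
  rw [Nat.le_div_iff_mul_le (cd_pos x.1), mul_comm x.2]
  tauto

/-- the values of two characters with the same sigma pair agree -/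
theorem ev_of_eq {x y : Σ N : ℕ, DirichletCharacter ℂ N} (h : x = y) (n : ℕ) : x.2 (n : ZMod x.1) = y.2 (n : ZMod y.1) := by
  subst h
  rfl

theorem char_ext {N : ℕ} [NeZero N] {χ χ' : DirichletCharacter ℂ N} (h : ∀ n : ℕ, χ (n : ZMod N) = χ' (n : ZMod N)) : χ = χ' := by
  ext u
  have := h (u : ZMod N).val
  rwa [ZMod.natCast_zmod_val] at this

theorem par_inj {j j' : Fin 4} {q q' : ℕ} (hq : Odd q) (hq' : Odd q') (hN : cd j * q = cd j' * q')
    (h : ∀ n : ℕ, ps j n * jacobiSym n q = ps j' n * jacobiSym n q') : j = j' ∧ q = q' := by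
  have e : cd j = cd j' := by
    obtain ⟨k, hk⟩ := hq
    obtain ⟨k', hk'⟩ := hq'
    fin_cases j <;> fin_cases j' <;> simp only [cd] at hN ⊢ <;> omega
  have hqq : q = q' := by
    rw [e] at hN
    exact Nat.eq_of_mul_eq_mul_left (cd_pos j') hN
  refine ⟨?_, hqq⟩
  subst hqq
  have h8 : Nat.Coprime 8 q := Nat.Coprime.pow_left 3 (Nat.coprime_two_left.2 hq)
  obtain ⟨w, hw1, hw2⟩ := Nat.chineseRemainder h8 3 1
  have hw := h w
  have e2 : jacobiSym (w : ℤ) q = 1 := by
    rw [← jacobiSym.one_left q]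
    apply jacobiSym.mod_left'
    have : w % q = 1 % q := hw2
    exact_mod_cast this
  rw [e2, mul_one, mul_one] at hw
  have e3 : ps 2 w = -1 := (ps_mod 2 (n := 3) hw1).trans (by decide)
  have e4 : ps 3 w = 1 := (ps_mod 3 (n := 3) hw1).trans (by decide)
  fin_cases j <;> fin_cases j' <;> first | rfl | (exfalso; revert e; decide) |
    (exfalso; have hw' : ps 2 w = ps 3 w := hw; rw [e3, e4] at hw'; norm_num at hw') |
    (exfalso; have hw' : ps 3 w = ps 2 w := hw; rw [e3, e4] at hw'; norm_num at hw')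

/-- the map from the parameters to the characters -/
noncomputable def toC (x : Σ _ : Fin 4, ℕ) : Σ N : ℕ, DirichletCharacter ℂ N := ⟨cd x.1 * x.2, chi x.1 x.2⟩

theorem toC_inj (Q : ℕ) : Set.InjOn toC (par Q : Set (Σ _ : Fin 4, ℕ)) := by
  rintro ⟨j, q⟩ hx ⟨j', q'⟩ hy h
  rw [Finset.mem_coe, mem_par] at hx hy
  obtain ⟨-, -, hx3, hx4, hx5⟩ := hx
  obtain ⟨-, -, hy3, hy4, hy5⟩ := hy
  have hN : cd j * q = cd j' * q' := congrArg Sigma.fst h
  obtain ⟨h1, h2⟩ := par_inj hx3 hy3 hN (by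
    intro n
    have h3 := ev_of_eq h n
    change chi j q n = chi j' q' n at h3
    rw [(chi_spec hx3 hx4 hx5).1, (chi_spec hy3 hy4 hy5).1] at h3
    exact_mod_cast h3)
  subst h1
  subst h2
  rfl

theorem image_toC (Q : ℕ) : toC '' (par Q : Set (Σ _ : Fin 4, ℕ)) = RC Q := by
  ext ⟨N, χ⟩
  constructor
  · rintro ⟨⟨j, q⟩, hx, hy⟩
    rw [← hy]
    rw [Finset.mem_coe, mem_par] at hx
    obtain ⟨hx1, hx2, hx3, hx4, hx5⟩ := hx
    obtain ⟨-, hn, hd⟩ := chi_spec hx3 hx4 hx5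
    exact ⟨hx5.le, hx2, hd.prim, hd.sq, hd.ne⟩
  · rintro ⟨h1, h2, h3, h4, h5⟩
    have hn : NeZero N := ⟨by
      have : 1 ≤ N := h1
      omega⟩
    obtain ⟨j, q, hq1, hq2, hq3, hq4⟩ := conv h4 h3
    have hN1 : N ≠ 1 := by
      rintro rfl
      exact h5 (DirichletCharacter.level_one χ)
    have h6 : 1 < cd j * q := by
      rw [← hq3]
      exact lt_of_le_of_ne h1 (Ne.symm hN1)
    refine ⟨⟨j, q⟩, ?_, ?_⟩
    · rw [Finset.mem_coe, mem_par]
      exact ⟨hq1.pos, hq3 ▸ h2, hq1, hq2, h6⟩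
    · subst hq3
      change (⟨cd j * q, chi j q⟩ : Σ N : ℕ, DirichletCharacter ℂ N) = ⟨cd j * q, χ⟩
      congr 1
      apply char_ext
      intro n
      rw [hq4 n, (chi_spec hq1 hq2 h6).1]

theorem RC_finite (Q : ℕ) : (RC Q).Finite := by
  rw [← image_toC]
  exact (Finset.finite_toSet _).image _

open Classical in
/-- counting -/
theorem count (P : (N : ℕ) → DirichletCharacter ℂ N → Prop) (Q : ℕ) :
    {x ∈ RC Q | P x.1 x.2}.ncard = ∑ j : Fin 4, ((OS (Q / cd j)).filter fun q => 1 < cd j * q ∧ P (cd j * q) (chi j q)).card := by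
  have e : {x ∈ RC Q | P x.1 x.2} = toC '' (((par Q).filter fun x => P (cd x.1 * x.2) (chi x.1 x.2) : Finset _) : Set _) := by
    rw [← image_toC]
    ext x
    constructor
    · rintro ⟨⟨y, hy, rfl⟩, hP⟩
      exact ⟨y, by rw [Finset.coe_filter]; exact ⟨hy, hP⟩, rfl⟩
    · rintro ⟨y, hy, rfl⟩
      rw [Finset.coe_filter] at hy
      exact ⟨⟨y, hy.1, rfl⟩, hy.2⟩
  rw [e, Set.ncard_image_of_injOn ((toC_inj Q).mono (by
    intro x hx
    rw [Finset.coe_filter] at hx
    exact hx.1)), Set.ncard_coe_finset]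
  have e2 : ((par Q).filter fun x => P (cd x.1 * x.2) (chi x.1 x.2)) =
      (Finset.univ : Finset (Fin 4)).sigma fun j => (OS (Q / cd j)).filter fun q => 1 < cd j * q ∧ P (cd j * q) (chi j q) := by
    ext ⟨j, q⟩
    unfold par
    simp only [Finset.mem_sigma, Finset.mem_univ, true_and, Finset.mem_filter]
    tauto
  rw [e2, Finset.card_sigma]

/-- the number of the characters -/
theorem card_RC (Q : ℕ) (hQ : 1 ≤ Q) : (RC Q).ncard + 1 = ∑ j : Fin 4, (OS (Q / cd j)).card := by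
  have h := count (fun _ _ => True) Q
  have e : {x ∈ RC Q | True} = RC Q := by simp
  rw [e] at h
  rw [h, Fin.sum_univ_four, Fin.sum_univ_four]
  have e0 : ((OS (Q / cd 0)).filter fun q => 1 < cd 0 * q ∧ True).card + 1 = (OS (Q / cd 0)).card := by
    have e1 : ((OS (Q / cd 0)).filter fun q => 1 < cd 0 * q ∧ True) = (OS (Q / cd 0)).erase 1 := by
      ext q
      simp only [Finset.mem_filter, Finset.mem_erase, and_true, cd, one_mul, Nat.div_one]
      constructor
      · rintro ⟨a, b⟩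
        exact ⟨by omega, a⟩
      · rintro ⟨a, b⟩
        refine ⟨b, ?_⟩
        have : 1 ≤ q := (Finset.mem_Icc.1 (Finset.mem_filter.1 b).1).1
        omega
    rw [e1, Finset.card_erase_add_one]
    unfold OS
    simp [cd, hQ]
  have ej : ∀ j : Fin 4, 1 < cd j → ((OS (Q / cd j)).filter fun q => 1 < cd j * q ∧ True).card = (OS (Q / cd j)).card := by
    intro j hj
    congr 1
    apply Finset.filter_true_of_mem
    intro q hq
    have : 1 ≤ q := (Finset.mem_Icc.1 (Finset.mem_filter.1 hq).1).1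
    exact ⟨by nlinarith, trivial⟩
  have a1 := ej 1 (by decide)
  have a2 := ej 2 (by decide)
  have a3 := ej 3 (by decide)
  simp only [and_true] at e0 a1 a2 a3 ⊢
  omega

end Pool.Agent.Q3psi
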