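import Pool.Agent.Helper96.QT.Def

/-!
# Project DR (MP_a499ba_nt): the Gaussian of width 1
-/

set_option autoImplicit false

namespace Pool.Agent.DR

open Real Filter Topology MeasureTheory Set
open Pool.Agent.QT (gk bb)

theorem gk1_eq (y : ℝ) : gk 1 y = (Real.sqrt (2 * π))⁻¹ * Real.exp (-(1 / 2) * y ^ 2) := by
  unfold gk
  rw [one_mul]
  congr 2
  ring

theorem gk1_cont : Continuous (gk 1) := by
  have h : gk 1 = fun y => (Real.sqrt (2 * π))⁻¹ * Real.exp (-(1 / 2) * y ^ 2) := funext gk1_eq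
  rw [h]
  fun_prop

theorem gk1_pos (y : ℝ) : 0 < gk 1 y := by
  rw [gk1_eq]
  positivity

theorem gk1_int : Integrable (gk 1) ∧ ∫ y : ℝ, gk 1 y = 1 := by
  have h : gk 1 = fun y => (Real.sqrt (2 * π))⁻¹ * Real.exp (-(1 / 2) * y ^ 2) := funext gk1_eq
  rw [h]
  refine ⟨(integrable_exp_neg_mul_sq (by norm_num)).const_mul _, ?_⟩
  rw [integral_const_mul, integral_gaussian]
  rw [show π / (1 / 2) = 2 * π by ring]
  exact inv_mul_cancel₀ (Real.sqrt_pos.2 (by positivity)).ne'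

theorem gk1_shift (s y : ℝ) : Real.exp (-(s * y)) * gk 1 y = Real.exp (s ^ 2 / 2) * gk 1 (y + s) := by
  rw [gk1_eq, gk1_eq, mul_left_comm, mul_left_comm (Real.exp (s ^ 2 / 2)), ← Real.exp_add, ← Real.exp_add]
  congr 2
  ring

theorem gk1_exp (s : ℝ) : Integrable (fun y : ℝ => Real.exp (-(s * y)) * gk 1 y) ∧
    ∫ y : ℝ, Real.exp (-(s * y)) * gk 1 y = Real.exp (s ^ 2 / 2) := by
  have h : (fun y : ℝ => Real.exp (-(s * y)) * gk 1 y) = fun y => Real.exp (s ^ 2 / 2) * gk 1 (y + s) :=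
    funext (gk1_shift s)
  rw [h]
  refine ⟨(gk1_int.1.comp_add_right s).const_mul _, ?_⟩
  rw [integral_const_mul, integral_add_right_eq_self (gk 1) s, gk1_int.2, mul_one]

/-- a trivial bound for the Gaussian mean -/
theorem bb_le {F : ℝ → ℝ} {A : ℝ} (hF : ∀ t, |F t| ≤ A * Real.exp (t / 2)) (u : ℝ) :
    |bb 1 F u| ≤ A * (2 * Real.exp (u / 2)) := by
  have hA : 0 ≤ A := by
    have := (abs_nonneg _).trans (hF 0)
    simpa using this
  obtain ⟨h1, h2⟩ := gk1_exp (1 / 2)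
  have h3 : Integrable (fun t : ℝ => A * Real.exp (u / 2) * (Real.exp (-(1 / 2 * (u - t))) * gk 1 (u - t))) :=
    (h1.comp_sub_left u).const_mul _
  have h4 : |bb 1 F u| ≤ ∫ t : ℝ, A * Real.exp (u / 2) * (Real.exp (-(1 / 2 * (u - t))) * gk 1 (u - t)) := by
    unfold bb
    rw [← Real.norm_eq_abs]
    refine norm_integral_le_of_norm_le h3 (Eventually.of_forall fun t => ?_)
    rw [norm_mul, Real.norm_eq_abs, Real.norm_of_nonneg (gk1_pos _).le, ← mul_assoc]
    refine mul_le_mul_of_nonneg_right ?_ (gk1_pos _).le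
    refine (hF t).trans (le_of_eq ?_)
    rw [mul_assoc, ← Real.exp_add]
    congr 2
    ring
  rw [integral_const_mul, integral_sub_left_eq_self (fun y : ℝ => Real.exp (-(1 / 2 * y)) * gk 1 y) volume u, h2] at h4
  have h5 : Real.exp ((1 / 2 : ℝ) ^ 2 / 2) ≤ 2 := by
    have h6 : Real.exp ((1 / 2 : ℝ) ^ 2 / 2) ≤ Real.exp (1 / 2) := Real.exp_le_exp.2 (by norm_num)
    have h7 : Real.exp (1 / 2) ^ 2 = Real.exp 1 := by rw [← Real.exp_nat_mul]; norm_num
    have h8 := Real.exp_one_lt_d9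
    nlinarith [Real.exp_pos (1 / 2 : ℝ)]
  refine h4.trans ?_
  have h9 := Real.exp_pos (u / 2)
  have h10 : A * Real.exp (u / 2) * Real.exp ((1 / 2 : ℝ) ^ 2 / 2) ≤ A * Real.exp (u / 2) * 2 :=
    mul_le_mul_of_nonneg_left h5 (by positivity)
  linarith

end Pool.Agent.DR
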