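import Pool.Agent.Helper96.QT.DefL

/-!
# Project DR (MP_a499ba_nt): `EE q` for every modulus, the number of squarefree divisors
-/

set_option autoImplicit false

namespace Pool.Agent.QT

open Real Filter Topology MeasureTheory Set DirichletCharacter

/-- the product over the prime divisors, expanded; index: sets of primes -/
theorem EE_gen (q : ℕ) [NeZero q] (z : ℂ) :
    EE q z = (∑ T ∈ q.primeFactors.powerset, (-1 : ℂ) ^ T.card * ((∏ p ∈ T, p : ℕ) : ℂ)⁻¹ *
      Complex.exp (-(2 * z) * Real.log (∏ p ∈ T, p : ℕ))) * (LFunctionTrivChar₁ 1 (1 + 2 * z) / 2) := by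
  have hprod : (∏ p ∈ q.primeFactors, (1 - (p : ℂ) ^ (-(1 + 2 * z)))) =
      ∑ T ∈ q.primeFactors.powerset, (-1 : ℂ) ^ T.card * ((∏ p ∈ T, p : ℕ) : ℂ)⁻¹ *
      Complex.exp (-(2 * z) * Real.log (∏ p ∈ T, p : ℕ)) := by
    have h1 : (∏ p ∈ q.primeFactors, (1 - (p : ℂ) ^ (-(1 + 2 * z)))) =
        ∏ p ∈ q.primeFactors, (-(p : ℂ) ^ (-(1 + 2 * z)) + 1) := Finset.prod_congr rfl fun p _ => by ring
    rw [h1, Finset.prod_add]
    refine Finset.sum_congr rfl fun T hT => ?_
    rw [Finset.prod_const_one, mul_one]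
    have hT' := Finset.mem_powerset.1 hT
    have hp : ∀ p ∈ T, p ≠ 0 := fun p hp => (Nat.prime_of_mem_primeFactors (hT' hp)).ne_zero
    clear hT hT' h1
    induction T using Finset.induction_on with
    | empty => simp
    | insert a s ha ih =>
      have hp' : ∀ p ∈ s, p ≠ 0 := fun p h => hp p (Finset.mem_insert_of_mem h)
      have ha0 : a ≠ 0 := hp a (Finset.mem_insert_self _ _)
      have hs0 : (∏ p ∈ s, p : ℕ) ≠ 0 := Finset.prod_ne_zero_iff.2 hp'
      rw [Finset.prod_insert ha, ih hp', Finset.card_insert_of_notMem ha, Finset.prod_insert ha]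
      have h2 : (a : ℂ) ^ (-(1 + 2 * z)) = (a : ℂ)⁻¹ * Complex.exp (-(2 * z) * Real.log a) := by
        have ha1 : (a : ℂ) ≠ 0 := by exact_mod_cast ha0
        rw [Complex.cpow_def_of_ne_zero ha1, Complex.natCast_log]
        have e : Complex.log (a : ℂ) * -(1 + 2 * z) = -Complex.log (a : ℂ) + -(2 * z) * Complex.log (a : ℂ) := by ring
        rw [e, Complex.exp_add, Complex.exp_neg, Complex.exp_log ha1]
      rw [h2]
      have h3 : Complex.exp (-(2 * z) * (Real.log ((a * ∏ p ∈ s, p : ℕ) : ℝ) : ℂ)) =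
          Complex.exp (-(2 * z) * Real.log a) * Complex.exp (-(2 * z) * Real.log (∏ p ∈ s, p : ℕ)) := by
        rw [← Complex.exp_add]
        congr 1
        rw [Nat.cast_mul, Real.log_mul (by exact_mod_cast ha0) (by exact_mod_cast hs0)]
        push_cast
        ring
      rw [h3, Nat.cast_mul, mul_inv, pow_succ]
      ring
  unfold EE
  rw [← hprod]
  rcases eq_or_ne z 0 with rfl | hz
  · simp only [mul_zero, add_zero]
    simp only [LFunctionTrivChar₁, Function.update_self, Nat.primeFactors_one, Finset.prod_empty]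
    have : ∀ p : ℕ, (p : ℂ) ^ (-(1 : ℂ)) = (p : ℂ)⁻¹ := fun p => by rw [Complex.cpow_neg_one]
    simp only [this]
    ring
  · have hs : (1 + 2 * z : ℂ) ≠ 1 := by
      intro h
      apply hz
      linear_combination h / 2
    simp only [LFunctionTrivChar₁, Function.update_of_ne hs]
    rw [LFunctionTrivChar_eq_mul_riemannZeta hs, LFunctionTrivChar_eq_mul_riemannZeta hs, Nat.primeFactors_one,
      Finset.prod_empty]
    ring

/-- the product of the primes of a set of prime divisors -/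
theorem prod_primes_le {q : ℕ} (hq : q ≠ 0) {T : Finset ℕ} (hT : T ∈ q.primeFactors.powerset) :
    1 ≤ (∏ p ∈ T, p) ∧ (∏ p ∈ T, p) ≤ q := by
  have hT' := Finset.mem_powerset.1 hT
  have h0 : ∀ p ∈ T, 1 ≤ p := fun p hp => (Nat.prime_of_mem_primeFactors (hT' hp)).one_lt.le
  refine ⟨Finset.one_le_prod' h0, ?_⟩
  have h1 : (∏ p ∈ T, p) ∣ ∏ p ∈ q.primeFactors, p := Finset.prod_dvd_prod_of_subset _ _ _ hT'
  exact Nat.le_of_dvd (Nat.pos_of_ne_zero hq) (h1.trans (Nat.prod_primeFactors_dvd q))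

/-- `2^ω(q) ≤ C q^(1/8)` -/
theorem two_pow_omega : ∃ C : ℝ, 0 < C ∧ ∀ q : ℕ, q ≠ 0 → (2 : ℝ) ^ q.primeFactors.card ≤ C * (q : ℝ) ^ (1 / 8 : ℝ) := by
  refine ⟨2 ^ 257, by positivity, fun q hq => ?_⟩
  have h1 : q.primeFactors.card ≤ 257 + (q.primeFactors.filter fun p => 257 ≤ p).card := by
    have h2 : q.primeFactors ⊆ Finset.range 257 ∪ q.primeFactors.filter (fun p => 257 ≤ p) := by
      intro p hp
      rw [Finset.mem_union, Finset.mem_range, Finset.mem_filter]
      rcases lt_or_ge p 257 with h | h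
      · exact Or.inl h
      · exact Or.inr ⟨hp, h⟩
    have h3 := (Finset.card_le_card h2).trans (Finset.card_union_le _ _)
    rwa [Finset.card_range] at h3
  have h4 : (2 : ℝ) ^ (q.primeFactors.filter fun p => 257 ≤ p).card ≤ (q : ℝ) ^ (1 / 8 : ℝ) := by
    have h5 : (2 : ℝ) ^ (q.primeFactors.filter fun p => 257 ≤ p).card ≤
        ∏ p ∈ q.primeFactors.filter (fun p => 257 ≤ p), (p : ℝ) ^ (1 / 8 : ℝ) := by
      rw [← Finset.prod_const]
      refine Finset.prod_le_prod (fun _ _ => by norm_num) fun p hp => ?_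
      have h6 : (257 : ℝ) ≤ p := by exact_mod_cast (Finset.mem_filter.1 hp).2
      calc (2 : ℝ) = (256 : ℝ) ^ (1 / 8 : ℝ) := by
            rw [show (256 : ℝ) = 2 ^ (8 : ℝ) by norm_num, ← Real.rpow_mul (by norm_num)]
            norm_num
        _ ≤ (p : ℝ) ^ (1 / 8 : ℝ) := Real.rpow_le_rpow (by norm_num) (by linarith) (by norm_num)
    refine h5.trans ?_
    rw [Real.finset_prod_rpow _ _ (fun p _ => Nat.cast_nonneg p)]
    refine Real.rpow_le_rpow (Finset.prod_nonneg fun p _ => Nat.cast_nonneg p) ?_ (by norm_num)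
    have h7 := (prod_primes_le hq (Finset.mem_powerset.2 (Finset.filter_subset (fun p => 257 ≤ p) q.primeFactors))).2
    rw [← Nat.cast_prod]
    exact_mod_cast h7
  calc (2 : ℝ) ^ q.primeFactors.card ≤ 2 ^ (257 + (q.primeFactors.filter fun p => 257 ≤ p).card) :=
        pow_le_pow_right₀ (by norm_num) h1
    _ = 2 ^ 257 * 2 ^ (q.primeFactors.filter fun p => 257 ≤ p).card := pow_add _ _ _
    _ ≤ _ := mul_le_mul_of_nonneg_left h4 (by positivity)

end Pool.Agent.QT
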