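import Pool.Agent.Helper63.QT.LapL
import Pool.Agent.Helper34.QT.LandL
import Pool.Agent.Helper64.QT.MeanL
import Pool.Agent.Helper88.QT.GamZ
import Pool.Agent.Helper50.QT.DualL
import Pool.Agent.Helper96.QT.IntPole
import Pool.Agent.Helper96.QT.GL2
import Pool.Agent.Helper96.QT.Rec
import Pool.Agent.Helper95.TF.Gk
import Pool.Agent.Helper95.TF.EEq
import Pool.Agent.Helper95.TF.LOneP

/-!
# Project DR (MP_a499ba_nt), family of real characters: the recurrence for the Gaussian means of the sums of `chi lambda`,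
every modulus (after Helper96/QT/RecL.lean)
-/

set_option autoImplicit false

namespace Pool.Agent.QT

open Real Filter Topology MeasureTheory Set DirichletCharacter

/-- The kernel of the dual side for one parity. -/
private theorem kernL (ev : Bool) {d : ℝ} (hd : 0 < d) : ∃ (h : ℝ → ℂ) (A₀ A₁ : ℂ) (c : ℝ), Continuous h ∧ (∀ y, ‖h y‖ ≤ c) ∧
      (∀ y : ℝ, 0 ≤ y → ‖h y‖ ≤ c * Real.exp (-(y / 4))) ∧
      (∀ y : ℝ, 0 ≤ y → ‖h y - Complex.exp (-(y / 2)) * (A₀ * y + A₁)‖ ≤ c * Real.exp (-y)) ∧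
      ∀ z : ℂ, -(1 / 4) < z.re → z.re < 0 → ∫ y : ℝ, Complex.exp (-z * y) * h y = SZ ev d z / (1 / 2 + z) ^ 2 / z := by
  obtain ⟨c, hc⟩ := SZ_bound ev hd
  obtain ⟨s, hs, hs1, hs2⟩ := inv_tr (fun z hz => SZ_diff ev d hz) hc
  obtain ⟨k, B₀, B₁, c', hk, hk1, hk2, hk3⟩ := conv_pole hs hs1 hs2
  exact int_pole hk hk1 hk2 hk3

private theorem ue_le (u : ℝ) : u * Real.exp (-(u / 2)) ≤ 1 := by
  have h1 := Real.add_one_le_exp (u / 2 - 1)
  have h2 : u / 2 ≤ Real.exp (u / 2 - 1) := by linarith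
  have h3 : u * Real.exp (-(u / 2)) ≤ 2 * Real.exp (-1) := by
    calc u * Real.exp (-(u / 2)) = 2 * (u / 2 * Real.exp (-(u / 2))) := by ring
      _ ≤ 2 * (Real.exp (u / 2 - 1) * Real.exp (-(u / 2))) := by gcongr
      _ = 2 * Real.exp (-1) := by rw [← Real.exp_add]; congr 2; ring
  have h4 : 2 * Real.exp (-1) ≤ 1 := by
    have h5 := Real.add_one_le_exp (1 : ℝ)
    have h6 : Real.exp (-1) * Real.exp 1 = 1 := by rw [← Real.exp_add]; simp
    nlinarith [Real.exp_pos (-1 : ℝ)]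
  linarith

/-- values at `1/2` in terms of `GG` (from the transform of `FF a` on the half plane) -/
private theorem at_halfL {q : ℕ} [NeZero q] {χ : DirichletCharacter ℂ q} {a : ℕ → ℝ}
    (hFi : ∀ x : ℝ, 0 < x → Integrable (fun t : ℝ => Real.exp (-(x * t)) * FF a t))
    (hL : ∀ z : ℂ, 0 < z.re → ∫ t : ℝ, Complex.exp (-z * t) * (FF a t : ℂ) = GG χ z) :
    |∫ t : ℝ, Real.exp (-(t / 2)) * FF a t| = ‖GG χ (1 / 2)‖ ∧
      |∫ t : ℝ, Real.exp (-(t / 2)) * (t * FF a t)| = ‖deriv (GG χ) (1 / 2)‖ := by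
  have hm := measurable_FF a
  have h0 : ∀ t < 0, FF a t = 0 := fun t ht => by unfold FF; rw [if_neg (not_le.2 ht)]
  constructor
  · rw [← hL (1 / 2) (by norm_num), ← Real.norm_eq_abs, ← Complex.norm_real]
    congr 1
    rw [← integral_complex_ofReal]
    congr 1
    ext t
    push_cast
    congr 2
    ring
  · have h1 := laplace_deriv hm h0 hFi
    have h2 : (fun z : ℂ => ∫ t : ℝ, Complex.exp (-z * t) * (FF a t : ℂ)) =ᶠ[𝓝 (1 / 2 : ℂ)] GG χ := by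
      have hopen : IsOpen {z : ℂ | 0 < z.re} := isOpen_lt continuous_const Complex.continuous_re
      filter_upwards [hopen.mem_nhds (show (1 / 2 : ℂ) ∈ {z : ℂ | 0 < z.re} by norm_num)] with z hz
      exact hL z hz
    rw [(h1.congr_of_eventuallyEq h2.symm).deriv, norm_neg, integral_complex_ofReal, Complex.norm_real, Real.norm_eq_abs]

/-- one term of the dual side -/
private theorem term_le {q : ℕ} [NeZero q] {χ : DirichletCharacter ℂ q} {a : ℕ → ℝ} {h : ℝ → ℂ} {A₀ A₁ : ℂ} {c K Kl : ℝ} {D : ℕ}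
    (hc0 : 0 ≤ c) (hKe : ‖A₀‖ + ‖A₁‖ + c ≤ K) (hD1 : 1 ≤ D) (hDq : D ≤ q)
    (hL1 : (Real.log q + 1) * (q : ℝ) ^ (-(1 / 2) : ℝ) * ‖GG χ (1 / 2)‖ ≤ Kl * (q : ℝ) ^ (-(1 / 4) : ℝ) ∧
      (q : ℝ) ^ (-(1 / 2) : ℝ) * ‖deriv (GG χ) (1 / 2)‖ ≤ Kl * (q : ℝ) ^ (-(1 / 4) : ℝ))
    (hI0 : |∫ t : ℝ, Real.exp (-(t / 2)) * FF a t| = ‖GG χ (1 / 2)‖)
    (hI1 : |∫ t : ℝ, Real.exp (-(t / 2)) * (t * FF a t)| = ‖deriv (GG χ) (1 / 2)‖)
    (hDb : 0 ≤ Real.log q - 2 * Real.log D → ∀ u : ℝ, 0 ≤ u → ‖DD h (Real.log q - 2 * Real.log D) (FF a) u‖ ≤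
        Real.exp (-((u + (Real.log q - 2 * Real.log D)) / 2)) *
        ((‖A₀‖ * (u + (Real.log q - 2 * Real.log D)) + ‖A₁‖) * |∫ t : ℝ, Real.exp (-(t / 2)) * FF a t| +
          ‖A₀‖ * |∫ t : ℝ, Real.exp (-(t / 2)) * (t * FF a t)|) + 2 * c * Real.exp (-(u + (Real.log q - 2 * Real.log D))))
    (hEb : Real.log q - 2 * Real.log D ≤ 0 → ∀ u : ℝ, 0 ≤ u → ‖DD h (Real.log q - 2 * Real.log D) (FF a) u‖ ≤
        Real.exp (-(Real.log q - 2 * Real.log D) / 2) *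
        ((‖A₀‖ + ‖A₁‖) * (1 - (Real.log q - 2 * Real.log D)) * (1 - (Real.log q - 2 * Real.log D) +
          |∫ t : ℝ, Real.exp (-(t / 2)) * FF a t|) +
          ‖A₀‖ * |∫ t : ℝ, Real.exp (-(t / 2)) * (t * FF a t)| + 4 * c)) {u : ℝ} (hu : 0 ≤ u) :
    (D : ℝ)⁻¹ * ‖DD h (Real.log q - 2 * Real.log D) (FF a) u‖ ≤ K * (4 * Kl + 289 * 5) * (q : ℝ) ^ (-(1 / 4) : ℝ) := by
  have hq0' : q ≠ 0 := NeZero.ne q
  have hq1 : (1 : ℝ) ≤ q := by exact_mod_cast Nat.one_le_iff_ne_zero.2 hq0'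
  have hq0 : (0 : ℝ) < q := by linarith
  have hD1r : (1 : ℝ) ≤ D := by exact_mod_cast hD1
  have hD0 : (0 : ℝ) < D := by linarith
  have hlD : 0 ≤ Real.log D := Real.log_nonneg hD1r
  have hlDq : Real.log D ≤ Real.log q := Real.log_le_log hD0 (by exact_mod_cast hDq)
  have hlq : 0 ≤ Real.log q := Real.log_nonneg hq1
  have hsq := log_sq_le q hq0'
  have n0 := norm_nonneg A₀
  have n1 := norm_nonneg A₁
  have g0 := norm_nonneg (GG χ (1 / 2))
  have g1 := norm_nonneg (deriv (GG χ) (1 / 2))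
  have hK0 : 0 ≤ K := by linarith
  have hqh : 0 < (q : ℝ) ^ (-(1 / 2) : ℝ) := by positivity
  have hqh4 : 0 < (q : ℝ) ^ (-(1 / 4) : ℝ) := by positivity
  have hhl : (q : ℝ) ^ (-(1 / 2) : ℝ) ≤ 289 * (q : ℝ) ^ (-(1 / 4) : ℝ) := by
    have h1 : (q : ℝ) ^ (-(1 / 2) : ℝ) ≤ (q : ℝ) ^ (-(1 / 4) : ℝ) :=
      Real.rpow_le_rpow_of_exponent_le hq1 (by norm_num)
    linarith
  -- `D⁻¹ e^{-Λ/2} = q^{-1/2}`
  have hexp : (D : ℝ)⁻¹ * Real.exp (-(Real.log q - 2 * Real.log D) / 2) = (q : ℝ) ^ (-(1 / 2) : ℝ) := by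
    rw [Real.rpow_def_of_pos hq0, ← Real.exp_log (inv_pos.2 hD0), Real.log_inv, ← Real.exp_add]
    congr 1
    ring
  have k1 : K * ((Real.log q + 1) * ((q : ℝ) ^ (-(1 / 2) : ℝ) * ‖GG χ (1 / 2)‖)) ≤ K * (Kl * (q : ℝ) ^ (-(1 / 4) : ℝ)) := by
    refine mul_le_mul_of_nonneg_left ?_ hK0
    rw [← mul_assoc]
    exact hL1.1
  have k2 : K * ((q : ℝ) ^ (-(1 / 2) : ℝ) * ‖deriv (GG χ) (1 / 2)‖) ≤ K * (Kl * (q : ℝ) ^ (-(1 / 4) : ℝ)) :=
    mul_le_mul_of_nonneg_left hL1.2 hK0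
  have k3 : K * ((1 + Real.log q) * (1 + Real.log q) * (q : ℝ) ^ (-(1 / 2) : ℝ)) ≤ K * (289 * (q : ℝ) ^ (-(1 / 4) : ℝ)) :=
    mul_le_mul_of_nonneg_left hsq hK0
  have k4 : K * (q : ℝ) ^ (-(1 / 2) : ℝ) ≤ K * (289 * (q : ℝ) ^ (-(1 / 4) : ℝ)) := mul_le_mul_of_nonneg_left hhl hK0
  rcases le_total 0 (Real.log q - 2 * Real.log D) with hΛ | hΛ
  · -- first type
    have hb1 := hDb hΛ u hu
    rw [hI0, hI1] at hb1
    set Λ : ℝ := Real.log q - 2 * Real.log D with hΛd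
    have hΛq : Λ ≤ Real.log q := by linarith
    have e1 : Real.exp (-((u + Λ) / 2)) = Real.exp (-(u / 2)) * Real.exp (-Λ / 2) := by
      rw [← Real.exp_add]; congr 1; ring
    have e3 := ue_le u
    have e4 : Real.exp (-(u / 2)) ≤ 1 := by rw [Real.exp_le_one_iff]; linarith
    have e5 := Real.exp_pos (-(u / 2))
    have f1 : Real.exp (-(u / 2)) * (‖A₀‖ * (u + Λ) + ‖A₁‖) ≤ 2 * K * (Real.log q + 1) := by
      have f2 : Real.exp (-(u / 2)) * (u + Λ) ≤ 1 + Real.log q := by nlinarith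
      have f3 : Real.exp (-(u / 2)) * (‖A₀‖ * (u + Λ) + ‖A₁‖) =
          ‖A₀‖ * (Real.exp (-(u / 2)) * (u + Λ)) + ‖A₁‖ * Real.exp (-(u / 2)) := by ring
      rw [f3]
      have f20 : 0 ≤ Real.exp (-(u / 2)) * (u + Λ) := by positivity
      have f4 : ‖A₀‖ * (Real.exp (-(u / 2)) * (u + Λ)) ≤ K * (1 + Real.log q) :=
        mul_le_mul (by linarith) f2 f20 hK0
      have f5 : ‖A₁‖ * Real.exp (-(u / 2)) ≤ K * 1 := mul_le_mul (by linarith) e4 e5.le hK0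
      nlinarith
    have f6 : Real.exp (-(u / 2)) * ‖A₀‖ ≤ K := by nlinarith
    have f7 : (D : ℝ)⁻¹ * Real.exp (-(u + Λ)) ≤ (q : ℝ) ^ (-(1 / 2) : ℝ) := by
      rw [← hexp]
      refine mul_le_mul_of_nonneg_left (Real.exp_le_exp.2 ?_) (by positivity)
      linarith
    have f8 := mul_le_mul_of_nonneg_left hb1 (by positivity : (0:ℝ) ≤ (D : ℝ)⁻¹)
    refine f8.trans ?_
    rw [e1]
    have f9 : (D : ℝ)⁻¹ * (Real.exp (-(u / 2)) * Real.exp (-Λ / 2) *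
        ((‖A₀‖ * (u + Λ) + ‖A₁‖) * ‖GG χ (1 / 2)‖ + ‖A₀‖ * ‖deriv (GG χ) (1 / 2)‖) + 2 * c * Real.exp (-(u + Λ))) =
        (Real.exp (-(u / 2)) * (‖A₀‖ * (u + Λ) + ‖A₁‖)) * (((D : ℝ)⁻¹ * Real.exp (-Λ / 2)) * ‖GG χ (1 / 2)‖) +
          (Real.exp (-(u / 2)) * ‖A₀‖) * (((D : ℝ)⁻¹ * Real.exp (-Λ / 2)) * ‖deriv (GG χ) (1 / 2)‖) +
          2 * c * ((D : ℝ)⁻¹ * Real.exp (-(u + Λ))) := by ring
    rw [f9, hexp]
    have f12 := mul_le_mul_of_nonneg_right f1 (by positivity : 0 ≤ (q : ℝ) ^ (-(1 / 2) : ℝ) * ‖GG χ (1 / 2)‖)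
    have f13 := mul_le_mul_of_nonneg_right f6 (by positivity : 0 ≤ (q : ℝ) ^ (-(1 / 2) : ℝ) * ‖deriv (GG χ) (1 / 2)‖)
    have f14 : 2 * c * ((D : ℝ)⁻¹ * Real.exp (-(u + Λ))) ≤ 2 * (K * (q : ℝ) ^ (-(1 / 2) : ℝ)) := by
      calc 2 * c * ((D : ℝ)⁻¹ * Real.exp (-(u + Λ))) ≤ 2 * K * (q : ℝ) ^ (-(1 / 2) : ℝ) :=
            mul_le_mul (by linarith) f7 (by positivity) (by linarith)
        _ = _ := by ring
    have f15 : 0 ≤ K * (Kl * (q : ℝ) ^ (-(1 / 4) : ℝ)) := le_trans (by positivity) k2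
    have f16 : 0 ≤ K * (289 * (q : ℝ) ^ (-(1 / 4) : ℝ)) := by positivity
    have f17 : K * (4 * Kl + 289 * 5) * (q : ℝ) ^ (-(1 / 4) : ℝ) =
        4 * (K * (Kl * (q : ℝ) ^ (-(1 / 4) : ℝ))) + 5 * (K * (289 * (q : ℝ) ^ (-(1 / 4) : ℝ))) := by ring
    rw [f17]
    linarith
  · -- second type
    have hb2 := hEb hΛ u hu
    rw [hI0, hI1] at hb2
    set Λ : ℝ := Real.log q - 2 * Real.log D with hΛd
    have hΛq : -Λ ≤ Real.log q := by linarith
    have r1 := mul_le_mul_of_nonneg_left hb2 (by positivity : (0:ℝ) ≤ (D : ℝ)⁻¹)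
    refine r1.trans ?_
    rw [← mul_assoc, hexp]
    have w1 : 0 ≤ 1 - Λ := by linarith
    have w2 : 1 - Λ ≤ 1 + Real.log q := by linarith
    have r3 : (‖A₀‖ + ‖A₁‖) * (1 - Λ) * (1 - Λ + ‖GG χ (1 / 2)‖) ≤
        K * ((1 + Real.log q) * (1 + Real.log q)) + K * ((Real.log q + 1) * ‖GG χ (1 / 2)‖) := by
      have r4 : (‖A₀‖ + ‖A₁‖) * (1 - Λ) * (1 - Λ + ‖GG χ (1 / 2)‖) =
        (‖A₀‖ + ‖A₁‖) * ((1 - Λ) * (1 - Λ) + (1 - Λ) * ‖GG χ (1 / 2)‖) := by ring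
      rw [r4]
      have r50 : (1 - Λ) * (1 - Λ) + (1 - Λ) * ‖GG χ (1 / 2)‖ ≤
          (1 + Real.log q) * (1 + Real.log q) + (Real.log q + 1) * ‖GG χ (1 / 2)‖ := by
        have := mul_le_mul w2 w2 w1 (by linarith)
        have := mul_le_mul_of_nonneg_right w2 g0
        linarith
      have r5 := mul_le_mul (show ‖A₀‖ + ‖A₁‖ ≤ K by linarith) r50 (by positivity) hK0
      linarith
    have r6 : ‖A₀‖ * ‖deriv (GG χ) (1 / 2)‖ ≤ K * ‖deriv (GG χ) (1 / 2)‖ :=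
      mul_le_mul_of_nonneg_right (by linarith) g1
    have r7 : (‖A₀‖ + ‖A₁‖) * (1 - Λ) * (1 - Λ + ‖GG χ (1 / 2)‖) +
        ‖A₀‖ * ‖deriv (GG χ) (1 / 2)‖ + 4 * c ≤
        K * ((1 + Real.log q) * (1 + Real.log q)) + K * ((Real.log q + 1) * ‖GG χ (1 / 2)‖) +
          K * ‖deriv (GG χ) (1 / 2)‖ + 4 * K := by linarith
    refine (mul_le_mul_of_nonneg_left r7 hqh.le).trans ?_
    have r8 : (q : ℝ) ^ (-(1 / 2) : ℝ) * (K * ((1 + Real.log q) * (1 + Real.log q)) +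
        K * ((Real.log q + 1) * ‖GG χ (1 / 2)‖) + K * ‖deriv (GG χ) (1 / 2)‖ + 4 * K) =
        K * ((1 + Real.log q) * (1 + Real.log q) * (q : ℝ) ^ (-(1 / 2) : ℝ)) +
          K * ((Real.log q + 1) * ((q : ℝ) ^ (-(1 / 2) : ℝ) * ‖GG χ (1 / 2)‖)) +
          K * ((q : ℝ) ^ (-(1 / 2) : ℝ) * ‖deriv (GG χ) (1 / 2)‖) + 4 * (K * (q : ℝ) ^ (-(1 / 2) : ℝ)) := by ring
    rw [r8]
    have f15 : 0 ≤ K * (Kl * (q : ℝ) ^ (-(1 / 4) : ℝ)) := le_trans (by positivity) k2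
    have f17 : K * (4 * Kl + 289 * 5) * (q : ℝ) ^ (-(1 / 4) : ℝ) =
        4 * (K * (Kl * (q : ℝ) ^ (-(1 / 4) : ℝ))) + 5 * (K * (289 * (q : ℝ) ^ (-(1 / 4) : ℝ))) := by ring
    rw [f17]
    linarith

theorem recGL_pos : ∃ q₀ : ℕ, ∀ (q : ℕ) [NeZero q], q₀ ≤ q →
    ∀ (χ : DirichletCharacter ℂ q) (a l : ℕ → ℝ) (σ C : ℝ), HypL χ a l σ C →
      ∀ u : ℝ, 0 ≤ u → σ * bb 1 (FF l) u ≤ C + 1 := by
  obtain ⟨d, hd1⟩ : ∃ d : ℝ, d = 1 := ⟨1, rfl⟩
  obtain ⟨η, hη1⟩ : ∃ η : ℝ, η = 1 := ⟨1, rfl⟩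
  have hd : 0 < d := by rw [hd1]; exact one_pos
  have hη : 0 < η := by rw [hη1]; exact one_pos
  choose h A₀ A₁ c hc h1 h1' h2 h3 using fun ev => kernL ev hd
  -- a common bound for the constants
  have hc0 : ∀ ev, 0 ≤ c ev := fun ev => (norm_nonneg _).trans (h1 ev 0)
  obtain ⟨K, hK⟩ : ∃ K : ℝ, K = 1 + ∑ ev : Bool, (‖A₀ ev‖ + ‖A₁ ev‖ + c ev) := ⟨_, rfl⟩
  have hKe : ∀ ev, ‖A₀ ev‖ + ‖A₁ ev‖ + c ev ≤ K := by
    intro ev
    have := Finset.single_le_sum (f := fun ev : Bool => ‖A₀ ev‖ + ‖A₁ ev‖ + c ev)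
      (fun i _ => add_nonneg (add_nonneg (norm_nonneg _) (norm_nonneg _)) (hc0 i)) (Finset.mem_univ ev)
    rw [hK]
    linarith
  have hK0 : 0 < K := by
    rw [hK]
    have : 0 ≤ ∑ ev : Bool, (‖A₀ ev‖ + ‖A₁ ev‖ + c ev) :=
      Finset.sum_nonneg fun i _ => add_nonneg (add_nonneg (norm_nonneg _) (norm_nonneg _)) (hc0 i)
    linarith
  obtain ⟨Kl, hKl, hL1p⟩ := L1p
  obtain ⟨Cw, hCw, hw⟩ := two_pow_omega
  obtain ⟨q₁, hq₁⟩ : ∃ q₁ : ℕ, ∀ q : ℕ, q₁ ≤ q →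
      Cw * (K * (4 * Kl + 289 * 5)) * (q : ℝ) ^ (-(1 / 8) : ℝ) ≤ η / 2 := by
    have h5 := (tendsto_rpow_neg_atTop (show (0 : ℝ) < 1 / 8 by norm_num)).const_mul (Cw * (K * (4 * Kl + 289 * 5)))
    rw [mul_zero] at h5
    have h6 := (h5.comp tendsto_natCast_atTop_atTop).eventually (Iic_mem_nhds (show (0:ℝ) < η / 2 by positivity))
    obtain ⟨q₁, hq₁⟩ := eventually_atTop.1 h6
    exact ⟨q₁, fun q hq => hq₁ q hq⟩
  refine ⟨q₁, fun q _ hq χ a l σ C hyp u₀ hu₀ => ?_⟩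
  have hL1 := hL1p q χ hyp.dat.dat.sq hyp.dat.dat.ne
  have hq0' : q ≠ 0 := NeZero.ne q
  have hq1 : (1 : ℝ) ≤ q := by exact_mod_cast Nat.one_le_iff_ne_zero.2 hq0'
  have hq0 : (0 : ℝ) < q := by linarith
  have hml := measurable_FF l
  have h0l : ∀ t < 0, FF l t = 0 := fun t ht => by unfold FF; rw [if_neg (not_le.2 ht)]
  have hFl := abs_FFl_le hyp.dat
  have hm := measurable_FF a
  have h0 : ∀ t < 0, FF a t = 0 := fun t ht => by unfold FF; rw [if_neg (not_le.2 ht)]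
  have hF := abs_FF_le hyp.dat.dat
  obtain ⟨hFli, hLl, hhalf, -⟩ := landau_L hyp
  obtain ⟨hFlw, hsimple, hFi, hL, hFw⟩ := mean_L hyp
  obtain ⟨hI0, hI1⟩ := at_halfL hFi hL
  obtain ⟨ε, ev, hε, hfe⟩ := fe hyp.dat.dat
  have hP := fun Λ : ℝ => D_props2 hm h0 hF hFi hFw (hc ev) (h1 ev) (h1' ev) (h2 ev) Λ
  obtain ⟨hbc, hbi, hbx, hbL, hbl⟩ := b_props hml h0l hFl hFli hFlw hd
  have hσ : |σ| = 1 := by
    rcases hyp.sg with h | h <;> simp [h]
  have hσc : ‖(σ : ℂ)‖ = 1 := by rw [Complex.norm_real]; exact hσ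
  -- the dual side
  set Λt : Finset ℕ → ℝ := fun T => Real.log q - 2 * Real.log (∏ p ∈ T, p : ℕ) with hΛt
  set ct : Finset ℕ → ℂ := fun T => (-1 : ℂ) ^ T.card * ((∏ p ∈ T, p : ℕ) : ℂ)⁻¹ with hct
  set DL : ℝ → ℂ := fun u => ∑ T ∈ q.primeFactors.powerset, ct T * DD (h ev) (Λt T) (FF a) u with hDL'
  have hDb' : ∀ u : ℝ, 0 ≤ u → ‖DL u‖ ≤ η / 2 := by
    intro u hu
    have h5 : ∀ T ∈ q.primeFactors.powerset, ‖ct T * DD (h ev) (Λt T) (FF a) u‖ ≤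
        K * (4 * Kl + 289 * 5) * (q : ℝ) ^ (-(1 / 4) : ℝ) := by
      intro T hT
      obtain ⟨t1, t2⟩ := prod_primes_le hq0' hT
      have h6 : ‖ct T‖ = ((∏ p ∈ T, p : ℕ) : ℝ)⁻¹ := by
        simp only [hct]
        rw [norm_mul, norm_pow, norm_neg, norm_one, one_pow, one_mul, norm_inv, Complex.norm_natCast]
      rw [norm_mul, h6]
      exact term_le (hc0 ev) (hKe ev) t1 t2 hL1 hI0 hI1 (hP _).2.2.2.2.2.1 (hP _).2.2.2.2.2.2 hu
    have h7 := (norm_sum_le _ _).trans (Finset.sum_le_sum h5)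
    rw [Finset.sum_const, Finset.card_powerset, nsmul_eq_mul] at h7
    refine h7.trans (le_trans ?_ (hq₁ q hq))
    have h8 := hw q hq0'
    have h9 : (q : ℝ) ^ (1 / 8 : ℝ) * (q : ℝ) ^ (-(1 / 4) : ℝ) = (q : ℝ) ^ (-(1 / 8) : ℝ) := by
      rw [← Real.rpow_add hq0]
      norm_num
    have h10 : ((2 ^ q.primeFactors.card : ℕ) : ℝ) = (2 : ℝ) ^ q.primeFactors.card := by push_cast; ring
    rw [h10, ← h9]
    have h11 : 0 ≤ K * (4 * Kl + 289 * 5) * (q : ℝ) ^ (-(1 / 4) : ℝ) := by positivity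
    calc (2 : ℝ) ^ q.primeFactors.card * (K * (4 * Kl + 289 * 5) * (q : ℝ) ^ (-(1 / 4) : ℝ))
        ≤ (Cw * (q : ℝ) ^ (1 / 8 : ℝ)) * (K * (4 * Kl + 289 * 5) * (q : ℝ) ^ (-(1 / 4) : ℝ)) :=
          mul_le_mul_of_nonneg_right h8 h11
      _ = _ := by ring
  have hDLc : Continuous DL := continuous_finset_sum _ fun T _ => continuous_const.mul (hP _).1
  have hDL0 : Tendsto DL atTop (𝓝 0) := by
    have h5 : Tendsto DL atTop (𝓝 (∑ T ∈ q.primeFactors.powerset, ct T * 0)) :=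
      tendsto_finset_sum _ fun T _ => (hP (Λt T)).2.2.2.2.1.const_mul (ct T)
    simpa using h5
  -- the denominator
  set f : ℂ → ℂ := fun z => z * LFunction χ (1 / 2 + z) with hf
  have hLd : Differentiable ℂ (fun z : ℂ => LFunction χ (1 / 2 + z)) :=
    (differentiable_LFunction hyp.dat.dat.ne).comp (differentiable_id.const_add _)
  have hfd : Differentiable ℂ f := differentiable_id.mul hLd
  have hfin : ∀ T : ℝ, {γ : ℝ | |γ| ≤ T ∧ f (Complex.I * γ) = 0}.Finite := by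
    intro T
    refine (Set.Finite.union (Set.finite_singleton (0 : ℝ)) (Pool.Agent.H62.zeros_finite hyp.dat.dat.ne T)).subset ?_
    intro γ hγ
    rcases mul_eq_zero.1 hγ.2 with h5 | h5
    · left
      rcases mul_eq_zero.1 h5 with h6 | h6
      · exact absurd h6 Complex.I_ne_zero
      · exact_mod_cast h6
    · right
      exact ⟨hγ.1, h5⟩
  have hfs : ∀ γ : ℝ, f (Complex.I * γ) = 0 → deriv f (Complex.I * γ) ≠ 0 := by
    intro γ hγ
    have hder : deriv f (Complex.I * γ) = 1 * LFunction χ (1 / 2 + Complex.I * γ) +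
        Complex.I * γ * deriv (fun z : ℂ => LFunction χ (1 / 2 + z)) (Complex.I * γ) := by
      exact ((hasDerivAt_id _).mul (hLd _).hasDerivAt).deriv
    rw [hder]
    rcases eq_or_ne γ 0 with h5 | h5
    · subst h5
      simpa using hhalf
    · have hne : Complex.I * (γ : ℂ) ≠ 0 := mul_ne_zero Complex.I_ne_zero (by exact_mod_cast h5)
      have h6 : LFunction χ (1 / 2 + Complex.I * γ) = 0 := by
        rcases mul_eq_zero.1 hγ with h7 | h7
        · exact absurd h7 hne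
        · exact h7
      rw [h6, mul_zero, zero_add]
      exact mul_ne_zero hne (hsimple γ h6)
  have hEEd : Differentiable ℂ (EE q) := by
    unfold EE
    have h5 := differentiable_LFunctionTrivChar₁ q
    have h6 : Differentiable ℂ fun z : ℂ => LFunctionTrivChar₁ q (1 + 2 * z) := h5.comp (by fun_prop)
    exact h6.div_const 2
  -- the general lemma
  have hgl := gl2 hfd hfin hfs
    (N := fun z => (σ : ℂ) * (Complex.exp ((d : ℂ) ^ 2 * z ^ 2 / 2) * EE q z / (1 / 2 + z)))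
    (b := fun u => (σ : ℂ) * (bb d (FF l) u : ℂ)) (D := fun u => -((σ : ℂ) * ε) * DL u)
    (β := C + η / 4) ?_ ?_ ?_ ?_ ?_ ?_ ?_ ?_ ?_ ?_ ?_ ?_ u₀
  · have e2 := hDb' _ hu₀
    have e3 : (-((σ : ℂ) * ε) * DL u₀).re ≥ -(η / 2) := by
      have e4 := (abs_le.1 (Complex.abs_re_le_norm (-((σ : ℂ) * ε) * DL u₀))).1
      rw [norm_mul, norm_neg, norm_mul, hσc, hε, one_mul, one_mul] at e4
      linarith
    have e5 : ((σ : ℂ) * (bb d (FF l) u₀ : ℂ)).re = σ * bb d (FF l) u₀ := by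
      rw [Complex.re_ofReal_mul, Complex.ofReal_re]
    simp only [Complex.add_re] at hgl
    rw [e5] at hgl
    have e6 : σ * bb d (FF l) u₀ ≤ C + 3 / 4 * η := by linarith
    rw [hd1, hη1] at e6
    linarith
  · intro z hz
    have hne : (1 / 2 + z : ℂ) ≠ 0 := by
      intro h5
      have := congrArg Complex.re h5
      rw [Complex.add_re, Complex.zero_re] at this
      norm_num at this
      rw [abs_lt] at hz
      linarith
    have h5 : DifferentiableAt ℂ (fun z : ℂ => Complex.exp ((d : ℂ) ^ 2 * z ^ 2 / 2) * EE q z) z :=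
      (by fun_prop : DifferentiableAt ℂ (fun z : ℂ => Complex.exp ((d : ℂ) ^ 2 * z ^ 2 / 2)) z).mul (hEEd z)
    exact (h5.div (by fun_prop) hne).const_mul _
  · have h5 := hEEd.continuous.measurable
    fun_prop
  · fun_prop
  · exact continuous_const.mul hDLc
  · have hb2 : Integrable (fun u : ℝ => bb d (FF l) u * ((1 + u ^ 2) ^ 2)⁻¹) := by
      have hc1 : Continuous fun u : ℝ => ((1 + u ^ 2)⁻¹ : ℝ) := Continuous.inv₀ (by fun_prop) fun u => by positivity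
      refine (hbi.mul_bdd (c := 1) hc1.aestronglyMeasurable (ae_of_all _ fun u => ?_)).congr (ae_of_all _ fun u => ?_)
      · rw [Real.norm_eq_abs, abs_of_nonneg (by positivity)]
        apply inv_le_one_of_one_le₀
        nlinarith [sq_nonneg u]
      · simp only
        rw [sq (1 + u ^ 2), mul_inv, mul_assoc]
    have h5 : Integrable (fun u : ℝ => ((bb d (FF l) u * ((1 + u ^ 2) ^ 2)⁻¹ : ℝ) : ℂ)) := hb2.ofReal
    refine (h5.const_mul (σ : ℂ)).congr (ae_of_all _ fun u => ?_)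
    simp only
    push_cast
    ring
  · have h5 : Integrable (fun u : ℝ => ∑ T ∈ q.primeFactors.powerset, ct T * (DD (h ev) (Λt T) (FF a) u *
        ((((1 + u ^ 2) ^ 2)⁻¹ : ℝ) : ℂ))) := integrable_finset_sum _ fun T _ => (hP (Λt T)).2.1.const_mul (ct T)
    refine (h5.const_mul (-((σ : ℂ) * ε))).congr (ae_of_all _ fun u => ?_)
    simp only [hDL']
    rw [Finset.mul_sum, mul_assoc, Finset.sum_mul, Finset.mul_sum]
    exact Finset.sum_congr rfl fun T _ => by ring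
  · intro δ hδ _
    have h5 : Integrable (fun u : ℝ => ((Real.exp (-(δ * u)) * bb d (FF l) u : ℝ) : ℂ)) := (hbx δ hδ).ofReal
    refine (h5.const_mul (σ : ℂ)).congr (ae_of_all _ fun u => ?_)
    simp only
    push_cast
    rw [show -(δ : ℂ) * u = -(δ * u) by ring]
    ring
  · intro δ hδ hδ2
    have h5 : Integrable (fun u : ℝ => ∑ T ∈ q.primeFactors.powerset, ct T * (Complex.exp (δ * u) *
        DD (h ev) (Λt T) (FF a) u)) := integrable_finset_sum _ fun T _ => ((hP (Λt T)).2.2.1 δ hδ hδ2).const_mul (ct T)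
    refine (h5.const_mul (-((σ : ℂ) * ε))).congr (ae_of_all _ fun u => ?_)
    simp only [hDL']
    rw [Finset.mul_sum, Finset.mul_sum, Finset.mul_sum]
    exact Finset.sum_congr rfl fun T _ => by ring
  · intro z hz _
    have e1 : (fun t : ℝ => Complex.exp (-z * t) * ((σ : ℂ) * (bb d (FF l) t : ℂ))) =
        fun t : ℝ => (σ : ℂ) * (Complex.exp (-z * t) * (bb d (FF l) t : ℂ)) := by
      ext t
      ring
    rw [e1, integral_const_mul, hbL z hz, (hLl z hz).2]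
    have e9 : ZZ χ z = EE q z * (z⁻¹ * ((1 / 2 + z)⁻¹ * (LFunction χ (1 / 2 + z))⁻¹)) := by
      unfold ZZ
      rw [div_eq_mul_inv, mul_inv, mul_inv]
    simp only [hf]
    rw [e9, div_eq_mul_inv _ (z * _), mul_inv]
    ring
  · intro z hz1 hz2
    have hz3 : |z.re| < 1 / 4 := by rw [abs_lt]; constructor <;> linarith
    have hz0 : z ≠ 0 := by
      rintro rfl
      simp at hz2
    have hI1' : ∀ T : Finset ℕ, Integrable (fun t : ℝ => Complex.exp (-z * t) * DD (h ev) (Λt T) (FF a) t) := by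
      intro T
      have i1 := (hP (Λt T)).2.2.1 (-z.re) (by linarith) (by linarith)
      have hcT := (hP (Λt T)).1
      refine i1.norm.mono' ?_ (ae_of_all _ fun t => ?_)
      · exact Continuous.aestronglyMeasurable (by fun_prop)
      · rw [norm_mul, norm_mul, Complex.norm_exp, Complex.norm_exp]
        refine le_of_eq ?_
        congr 2
        simp
    have e1 : (fun t : ℝ => Complex.exp (-z * t) * (-((σ : ℂ) * ε) * DL t)) =
        fun t : ℝ => (-((σ : ℂ) * ε)) * ∑ T ∈ q.primeFactors.powerset, ct T *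
          (Complex.exp (-z * t) * DD (h ev) (Λt T) (FF a) t) := by
      ext t
      simp only [hDL']
      rw [Finset.mul_sum, Finset.mul_sum, Finset.mul_sum]
      exact Finset.sum_congr rfl fun T _ => by ring
    have e2 : (∫ t : ℝ, Complex.exp (z * t) * (FF a t : ℂ)) = GG χ (-z) := by
      rw [← hL (-z) (by rw [Complex.neg_re]; linarith)]
      congr 1
      ext t
      rw [neg_neg]
    have e20 : ∀ T ∈ q.primeFactors.powerset, ∫ t : ℝ, ct T * (Complex.exp (-z * t) * DD (h ev) (Λt T) (FF a) t) =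
        ct T * (Complex.exp (z * Λt T) * GG χ (-z) * (SZ ev d z / (1 / 2 + z) ^ 2 / z)) := by
      intro T _
      rw [integral_const_mul, (hP (Λt T)).2.2.2.1 z hz1 hz2, e2, h3 ev z hz1 hz2]
    rw [e1, integral_const_mul, integral_finset_sum _ fun T _ => (hI1' T).const_mul (ct T), Finset.sum_congr rfl e20]
    have e3 := hfe d z (hz3.trans (by norm_num))
    have e4 := EE_gen q z
    have e5 : ∀ T : Finset ℕ, Complex.exp (z * Real.log q) * Complex.exp (-(2 * z) * Real.log (∏ p ∈ T, p : ℕ)) =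
        Complex.exp (z * (Λt T : ℂ)) := by
      intro T
      rw [← Complex.exp_add]
      congr 1
      simp only [hΛt]
      push_cast
      ring
    have e6 : (σ : ℂ) * (Complex.exp ((d : ℂ) ^ 2 * z ^ 2 / 2) * EE q z / (1 / 2 + z)) / f z =
        (σ : ℂ) * EE q z / z * (Complex.exp ((d : ℂ) ^ 2 * z ^ 2 / 2) / (1 / 2 + z) / LFunction χ (1 / 2 + z)) := by
      simp only [hf]
      rw [div_eq_mul_inv _ (z * _), mul_inv]
      ring
    rw [e6, e3, e4]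
    have e7 : ∀ T ∈ q.primeFactors.powerset, ct T * (Complex.exp (z * Λt T) * GG χ (-z) * (SZ ev d z / (1 / 2 + z) ^ 2 / z)) =
        ((-1 : ℂ) ^ T.card * ((∏ p ∈ T, p : ℕ) : ℂ)⁻¹ * Complex.exp (-(2 * z) * Real.log (∏ p ∈ T, p : ℕ))) *
          (Complex.exp (z * Real.log q) * GG χ (-z) * (SZ ev d z / (1 / 2 + z) ^ 2 / z)) := by
      intro T _
      rw [← e5 T]
      simp only [hct]
      ring
    rw [Finset.sum_congr rfl e7, ← Finset.sum_mul]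
    unfold SZ
    ring
  · filter_upwards [hbl σ C (η / 4) (by positivity) hyp.bd] with u hu
    rw [Complex.re_ofReal_mul, Complex.ofReal_re]
    exact hu
  · have := hDL0.const_mul (-((σ : ℂ) * ε))
    rwa [mul_zero] at this

/-- the one-sided bound for the Gaussian means of the Liouville side, everywhere, every modulus -/
theorem recG_L : ∃ q₀ : ℕ, ∀ (q : ℕ) [NeZero q], q₀ ≤ q →
    ∀ (χ : DirichletCharacter ℂ q) (a l : ℕ → ℝ) (σ C : ℝ), 0 ≤ C → HypL χ a l σ C → ∀ u : ℝ, σ * bb 1 (FF l) u ≤ C + 2 := by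
  obtain ⟨q₀, h⟩ := recGL_pos
  refine ⟨q₀, fun q _ hq χ a l σ C hC hyp u => ?_⟩
  rcases le_or_gt 0 u with hu | hu
  · linarith [h q hq χ a l σ C hyp u hu]
  · have h1 := Pool.Agent.DR.bb_le (F := FF l) (A := 1) (fun t => by rw [one_mul]; exact abs_FFl_le hyp.dat t) u
    have hσ : |σ| = 1 := by
      rcases hyp.sg with h | h <;> simp [h]
    have h2 : σ * bb 1 (FF l) u ≤ |bb 1 (FF l) u| := by
      refine (le_abs_self _).trans ?_
      rw [abs_mul, hσ, one_mul]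
    have h3 : Real.exp (u / 2) ≤ 1 := Real.exp_le_one_iff.2 (by linarith)
    linarith

end Pool.Agent.QT
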