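import Pool.Agent.Helper96.QT.Rec
import Pool.Agent.Helper95.TF.Gk

/-!
# Project DR (MP_a499ba_nt), family of real characters: the recurrence for the Gaussian means of width 1, with an absolute `q₀`
-/

set_option autoImplicit false

namespace Pool.Agent.QT

open Real Filter Topology MeasureTheory Set DirichletCharacter

/-- the transforms at `1/2` -/
private theorem at_half {q : ℕ} [NeZero q] {χ : DirichletCharacter ℂ q} {a : ℕ → ℝ} {σ C : ℝ} (h : Hyp χ a σ C) :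
    |∫ t : ℝ, Real.exp (-(t / 2)) * FF a t| = ‖GG χ (1 / 2)‖ ∧
      |∫ t : ℝ, Real.exp (-(t / 2)) * (t * FF a t)| = ‖deriv (GG χ) (1 / 2)‖ := by
  obtain ⟨hFi, hL, -⟩ := landau h
  have hm := measurable_FF a
  have h0 : ∀ t < 0, FF a t = 0 := fun t ht => by unfold FF; rw [if_neg (not_le.2 ht)]
  constructor
  · rw [← (hL (1 / 2) (by norm_num)).2, ← Real.norm_eq_abs, ← Complex.norm_real]
    congr 1
    rw [← integral_complex_ofReal]
    congr 1
    ext t
    push_cast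
    congr 2
    ring
  · have h1 := laplace_deriv hm h0 hFi
    have h2 : (fun z : ℂ => ∫ t : ℝ, Complex.exp (-z * t) * (FF a t : ℂ)) =ᶠ[𝓝 (1 / 2 : ℂ)] GG χ := by
      have hopen : IsOpen {z : ℂ | 0 < z.re} := isOpen_lt continuous_const Complex.continuous_re
      filter_upwards [hopen.mem_nhds (show (1 / 2 : ℂ) ∈ {z : ℂ | 0 < z.re} by norm_num)] with z hz
      exact (hL z hz).2
    rw [(h1.congr_of_eventuallyEq h2.symm).deriv, norm_neg, integral_complex_ofReal, Complex.norm_real, Real.norm_eq_abs]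

private theorem ue_le (u : ℝ) : u * Real.exp (-(u / 2)) ≤ 1 := by
  have h1 := Real.add_one_le_exp (u / 2 - 1)
  have h2 : u / 2 ≤ Real.exp (u / 2 - 1) := by linarith
  have h3 : u * Real.exp (-(u / 2)) ≤ 2 * Real.exp (-1) := by
    calc u * Real.exp (-(u / 2)) = 2 * (u / 2 * Real.exp (-(u / 2))) := by ring
      _ ≤ 2 * (Real.exp (u / 2 - 1) * Real.exp (-(u / 2))) := by gcongr
      _ = 2 * Real.exp (-1) := by rw [← Real.exp_add]; congr 2; ring
  have h4 : 2 * Real.exp (-1) ≤ 1 := by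
    have h5 := Real.add_one_le_exp (1 : ℝ)
    have h6 : Real.exp (-1) * Real.exp 1 = 1 := by rw [← Real.exp_add]; simp
    nlinarith [Real.exp_pos (-1 : ℝ)]
  linarith

/-- The dual side for one parity: kernel, constants. -/
private theorem kern (ev : Bool) {d : ℝ} (hd : 0 < d) : ∃ (h : ℝ → ℂ) (A₀ A₁ : ℂ) (c : ℝ), Continuous h ∧
    (∀ y, ‖h y‖ ≤ c * Real.exp (-(|y| / 4))) ∧
      (∀ y : ℝ, 0 ≤ y → ‖h y - Complex.exp (-(y / 2)) * (A₀ * y + A₁)‖ ≤ c * Real.exp (-y)) ∧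
      ∀ z : ℂ, |z.re| < 1 / 4 → ∫ y : ℝ, Complex.exp (-z * y) * h y = SS ev d z / (1 / 2 + z) ^ 2 := by
  obtain ⟨c, hc⟩ := SS_bound ev hd
  obtain ⟨s, hs, hs1, hs2⟩ := inv_tr (fun z hz => SS_diff ev d hz) hc
  exact conv_pole hs hs1 hs2

theorem recG_pos : ∃ q₀ : ℕ, ∀ (q : ℕ) [NeZero q], q₀ ≤ q →
    ∀ (χ : DirichletCharacter ℂ q) (a : ℕ → ℝ) (σ C : ℝ), Hyp χ a σ C →
      ∀ u : ℝ, 0 ≤ u → σ * bb 1 (FF a) u ≤ C + 1 := by
  obtain ⟨d, hd1⟩ : ∃ d : ℝ, d = 1 := ⟨1, rfl⟩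
  obtain ⟨η, hη1⟩ : ∃ η : ℝ, η = 1 := ⟨1, rfl⟩
  have hd : 0 < d := by rw [hd1]; exact one_pos
  have hη : 0 < η := by rw [hη1]; exact one_pos
  choose h A₀ A₁ c hc h1 h2 h3 using fun ev => kern ev hd
  -- a common bound for the constants
  have hc0 : ∀ ev, 0 ≤ c ev := fun ev => by
    have := (norm_nonneg _).trans (h1 ev 0)
    simpa using this
  obtain ⟨K, hK⟩ : ∃ K : ℝ, K = 1 + ∑ ev : Bool, (‖A₀ ev‖ + ‖A₁ ev‖ + c ev) := ⟨_, rfl⟩
  have hKe : ∀ ev, ‖A₀ ev‖ + ‖A₁ ev‖ + c ev ≤ K := by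
    intro ev
    have := Finset.single_le_sum (f := fun ev : Bool => ‖A₀ ev‖ + ‖A₁ ev‖ + c ev)
      (fun i _ => add_nonneg (add_nonneg (norm_nonneg _) (norm_nonneg _)) (hc0 i)) (Finset.mem_univ ev)
    rw [hK]
    linarith
  have hK0 : 0 < K := by
    rw [hK]
    have : 0 ≤ ∑ ev : Bool, (‖A₀ ev‖ + ‖A₁ ev‖ + c ev) :=
      Finset.sum_nonneg fun i _ => add_nonneg (add_nonneg (norm_nonneg _) (norm_nonneg _)) (hc0 i)
    linarith
  obtain ⟨q₁, hq₁⟩ := L1 (η := η / (16 * K)) (by positivity)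
  obtain ⟨q₂, hq₂⟩ := exists_nat_gt (16 * K / η)
  refine ⟨max q₁ q₂, fun q _ hq χ a σ C hyp u₀ hu₀ => ?_⟩
  have hL1 := hq₁ q ((le_max_left _ _).trans hq) χ hyp.dat.sq hyp.dat.ne
  have hqr : 16 * K / η < (q : ℝ) := hq₂.trans_le (by exact_mod_cast (le_max_right _ _).trans hq)
  have hq0 : (0 : ℝ) < q := lt_of_le_of_lt (by positivity) hqr
  have hq1 : (1 : ℝ) ≤ q := by
    have : 0 < q := by exact_mod_cast hq0
    exact_mod_cast this
  have hΛ : 0 ≤ Real.log q := Real.log_nonneg hq1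
  have hm := measurable_FF a
  have h0 : ∀ t < 0, FF a t = 0 := fun t ht => by unfold FF; rw [if_neg (not_le.2 ht)]
  have hF := abs_FF_le hyp.dat
  obtain ⟨hFi, hL, -⟩ := landau hyp
  obtain ⟨hFw, hsimple⟩ := mean hyp
  obtain ⟨hI0, hI1⟩ := at_half hyp
  obtain ⟨ε, ev, hε, hfe⟩ := fe hyp.dat
  obtain ⟨hDc, hDi, hDe, hDL, hDb⟩ := D_props hm h0 hF hFi hFw (hc ev) (h1 ev) (h2 ev) hΛ
  obtain ⟨hbc, hbi, hbx, hbL, hbl⟩ := b_props hm h0 hF hFi hFw hd
  have hσ : |σ| = 1 := by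
    rcases hyp.sg with h | h <;> simp [h]
  have hσc : ‖(σ : ℂ)‖ = 1 := by rw [Complex.norm_real]; exact hσ
  have hDb' : ∀ u : ℝ, 0 ≤ u → ‖DD (h ev) (Real.log q) (FF a) u‖ ≤ η / 2 := by
    intro u hu
    refine (hDb u hu).trans ?_
    rw [hI0, hI1]
    have e1 : Real.exp (-((u + Real.log q) / 2)) = Real.exp (-(u / 2)) * (q : ℝ) ^ (-(1 / 2) : ℝ) := by
      rw [Real.rpow_def_of_pos hq0, ← Real.exp_add]
      congr 1
      ring
    have e2 : Real.exp (-(u + Real.log q)) ≤ 1 / q := by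
      rw [neg_add, Real.exp_add, Real.exp_neg (Real.log q), Real.exp_log hq0, one_div]
      have : Real.exp (-u) ≤ 1 := by rw [Real.exp_le_one_iff]; linarith
      have h5 : 0 ≤ (q : ℝ)⁻¹ := by positivity
      nlinarith
    have e3 := ue_le u
    have e4 : Real.exp (-(u / 2)) ≤ 1 := by rw [Real.exp_le_one_iff]; linarith
    have e5 := Real.exp_pos (-(u / 2))
    have hK1 := hKe ev
    have n0 := norm_nonneg (A₀ ev)
    have n1 := norm_nonneg (A₁ ev)
    have n2 := hc0 ev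
    have hqp : 0 < (q : ℝ) ^ (-(1 / 2) : ℝ) := by positivity
    have g0 := norm_nonneg (GG χ (1 / 2))
    have g1 := norm_nonneg (deriv (GG χ) (1 / 2))
    have f1 : Real.exp (-(u / 2)) * (‖A₀ ev‖ * (u + Real.log q) + ‖A₁ ev‖) ≤ 2 * K * (Real.log q + 1) := by
      have f2 : Real.exp (-(u / 2)) * (u + Real.log q) ≤ 1 + Real.log q := by nlinarith
      have f3 : Real.exp (-(u / 2)) * (‖A₀ ev‖ * (u + Real.log q) + ‖A₁ ev‖) =
          ‖A₀ ev‖ * (Real.exp (-(u / 2)) * (u + Real.log q)) + ‖A₁ ev‖ * Real.exp (-(u / 2)) := by ring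
      rw [f3]
      have f4 : ‖A₀ ev‖ * (Real.exp (-(u / 2)) * (u + Real.log q)) ≤ K * (1 + Real.log q) :=
        mul_le_mul (by linarith) f2 (by positivity) hK0.le
      have f5 : ‖A₁ ev‖ * Real.exp (-(u / 2)) ≤ K * 1 := mul_le_mul (by linarith) e4 e5.le hK0.le
      nlinarith
    have f6 : Real.exp (-(u / 2)) * ‖A₀ ev‖ ≤ K := by nlinarith
    have f7 : 2 * K * (Real.log q + 1) * ((q : ℝ) ^ (-(1 / 2) : ℝ) * ‖GG χ (1 / 2)‖) ≤ η / 8 := by
      have := hL1.1
      rw [le_div_iff₀ (by positivity)] at this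
      nlinarith
    have f8 : K * ((q : ℝ) ^ (-(1 / 2) : ℝ) * ‖deriv (GG χ) (1 / 2)‖) ≤ η / 16 := by
      have := hL1.2
      rw [le_div_iff₀ (by positivity)] at this
      nlinarith
    have f9 : 2 * c ev * Real.exp (-(u + Real.log q)) ≤ η / 8 := by
      have f10 : K / q ≤ η / 16 := by
        rw [div_le_div_iff₀ hq0 (by norm_num)]
        rw [div_lt_iff₀ hη] at hqr
        linarith
      calc 2 * c ev * Real.exp (-(u + Real.log q)) ≤ 2 * K * (1 / q) := by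
            refine mul_le_mul (by linarith) e2 (Real.exp_pos _).le (by positivity)
        _ = 2 * (K / q) := by ring
        _ ≤ η / 8 := by linarith
    rw [e1]
    have f11 : Real.exp (-(u / 2)) * (q : ℝ) ^ (-(1 / 2) : ℝ) *
        ((‖A₀ ev‖ * (u + Real.log q) + ‖A₁ ev‖) * ‖GG χ (1 / 2)‖ + ‖A₀ ev‖ * ‖deriv (GG χ) (1 / 2)‖) =
        (Real.exp (-(u / 2)) * (‖A₀ ev‖ * (u + Real.log q) + ‖A₁ ev‖)) * ((q : ℝ) ^ (-(1 / 2) : ℝ) * ‖GG χ (1 / 2)‖) +
          (Real.exp (-(u / 2)) * ‖A₀ ev‖) * ((q : ℝ) ^ (-(1 / 2) : ℝ) * ‖deriv (GG χ) (1 / 2)‖) := by ring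
    rw [f11]
    have f12 := mul_le_mul_of_nonneg_right f1 (by positivity : 0 ≤ (q : ℝ) ^ (-(1 / 2) : ℝ) * ‖GG χ (1 / 2)‖)
    have f13 := mul_le_mul_of_nonneg_right f6 (by positivity : 0 ≤ (q : ℝ) ^ (-(1 / 2) : ℝ) * ‖deriv (GG χ) (1 / 2)‖)
    linarith
  -- decay at infinity
  have hD0 : Tendsto (DD (h ev) (Real.log q) (FF a)) atTop (𝓝 0) := by
    obtain ⟨B, hB⟩ : ∃ B : ℝ, B = (‖A₀ ev‖ + ‖A₁ ev‖) * |∫ t : ℝ, Real.exp (-(t / 2)) * FF a t| +
        ‖A₀ ev‖ * |∫ t : ℝ, Real.exp (-(t / 2)) * (t * FF a t)| + 2 * c ev := ⟨_, rfl⟩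
    have hlim : Tendsto (fun u : ℝ => B * ((u + Real.log q + 1) * Real.exp (-((u + Real.log q) / 2)))) atTop (𝓝 (B * 0)) := by
      refine Tendsto.const_mul B ?_
      have k1 : Tendsto (fun v : ℝ => (2 * v + 1) * Real.exp (-v)) atTop (𝓝 0) := by
        have k2 := (Real.tendsto_pow_mul_exp_neg_atTop_nhds_zero 1).const_mul 2
        have k3 := k2.add (Real.tendsto_exp_neg_atTop_nhds_zero)
        simp only [mul_zero, add_zero, pow_one] at k3
        refine k3.congr fun v => ?_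
        ring
      have k4 : Tendsto (fun u : ℝ => (u + Real.log q) / 2) atTop atTop :=
        (tendsto_atTop_add_const_right _ _ tendsto_id).atTop_div_const (by norm_num)
      refine (k1.comp k4).congr fun u => ?_
      simp only [Function.comp]
      congr 1
      ring
    rw [mul_zero] at hlim
    rw [tendsto_zero_iff_norm_tendsto_zero]
    refine tendsto_of_tendsto_of_tendsto_of_le_of_le' tendsto_const_nhds hlim
      (Eventually.of_forall fun u => norm_nonneg _) ?_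
    filter_upwards [eventually_ge_atTop 0] with u hu
    refine (hDb u hu).trans ?_
    have hv : 0 ≤ u + Real.log q := by linarith
    have e1 : Real.exp (-(u + Real.log q)) ≤ (u + Real.log q + 1) * Real.exp (-((u + Real.log q) / 2)) := by
      calc Real.exp (-(u + Real.log q)) ≤ Real.exp (-((u + Real.log q) / 2)) := by
            apply Real.exp_le_exp.2
            linarith
        _ ≤ _ := le_mul_of_one_le_left (Real.exp_pos _).le (by linarith)
    have e2 : ‖A₀ ev‖ * (u + Real.log q) + ‖A₁ ev‖ ≤ (‖A₀ ev‖ + ‖A₁ ev‖) * (u + Real.log q + 1) := by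
      nlinarith [norm_nonneg (A₀ ev), norm_nonneg (A₁ ev), mul_nonneg (norm_nonneg (A₁ ev)) hv]
    have e3 : ‖A₀ ev‖ ≤ ‖A₀ ev‖ * (u + Real.log q + 1) := le_mul_of_one_le_right (norm_nonneg _) (by linarith)
    have g0 := abs_nonneg (∫ t : ℝ, Real.exp (-(t / 2)) * FF a t)
    have g1 := abs_nonneg (∫ t : ℝ, Real.exp (-(t / 2)) * (t * FF a t))
    have e4 := Real.exp_pos (-((u + Real.log q) / 2))
    have e5 := mul_le_mul_of_nonneg_right e2 g0
    have e6 := mul_le_mul_of_nonneg_right e3 g1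
    have e7 := mul_le_mul_of_nonneg_left (add_le_add e5 e6) e4.le
    have e8 := mul_le_mul_of_nonneg_left e1 (by linarith [hc0 ev] : 0 ≤ 2 * c ev)
    rw [hB]
    calc _ ≤ Real.exp (-((u + Real.log q) / 2)) *
          ((‖A₀ ev‖ + ‖A₁ ev‖) * (u + Real.log q + 1) * |∫ t : ℝ, Real.exp (-(t / 2)) * FF a t| +
            ‖A₀ ev‖ * (u + Real.log q + 1) * |∫ t : ℝ, Real.exp (-(t / 2)) * (t * FF a t)|) +
          2 * c ev * ((u + Real.log q + 1) * Real.exp (-((u + Real.log q) / 2))) := add_le_add e7 e8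
      _ = _ := by ring
  -- the general lemma
  have hgl := gl hyp.dat.ne hsimple
    (N := fun z => (σ : ℂ) * (Complex.exp ((d : ℂ) ^ 2 * z ^ 2 / 2) / (1 / 2 + z)))
    (b := fun u => (σ : ℂ) * (bb d (FF a) u : ℂ)) (D := fun u => -((σ : ℂ) * ε) * DD (h ev) (Real.log q) (FF a) u)
    (β := C + η / 4) ?_ ?_ ?_ ?_ ?_ ?_ ?_ ?_ ?_ ?_ ?_ ?_ u₀
  · have e2 := hDb' _ hu₀
    have e3 : (-((σ : ℂ) * ε) * DD (h ev) (Real.log q) (FF a) u₀).re ≥ -(η / 2) := by
      have e4 := (abs_le.1 (Complex.abs_re_le_norm (-((σ : ℂ) * ε) * DD (h ev) (Real.log q) (FF a) u₀))).1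
      rw [norm_mul, norm_neg, norm_mul, hσc, hε, one_mul, one_mul] at e4
      linarith
    have e5 : ((σ : ℂ) * (bb d (FF a) u₀ : ℂ)).re = σ * bb d (FF a) u₀ := by
      rw [Complex.re_ofReal_mul, Complex.ofReal_re]
    simp only [Complex.add_re] at hgl
    rw [e5] at hgl
    have e6 : σ * bb d (FF a) u₀ ≤ C + 3 / 4 * η := by linarith
    rw [hd1, hη1] at e6
    linarith
  · intro z hz
    have hne : (1 / 2 + z : ℂ) ≠ 0 := by
      intro h5
      have := congrArg Complex.re h5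
      rw [Complex.add_re, Complex.zero_re] at this
      norm_num at this
      rw [abs_lt] at hz
      linarith
    fun_prop (disch := exact hne)
  · fun_prop
  · fun_prop
  · exact continuous_const.mul hDc
  · have h5 : Integrable (fun u : ℝ => ((bb d (FF a) u * (1 + u ^ 2)⁻¹ : ℝ) : ℂ)) := hbi.ofReal
    refine (h5.const_mul (σ : ℂ)).congr (ae_of_all _ fun u => ?_)
    simp only
    push_cast
    ring
  · refine (hDi.const_mul (-((σ : ℂ) * ε))).congr (ae_of_all _ fun u => ?_)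
    simp only
    ring
  · intro δ hδ _
    have h5 : Integrable (fun u : ℝ => ((Real.exp (-(δ * u)) * bb d (FF a) u : ℝ) : ℂ)) := (hbx δ hδ).ofReal
    refine (h5.const_mul (σ : ℂ)).congr (ae_of_all _ fun u => ?_)
    simp only
    push_cast
    rw [show -(δ : ℂ) * u = -(δ * u) by ring]
    ring
  · intro δ hδ hδ2
    refine ((hDe δ hδ hδ2).const_mul (-((σ : ℂ) * ε))).congr (ae_of_all _ fun u => ?_)
    simp only
    ring
  · intro z hz _
    have e1 : (fun t : ℝ => Complex.exp (-z * t) * ((σ : ℂ) * (bb d (FF a) t : ℂ))) =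
        fun t : ℝ => (σ : ℂ) * (Complex.exp (-z * t) * (bb d (FF a) t : ℂ)) := by
      ext t
      ring
    rw [e1, integral_const_mul, hbL z hz, (hL z hz).2]
    unfold GG
    rw [one_div, mul_inv]
    ring
  · intro z hz1 hz2
    have hz3 : |z.re| < 1 / 4 := by rw [abs_lt]; constructor <;> linarith
    have e1 : (fun t : ℝ => Complex.exp (-z * t) * (-((σ : ℂ) * ε) * DD (h ev) (Real.log q) (FF a) t)) =
        fun t : ℝ => (-((σ : ℂ) * ε)) * (Complex.exp (-z * t) * DD (h ev) (Real.log q) (FF a) t) := by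
      ext t
      ring
    have e2 : (∫ t : ℝ, Complex.exp (z * t) * (FF a t : ℂ)) = GG χ (-z) := by
      rw [← (hL (-z) (by rw [Complex.neg_re]; linarith)).2]
      congr 1
      ext t
      rw [neg_neg]
    rw [e1, integral_const_mul, hDL z hz1 hz2, e2, h3 ev z hz3, mul_div_assoc,
      hfe d z (hz3.trans (by norm_num))]
    ring
  · filter_upwards [hbl σ C (η / 4) (by positivity) hyp.bd] with u hu
    rw [Complex.re_ofReal_mul, Complex.ofReal_re]
    exact hu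
  · have := hD0.const_mul (-((σ : ℂ) * ε))
    rwa [mul_zero] at this

/-- the one-sided bound for the Gaussian means, everywhere -/
theorem recG_M : ∃ q₀ : ℕ, ∀ (q : ℕ) [NeZero q], q₀ ≤ q →
    ∀ (χ : DirichletCharacter ℂ q) (a : ℕ → ℝ) (σ C : ℝ), 0 ≤ C → Hyp χ a σ C → ∀ u : ℝ, σ * bb 1 (FF a) u ≤ C + 2 := by
  obtain ⟨q₀, h⟩ := recG_pos
  refine ⟨q₀, fun q _ hq χ a σ C hC hyp u => ?_⟩
  rcases le_or_gt 0 u with hu | hu
  · linarith [h q hq χ a σ C hyp u hu]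
  · have h1 := Pool.Agent.DR.bb_le (F := FF a) (A := 1) (fun t => by rw [one_mul]; exact abs_FF_le hyp.dat t) u
    have hσ : |σ| = 1 := by
      rcases hyp.sg with h | h <;> simp [h]
    have h2 : σ * bb 1 (FF a) u ≤ |bb 1 (FF a) u| := by
      refine (le_abs_self _).trans ?_
      rw [abs_mul, hσ, one_mul]
    have h3 : Real.exp (u / 2) ≤ 1 := Real.exp_le_one_iff.2 (by linarith)
    linarith

end Pool.Agent.QT
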