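import Pool.Agent.Helper11.Q3.Stmts
import Mathlib.NumberTheory.LegendreSymbol.ZModChar

/-!
# Project TF, part A1 (MP_a499ba_nt): all primitive real characters. Definitions

The primitive real characters are `n ↦ ps j n * jacobiSym n q`, `j : Fin 4`, `q` odd and squarefree, of conductor `cd j * q`.
-/

set_option autoImplicit false

namespace Pool.Agent.Q3psi

/-- the conductor of the part at two -/
def cd (j : Fin 4) : ℕ := match j with
  | 0 => 1
  | 1 => 4
  | 2 => 8
  | 3 => 8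

/-- the part at two: `1`, `χ_{-4}`, `χ_8`, `χ_{-8}` -/
def ps (j : Fin 4) (n : ℕ) : ℤ := match j with
  | 0 => 1
  | 1 => ZMod.χ₄ n
  | 2 => ZMod.χ₈ n
  | 3 => ZMod.χ₈' n

/-- (J4psi) the character -/
def StmtJ4psi : Prop := ∀ (j : Fin 4) (q : ℕ), Odd q → Squarefree q → 1 < cd j * q →
  ∃ (_ : NeZero (cd j * q)) (χ : DirichletCharacter ℂ (cd j * q)),
    Pool.Agent.QT.Dat χ (fun n => (ArithmeticFunction.moebius n : ℝ) * ((ps j n * jacobiSym n q : ℤ) : ℝ)) ∧
      ∀ n : ℕ, χ n = ((ps j n * jacobiSym n q : ℤ) : ℂ)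

end Pool.Agent.Q3psi
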