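import Pool.Agent.Helper95.TF.KG
import Pool.Agent.Helper66.LW.K0
import Pool.Agent.Helper12.QT.LapF

/-!
# Project DR (MP_a499ba_nt), block BDG: a bound for the Gaussian means gives a bound for the smoothed sums,
up to a Dirichlet polynomial with tiny coefficients
-/

set_option autoImplicit false

namespace Pool.Agent.DR

open Finset MeasureTheory Filter Topology Pool.Agent.Helper5.RM Pool.Agent.Helper96.AF Pool.Agent.Helper66.LW Pool.Agent.IT
open Pool.Agent.QT (gk bb FF mS measurable_FF)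
open scoped ContDiff

/-- the weight seen by the sums: part from the range -/
noncomputable def kapG (K : Ker) (r i : ℕ) (t : ℝ) : ℝ :=
  Real.exp (sr r ^ 2 / 2) * ∫ v in (Vr r)..(2 * Vr r), gk 1 (v - sr r - t) * kf K r (Ur r + i) v

/-- the weight of `KG K` is a Gaussian mean of the weight of `K` -/
theorem kf_KG (K : Ker) (r i : ℕ) (t : ℝ) : Integrable (fun v : ℝ => gk 1 (v - sr r - t) * kf K r (Ur r + i) v) ∧
    kf (KG K) r (Ur r + i) t = Real.exp (sr r ^ 2 / 2) * ∫ v : ℝ, gk 1 (v - sr r - t) * kf K r (Ur r + i) v := by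
  have h1 : ∀ v : ℝ, gk 1 (v - sr r - t) * kf K r (Ur r + i) v =
      Real.exp (-(sr r ^ 2 / 2)) * Real.exp (-(sr r * (t - Ur r))) * (K.w (Ur r + i - t - (v - t)) * gk 1 (v - t)) := by
    intro v
    have h2 := gk1_shift (-sr r) (v - t)
    have h3 : v - t + -sr r = v - sr r - t := by ring
    rw [h3] at h2
    have h4 : gk 1 (v - sr r - t) = Real.exp (-(sr r ^ 2 / 2)) * (Real.exp (sr r * (v - t)) * gk 1 (v - t)) := by
      have h5 : Real.exp (-(-sr r * (v - t))) = Real.exp (sr r * (v - t)) := by congr 1; ring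
      rw [h5, neg_sq] at h2
      rw [h2, ← mul_assoc, ← Real.exp_add]
      simp
    rw [h4]
    unfold kf
    have h6 : Ur r + i - t - (v - t) = Ur r + i - v := by ring
    have h7 : Real.exp (sr r * (v - t)) * Real.exp (-(sr r * (v - Ur r))) = Real.exp (-(sr r * (t - Ur r))) := by
      rw [← Real.exp_add]; congr 1; ring
    rw [h6, ← h7]
    ring
  have hI : Integrable (fun v : ℝ => K.w (Ur r + i - t - (v - t)) * gk 1 (v - t)) :=
    (wg_int K (Ur r + i - t)).comp_sub_right t
  have hf : (fun v : ℝ => gk 1 (v - sr r - t) * kf K r (Ur r + i) v) = fun v : ℝ =>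
      Real.exp (-(sr r ^ 2 / 2)) * Real.exp (-(sr r * (t - Ur r))) * (K.w (Ur r + i - t - (v - t)) * gk 1 (v - t)) := funext h1
  refine ⟨by rw [hf]; exact hI.const_mul _, ?_⟩
  rw [hf, integral_const_mul, integral_sub_right_eq_self (fun y : ℝ => K.w (Ur r + i - t - y) * gk 1 y) t]
  have h8 : Real.exp (sr r ^ 2 / 2) * Real.exp (-(sr r ^ 2 / 2)) = 1 := by rw [← Real.exp_add]; simp
  unfold kf
  change _ * w1 K (Ur r + i - t) = _
  unfold w1
  rw [← mul_assoc, ← mul_assoc, h8, one_mul]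

/-- the integral of the weight over the range is bounded -/
theorem kf_mass (K : Ker) : ∃ C : ℝ, 0 < C ∧ ∃ r0 : ℕ, ∀ r : ℕ, r0 ≤ r → ∀ i : ℕ, (i : ℝ) ≤ 1 / sr r →
    ∫ v in (Vr r)..(2 * Vr r), kf K r (Ur r + i) v ≤ C := by
  obtain ⟨C, hC, r0, h⟩ := kf_le K
  refine ⟨C * Real.pi, by positivity, r0, fun r hr i hi => ?_⟩
  have hV := Vr_pos r
  have hle : Vr r ≤ 2 * Vr r := by linarith
  have hi0 : (0 : ℝ) ≤ i := Nat.cast_nonneg i
  have hint : Integrable (fun v : ℝ => C * (1 + (Ur r + i - v) ^ 2)⁻¹) := (integrable_inv_one_add_sq.comp_sub_left (Ur r + i)).const_mul C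
  have h1 : ∫ v in (Vr r)..(2 * Vr r), kf K r (Ur r + i) v ≤ ∫ v in (Vr r)..(2 * Vr r), C * (1 + (Ur r + i - v) ^ 2)⁻¹ := by
    refine intervalIntegral.integral_mono_on hle ((continuous_kf K r _).intervalIntegrable _ _) hint.intervalIntegrable fun v hv => ?_
    have := h r hr (Ur r + i) (by linarith) (by linarith) v hv.1 hv.2
    rwa [div_eq_mul_inv] at this
  refine h1.trans ?_
  rw [intervalIntegral.integral_of_le hle]
  refine (setIntegral_le_integral hint (Eventually.of_forall fun v => by positivity)).trans ?_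
  rw [integral_const_mul, integral_sub_left_eq_self (fun y : ℝ => (1 + y ^ 2)⁻¹) volume (Ur r + i), integral_univ_inv_one_add_sq]

theorem sr_le_one : ∃ r0 : ℕ, ∀ r : ℕ, r0 ≤ r → 0 < sr r ∧ sr r ≤ 1 := by
  obtain ⟨r1, h1⟩ := pow_le_Vr 1 (1 / 40) (by norm_num) 1 le_rfl
  refine ⟨max r1 2, fun r hr => ?_⟩
  have hr2 : 2 ≤ r := (le_max_right _ _).trans hr
  have h2 := h1 r ((le_max_left _ _).trans hr)
  refine ⟨sr_pos hr2, (sr_le r hr2).trans ?_⟩
  rw [div_le_one (Vr_pos r)]
  simp only [pow_one] at h2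
  linarith

theorem inv_sr_le40 {r : ℕ} (hr : 3 ≤ r) : 1 / sr r ≤ Vr r / 40 := by
  have h1 : 1 ≤ Real.log r := by
    rw [Real.le_log_iff_exp_le (by positivity)]
    have h2 := Real.exp_one_lt_d9
    have h3 : (3 : ℝ) ≤ r := by exact_mod_cast hr
    linarith
  have hV := Vr_pos r
  unfold sr
  rw [one_div_div, div_le_div_iff₀ (by positivity) (by norm_num)]
  nlinarith

theorem gk1_le_exp (x : ℝ) : gk 1 x ≤ Real.exp (1 / 2 - |x|) := by
  rw [gk1_eq]
  have h1 : 1 ≤ Real.sqrt (2 * Real.pi) := by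
    rw [Real.one_le_sqrt]
    linarith [Real.pi_gt_three]
  have h2 : (Real.sqrt (2 * Real.pi))⁻¹ ≤ 1 := inv_le_one_of_one_le₀ h1
  calc (Real.sqrt (2 * Real.pi))⁻¹ * Real.exp (-(1 / 2) * x ^ 2) ≤ 1 * Real.exp (1 / 2 - |x|) := by
        refine mul_le_mul h2 (Real.exp_le_exp.2 ?_) (Real.exp_pos _).le zero_le_one
        have : x ^ 2 = |x| ^ 2 := (sq_abs x).symm
        rw [this]
        nlinarith [sq_nonneg (|x| - 1)]
    _ = _ := one_mul _

theorem gk1_le_sq (x : ℝ) : gk 1 x ≤ Real.exp (-(x ^ 2 / 2)) := by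
  rw [gk1_eq]
  have h1 : 1 ≤ Real.sqrt (2 * Real.pi) := by
    rw [Real.one_le_sqrt]
    linarith [Real.pi_gt_three]
  have h2 : (Real.sqrt (2 * Real.pi))⁻¹ ≤ 1 := inv_le_one_of_one_le₀ h1
  calc (Real.sqrt (2 * Real.pi))⁻¹ * Real.exp (-(1 / 2) * x ^ 2) ≤ 1 * Real.exp (-(x ^ 2 / 2)) := by
        refine mul_le_mul h2 (Real.exp_le_exp.2 ?_) (Real.exp_pos _).le zero_le_one
        linarith
    _ = _ := one_mul _

theorem kapG_cont (K : Ker) (r i : ℕ) : Continuous (kapG K r i) := by
  have h1 := gk1_cont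
  have h2 := continuous_kf K r (Ur r + i)
  unfold kapG
  refine continuous_const.mul ?_
  refine intervalIntegral.continuous_parametric_intervalIntegral_of_continuous' ?_ _ _
  fun_prop

theorem kapG_nn (K : Ker) (r i : ℕ) (t : ℝ) : 0 ≤ kapG K r i t := by
  have hV := Vr_pos r
  refine mul_nonneg (Real.exp_pos _).le (intervalIntegral.integral_nonneg (by linarith) fun v _ => ?_)
  exact mul_nonneg (gk1_pos _).le (kf_nonneg K r _ _)

/-- Fubini: the sums against `kapG` are sums of Gaussian means -/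
theorem kapG_fub (K : Ker) (r i : ℕ) {F : ℝ → ℝ} (hm : Measurable F) (hF : ∀ t, |F t| ≤ Real.exp (t / 2)) :
    Integrable (fun t => F t * kapG K r i t) ∧
    ∫ t : ℝ, F t * kapG K r i t =
      Real.exp (sr r ^ 2 / 2) * ∫ v in (Vr r)..(2 * Vr r), kf K r (Ur r + i) v * bb 1 F (v - sr r) := by
  have hV := Vr_pos r
  have hle : Vr r ≤ 2 * Vr r := by linarith
  have hg := gk1_cont
  have hk := continuous_kf K r (Ur r + i)
  -- the double integral
  have hI : Integrable (Function.uncurry fun t v : ℝ => F t * (gk 1 (v - sr r - t) * kf K r (Ur r + i) v))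
      (volume.prod (volume.restrict (Set.Ioc (Vr r) (2 * Vr r)))) := by
    have h1 : Integrable (fun t : ℝ => Real.exp (-(1 / 2 * |t|))) := by
      have h2 := (gk1_int.1.const_mul 0)
      have h3 : Integrable (fun v : ℝ => 2 * (1 + (1 / 2 * v) ^ 2)⁻¹) := (integrable_inv_one_add_sq.comp_mul_left' (by norm_num : (1 / 2 : ℝ) ≠ 0)).const_mul 2
      refine h3.mono' (by fun_prop : Continuous fun t : ℝ => Real.exp (-(1 / 2 * |t|))).aestronglyMeasurable (Eventually.of_forall fun v => ?_)
      have h0 : 0 ≤ 1 / 2 * |v| := by positivity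
      have h4 := Real.quadratic_le_exp_of_nonneg h0
      have h5 : (1 / 2 * |v|) ^ 2 = (1 / 2 * v) ^ 2 := by rw [mul_pow, sq_abs, mul_pow]
      rw [Real.norm_of_nonneg (Real.exp_pos _).le, Real.exp_neg]
      have h6 : (1 + (1 / 2 * v) ^ 2) / 2 ≤ Real.exp (1 / 2 * |v|) := by
        rw [← h5]
        linarith
      calc (Real.exp (1 / 2 * |v|))⁻¹ ≤ ((1 + (1 / 2 * v) ^ 2) / 2)⁻¹ := inv_anti₀ (by positivity) h6
        _ = 2 * (1 + (1 / 2 * v) ^ 2)⁻¹ := by rw [inv_div]; field_simp
    have h2 : Integrable (fun v : ℝ => Real.exp (1 / 2 + |v - sr r|) * kf K r (Ur r + i) v) (volume.restrict (Set.Ioc (Vr r) (2 * Vr r))) := by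
      have : IntegrableOn (fun v : ℝ => Real.exp (1 / 2 + |v - sr r|) * kf K r (Ur r + i) v) (Set.Icc (Vr r) (2 * Vr r)) :=
        Continuous.integrableOn_Icc (by fun_prop)
      exact this.mono_set Set.Ioc_subset_Icc_self
    refine (h1.mul_prod h2).mono' ?_ (Eventually.of_forall fun p => ?_)
    · refine Measurable.aestronglyMeasurable ?_
      simp only [Function.uncurry_def]
      exact (hm.comp measurable_fst).mul (by fun_prop : Continuous fun p : ℝ × ℝ => gk 1 (p.2 - sr r - p.1) * kf K r (Ur r + i) p.2).measurable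
    · simp only [Function.uncurry_def]
      rw [norm_mul, norm_mul, Real.norm_eq_abs, Real.norm_of_nonneg (gk1_pos _).le, Real.norm_of_nonneg (kf_nonneg K r _ _), ← mul_assoc,
        ← mul_assoc]
      refine mul_le_mul_of_nonneg_right ?_ (kf_nonneg K r _ _)
      calc |F p.1| * gk 1 (p.2 - sr r - p.1) ≤ Real.exp (p.1 / 2) * Real.exp (1 / 2 - |p.2 - sr r - p.1|) :=
            mul_le_mul (hF _) (gk1_le_exp _) (gk1_pos _).le (Real.exp_pos _).le
        _ = Real.exp (p.1 / 2 + (1 / 2 - |p.2 - sr r - p.1|)) := (Real.exp_add _ _).symm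
        _ ≤ Real.exp (-(1 / 2 * |p.1|) + (1 / 2 + |p.2 - sr r|)) := by
            apply Real.exp_le_exp.2
            have h3 : |p.1| ≤ |p.2 - sr r| + |p.2 - sr r - p.1| := by
              have := abs_sub (p.2 - sr r) (p.2 - sr r - p.1)
              rwa [sub_sub_cancel] at this
            have h4 := le_abs_self p.1
            linarith
        _ = _ := Real.exp_add _ _
  have e1 : ∀ t : ℝ, F t * kapG K r i t = Real.exp (sr r ^ 2 / 2) *
      ∫ v in Set.Ioc (Vr r) (2 * Vr r), F t * (gk 1 (v - sr r - t) * kf K r (Ur r + i) v) := by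
    intro t
    unfold kapG
    rw [intervalIntegral.integral_of_le hle, integral_const_mul]
    ring
  constructor
  · have h3 := hI.integral_prod_left.const_mul (Real.exp (sr r ^ 2 / 2))
    refine h3.congr (Eventually.of_forall fun t => ?_)
    simp only [Function.uncurry_apply_pair]
    rw [e1]
  · rw [integral_congr_ae (Eventually.of_forall e1), integral_const_mul, integral_integral_swap hI,
      intervalIntegral.integral_of_le hle]
    congr 1
    refine integral_congr_ae (Eventually.of_forall fun v => ?_)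
    simp only
    unfold bb
    rw [← integral_const_mul]
    refine integral_congr_ae (Eventually.of_forall fun t => ?_)
    simp only
    ring

end Pool.Agent.DR
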