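import Pool.Agent.Helper95.TF.BDG

/-!
# Project DR (MP_a499ba_nt), block BDG, second part: the difference of the weights, the main inequality
-/

set_option autoImplicit false

namespace Pool.Agent.DR

open Finset MeasureTheory Filter Topology Pool.Agent.Helper5.RM Pool.Agent.Helper96.AF Pool.Agent.Helper66.LW Pool.Agent.IT
open Pool.Agent.QT (gk bb FF mS measurable_FF)
open scoped ContDiff

/-- the difference of the two weights -/
noncomputable def Dt (K : Ker) (r i : ℕ) (t : ℝ) : ℝ :=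
  (Set.Icc (Vr r) (2 * Vr r)).indicator (kf (KG K) r (Ur r + i)) t - kapG K r i t

theorem exp_neg_le_pow {x : ℝ} (hx : 0 < x) (k : ℕ) : Real.exp (-x) ≤ k.factorial / x ^ k := by
  have h5 := Real.pow_div_factorial_le_exp x hx.le k
  rw [Real.exp_neg, inv_le_comm₀ (Real.exp_pos _) (by positivity), inv_div]
  exact h5

/-- the difference is small everywhere -/
theorem Dt_le (K : Ker) : ∃ r0 : ℕ, ∀ r : ℕ, r0 ≤ r → ∀ i : ℕ, (i : ℝ) ≤ 1 / sr r → ∀ t : ℝ, |Dt K r i t| ≤ 4 / Vr r ^ 8 := by
  obtain ⟨C, hC, hw⟩ := K.w_dec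
  obtain ⟨r1, h1⟩ := sr_le_one
  obtain ⟨r2, h2⟩ := kf_far K
  obtain ⟨Cm, hCm, r3, h3⟩ := kf_mass K
  obtain ⟨r4, h4⟩ := pow_le_Vr 40 (1 / (16 ^ 12 * C)) (by positivity) 4 (by norm_num)
  obtain ⟨r5, h5⟩ := pow_le_Vr 1 (1 / (Cm * (3 * ((10).factorial * 8 ^ 10)))) (by positivity) 1 le_rfl
  refine ⟨r1 + r2 + r3 + r4 + r5 + 10, fun r hr i hi t => ?_⟩
  have hr3 : 3 ≤ r := by omega
  have hV := Vr_pos r
  obtain ⟨hs0, hs1⟩ := h1 r (by omega)
  have hi0 : (0 : ℝ) ≤ i := Nat.cast_nonneg i
  have h40 := inv_sr_le40 hr3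
  have hV8 : 8 ≤ Vr r := by
    have h6 := le_Vr r
    have h7 : (2 : ℝ) ^ 10 ≤ 2 ^ r := pow_le_pow_right₀ (by norm_num) (by omega)
    norm_num at h7
    linarith
  have hle : Vr r ≤ 2 * Vr r := by linarith
  have hes : Real.exp (sr r ^ 2 / 2) ≤ 2 := by
    have h6 : Real.exp (sr r ^ 2 / 2) ≤ Real.exp (1 / 2) := Real.exp_le_exp.2 (by nlinarith)
    have h7 : Real.exp (1 / 2) ^ 2 = Real.exp 1 := by rw [← Real.exp_nat_mul]; norm_num
    have h8 := Real.exp_one_lt_d9
    nlinarith [Real.exp_pos (1 / 2 : ℝ)]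
  have hu1 : Ur r ≤ Ur r + i := by linarith
  have hu2 : Ur r + i ≤ Ur r + 1 / sr r := by linarith
  have hU : Ur r = 3 / 2 * Vr r := rfl
  unfold Dt
  by_cases ht : t ∈ Set.Icc (Vr r) (2 * Vr r)
  · -- inside
    rw [Set.indicator_of_mem ht]
    obtain ⟨hI, he⟩ := kf_KG K r i t
    rw [he]
    unfold kapG
    rw [← mul_sub, intervalIntegral.integral_of_le hle, ← integral_add_compl (measurableSet_Ioc) hI, add_sub_cancel_left]
    have hnn : ∀ v : ℝ, 0 ≤ gk 1 (v - sr r - t) * kf K r (Ur r + i) v := fun v =>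
      mul_nonneg (gk1_pos _).le (kf_nonneg K r _ _)
    rw [abs_mul, abs_of_pos (Real.exp_pos _), abs_of_nonneg (integral_nonneg hnn)]
    -- the Gaussian against the exponential
    have hJ : Integrable (fun v : ℝ => (C * (8 / Vr r) ^ 12) * (Real.exp (-(sr r * (t + sr r - Ur r))) *
        (Real.exp (-(sr r * (v - (sr r + t)))) * gk 1 (v - (sr r + t))))) :=
      (((gk1_exp (sr r)).1.comp_sub_right (sr r + t)).const_mul _).const_mul _
    have h6 : ∫ v in (Set.Ioc (Vr r) (2 * Vr r))ᶜ, gk 1 (v - sr r - t) * kf K r (Ur r + i) v ≤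
        ∫ v in (Set.Ioc (Vr r) (2 * Vr r))ᶜ, (C * (8 / Vr r) ^ 12) * (Real.exp (-(sr r * (t + sr r - Ur r))) *
        (Real.exp (-(sr r * (v - (sr r + t)))) * gk 1 (v - (sr r + t)))) := by
      refine setIntegral_mono_on hI.integrableOn hJ.integrableOn measurableSet_Ioc.compl fun v hv => ?_
      have hd : Vr r / 8 ≤ |Ur r + i - v| := by
        rw [Set.mem_compl_iff, Set.mem_Ioc, not_and_or, not_lt, not_le] at hv
        rcases hv with hv | hv
        · refine le_trans ?_ (le_abs_self _)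
          linarith
        · rw [abs_sub_comm]
          refine le_trans ?_ (le_abs_self _)
          linarith
      have h7 : K.w (Ur r + i - v) ≤ C * (8 / Vr r) ^ 12 := by
        refine (hw _).trans ?_
        rw [div_eq_mul_inv]
        refine mul_le_mul_of_nonneg_left ?_ hC.le
        rw [div_pow, inv_le_comm₀ (by positivity) (by positivity), inv_div, ← div_pow]
        exact pow_le_pow_left₀ (by positivity) (by linarith) 12
      have h8 : gk 1 (v - sr r - t) * kf K r (Ur r + i) v = K.w (Ur r + i - v) * (Real.exp (-(sr r * (t + sr r - Ur r))) *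
        (Real.exp (-(sr r * (v - (sr r + t)))) * gk 1 (v - (sr r + t)))) := by
        unfold kf
        have h9 : Real.exp (-(sr r * (v - Ur r))) = Real.exp (-(sr r * (t + sr r - Ur r))) *
            Real.exp (-(sr r * (v - (sr r + t)))) := by
          rw [← Real.exp_add]; congr 1; ring
        rw [h9, show v - sr r - t = v - (sr r + t) by ring]
        ring
      rw [h8]
      exact mul_le_mul_of_nonneg_right h7 (mul_nonneg (Real.exp_pos _).le (mul_nonneg (Real.exp_pos _).le (gk1_pos _).le))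
    have h7 := h6.trans (setIntegral_le_integral hJ (Eventually.of_forall fun v => by
      have := gk1_pos (v - (sr r + t))
      positivity))
    rw [integral_const_mul, integral_const_mul,
      integral_sub_right_eq_self (fun y : ℝ => Real.exp (-(sr r * y)) * gk 1 y) (sr r + t), (gk1_exp (sr r)).2] at h7
    have h8 : Real.exp (-(sr r * (t + sr r - Ur r))) ≤ (r : ℝ) ^ 40 := by
      rw [← exp_sr_Vr (by omega : 1 ≤ r)]
      apply Real.exp_le_exp.2
      have h9 : -(t + sr r - Ur r) ≤ Vr r := by linarith [ht.1]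
      nlinarith
    have h9 := h4 r (by omega)
    have h10 : C * (8 / Vr r) ^ 12 * (Real.exp (-(sr r * (t + sr r - Ur r))) * Real.exp (sr r ^ 2 / 2)) ≤
        C * (8 / Vr r) ^ 12 * ((1 / (16 ^ 12 * C) * Vr r ^ 4) * 2) := by
      have := h8.trans h9
      gcongr
    have h11 : C * (8 / Vr r) ^ 12 * ((1 / (16 ^ 12 * C) * Vr r ^ 4) * 2) = 2 * (1 / 2) ^ 12 / Vr r ^ 8 := by
      have : (16 : ℝ) ^ 12 = 8 ^ 12 * 2 ^ 12 := by norm_num
      rw [this]
      field_simp
    have h12 : ∫ v in (Set.Ioc (Vr r) (2 * Vr r))ᶜ, gk 1 (v - sr r - t) * kf K r (Ur r + i) v ≤ 1 / Vr r ^ 8 := by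
      refine h7.trans (h10.trans (h11.le.trans ?_))
      gcongr
      norm_num
    calc Real.exp (sr r ^ 2 / 2) * ∫ v in (Set.Ioc (Vr r) (2 * Vr r))ᶜ, gk 1 (v - sr r - t) * kf K r (Ur r + i) v
        ≤ 2 * (1 / Vr r ^ 8) := mul_le_mul hes h12 (integral_nonneg hnn) (by norm_num)
      _ = 2 / Vr r ^ 8 := by ring
      _ ≤ 4 / Vr r ^ 8 := by gcongr; norm_num
  · -- outside
    rw [Set.indicator_of_notMem ht, zero_sub, abs_neg, abs_of_nonneg (kapG_nn K r i t)]
    unfold kapG
    have hk := continuous_kf K r (Ur r + i)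
    have hg := gk1_cont
    have h6 : ∀ v ∈ Set.Icc (Vr r) (2 * Vr r), gk 1 (v - sr r - t) * kf K r (Ur r + i) v ≤
        1 / Vr r ^ 8 * gk 1 (v - (sr r + t)) + 3 * ((10).factorial * 8 ^ 10) / Vr r ^ 10 * kf K r (Ur r + i) v := by
      intro v hv
      have hg0 := (gk1_pos (v - sr r - t)).le
      have hk0 := kf_nonneg K r (Ur r + i) v
      by_cases hf : Vr r / 16 ≤ |Ur r + i - v|
      · have h7 := h2 r (by omega) (Ur r + i) hu1 hu2 v hv.1 hv.2 hf
        have h8 : gk 1 (v - sr r - t) * kf K r (Ur r + i) v ≤ gk 1 (v - sr r - t) * (1 / Vr r ^ 8) :=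
          mul_le_mul_of_nonneg_left h7 hg0
        rw [show v - sr r - t = v - (sr r + t) by ring] at h8 ⊢
        have h9 : 0 ≤ 3 * ((10).factorial * 8 ^ 10) / Vr r ^ 10 * kf K r (Ur r + i) v := by positivity
        linarith
      · push Not at hf
        rw [abs_lt] at hf
        have hd : Vr r / 8 ≤ |v - sr r - t| := by
          rw [Set.mem_Icc, not_and_or, not_le, not_le] at ht
          rcases ht with ht | ht
          · refine le_trans ?_ (le_abs_self _)
            linarith
          · rw [abs_sub_comm]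
            refine le_trans ?_ (le_abs_self _)
            linarith
        have h7 : gk 1 (v - sr r - t) ≤ 3 * ((10).factorial * 8 ^ 10) / Vr r ^ 10 := by
          refine (gk1_le_exp _).trans ?_
          have h8 : Real.exp (1 / 2 - |v - sr r - t|) ≤ Real.exp 1 * Real.exp (-(Vr r / 8)) := by
            rw [← Real.exp_add]
            apply Real.exp_le_exp.2
            linarith
          have h9 := exp_neg_le_pow (x := Vr r / 8) (by positivity) 10
          have h10 := Real.exp_one_lt_d9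
          calc Real.exp (1 / 2 - |v - sr r - t|) ≤ Real.exp 1 * Real.exp (-(Vr r / 8)) := h8
            _ ≤ 3 * ((10).factorial / (Vr r / 8) ^ 10) := by
                refine mul_le_mul (by linarith) h9 (Real.exp_pos _).le (by norm_num)
            _ = _ := by rw [div_pow]; field_simp
        have h8 : gk 1 (v - sr r - t) * kf K r (Ur r + i) v ≤ 3 * ((10).factorial * 8 ^ 10) / Vr r ^ 10 * kf K r (Ur r + i) v :=
          mul_le_mul_of_nonneg_right h7 hk0
        have h9 : 0 ≤ 1 / Vr r ^ 8 * gk 1 (v - (sr r + t)) := mul_nonneg (by positivity) (gk1_pos _).le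
        linarith
    have hgi : Integrable (fun v : ℝ => gk 1 (v - (sr r + t))) := gk1_int.1.comp_sub_right (sr r + t)
    have h7 : ∫ v in (Vr r)..(2 * Vr r), gk 1 (v - sr r - t) * kf K r (Ur r + i) v ≤
        ∫ v in (Vr r)..(2 * Vr r), (1 / Vr r ^ 8 * gk 1 (v - (sr r + t)) +
          3 * ((10).factorial * 8 ^ 10) / Vr r ^ 10 * kf K r (Ur r + i) v) := by
      refine intervalIntegral.integral_mono_on hle ?_ ?_ h6
      · exact Continuous.intervalIntegrable (by fun_prop) _ _
      · exact Continuous.intervalIntegrable (by fun_prop) _ _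
    have hki : IntervalIntegrable (fun v : ℝ => kf K r (Ur r + i) v) volume (Vr r) (2 * Vr r) := hk.intervalIntegrable _ _
    have hgi' : IntervalIntegrable (fun v : ℝ => gk 1 (v - (sr r + t))) volume (Vr r) (2 * Vr r) := hgi.intervalIntegrable
    rw [intervalIntegral.integral_add (hgi'.const_mul _) (hki.const_mul _),
      intervalIntegral.integral_const_mul, intervalIntegral.integral_const_mul] at h7
    have h8 : ∫ v in (Vr r)..(2 * Vr r), gk 1 (v - (sr r + t)) ≤ 1 := by
      rw [intervalIntegral.integral_of_le hle]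
      refine (setIntegral_le_integral hgi (Eventually.of_forall fun v => (gk1_pos _).le)).trans ?_
      rw [integral_sub_right_eq_self (gk 1) (sr r + t), gk1_int.2]
    have h9 := h3 r (by omega) i hi
    have h10 : 3 * ((10).factorial * 8 ^ 10) / Vr r ^ 10 * ∫ v in (Vr r)..(2 * Vr r), kf K r (Ur r + i) v ≤ 1 / Vr r ^ 8 := by
      have h11 := h5 r (by omega)
      simp only [pow_one] at h11
      have hr1 : (1 : ℝ) ≤ r := by exact_mod_cast (show 1 ≤ r by omega)
      have h12 : Cm * (3 * ((10).factorial * 8 ^ 10)) ≤ Vr r := by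
        have h13 : (1 : ℝ) ≤ 1 / (Cm * (3 * ((10).factorial * 8 ^ 10))) * Vr r := hr1.trans h11
        rw [one_div, ← div_eq_inv_mul, le_div_iff₀ (by positivity), one_mul] at h13
        exact h13
      calc 3 * ((10).factorial * 8 ^ 10) / Vr r ^ 10 * ∫ v in (Vr r)..(2 * Vr r), kf K r (Ur r + i) v
          ≤ 3 * ((10).factorial * 8 ^ 10) / Vr r ^ 10 * Cm := mul_le_mul_of_nonneg_left h9 (by positivity)
        _ = Cm * (3 * ((10).factorial * 8 ^ 10)) / Vr r ^ 10 := by ring
        _ ≤ Vr r / Vr r ^ 10 := by gcongr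
        _ = 1 / Vr r ^ 9 := by field_simp
        _ ≤ 1 / Vr r ^ 8 := by
            refine one_div_le_one_div_of_le (by positivity) ?_
            exact pow_le_pow_right₀ (by linarith) (by norm_num)
    have h11 : ∫ v in (Vr r)..(2 * Vr r), gk 1 (v - sr r - t) * kf K r (Ur r + i) v ≤ 2 / Vr r ^ 8 := by
      have h12 : 1 / Vr r ^ 8 * ∫ v in (Vr r)..(2 * Vr r), gk 1 (v - (sr r + t)) ≤ 1 / Vr r ^ 8 * 1 :=
        mul_le_mul_of_nonneg_left h8 (by positivity)
      have h13 : 2 / Vr r ^ 8 = 1 / Vr r ^ 8 * 1 + 1 / Vr r ^ 8 := by ring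
      rw [h13]
      linarith
    have h12 : 0 ≤ ∫ v in (Vr r)..(2 * Vr r), gk 1 (v - sr r - t) * kf K r (Ur r + i) v :=
      intervalIntegral.integral_nonneg hle fun v _ => mul_nonneg (gk1_pos _).le (kf_nonneg K r _ _)
    calc Real.exp (sr r ^ 2 / 2) * ∫ v in (Vr r)..(2 * Vr r), gk 1 (v - sr r - t) * kf K r (Ur r + i) v
        ≤ 2 * (2 / Vr r ^ 8) := mul_le_mul hes h11 h12 (by norm_num)
      _ = _ := by ring

end Pool.Agent.DR
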