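import Pool.Agent.Helper95.TF.BDG2
import Pool.Agent.Helper52.DR.BD

/-!
# Project DR (MP_a499ba_nt), block BDG, third part: the main inequality
-/

set_option autoImplicit false

namespace Pool.Agent.DR

open Finset MeasureTheory Filter Topology Pool.Agent.Helper5.RM Pool.Agent.Helper96.AF Pool.Agent.Helper66.LW Pool.Agent.IT
open Pool.Agent.QT (gk bb FF mS measurable_FF)
open scoped ContDiff

theorem FF_eq_Av (a : ℕ → ℝ) (t : ℝ) : FF a t = Av a t := by
  unfold FF
  split_ifs with h
  · rfl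
  · rw [Av_neg a (not_le.1 h)]

/-- the sums against a bounded weight, up to `T` -/
theorem FF_int_sum {a : ℕ → ℝ} {D : ℝ → ℝ} (hD : Measurable D) {B : ℝ} (hB : ∀ t, |D t| ≤ B) {N : ℕ} (hN : 1 ≤ N) :
    ∫ t in Set.Iic (Real.log N), FF a t * D t =
      ∑ n ∈ Finset.Icc 1 N, (∫ t in Set.Icc (Real.log n) (Real.log N), Real.exp (-(t / 2)) * D t) * a n := by
  have hN1 : (1 : ℝ) ≤ N := by exact_mod_cast hN
  have hN0 : (0 : ℝ) < N := by linarith
  have h1 : ∀ t ∈ Set.Iic (Real.log N), FF a t * D t =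
      ∑ n ∈ Finset.Icc 1 N, (Set.Icc (Real.log n) (Real.log N)).indicator (fun t => Real.exp (-(t / 2)) * D t) t * a n := by
    intro t ht
    rw [Set.mem_Iic] at ht
    by_cases h0 : 0 ≤ t
    · unfold FF
      rw [if_pos h0]
      unfold mS
      have h2 : Finset.Icc 1 ⌊Real.exp t⌋₊ = (Finset.Icc 1 N).filter (fun n : ℕ => Real.log n ≤ t) := by
        ext n
        rw [Finset.mem_filter, Finset.mem_Icc, Finset.mem_Icc, Nat.le_floor_iff (Real.exp_pos t).le]
        constructor
        · rintro ⟨h3, h4⟩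
          have hn0 : (0 : ℝ) < n := by exact_mod_cast h3
          have h5 : Real.log n ≤ t := (Real.log_le_iff_le_exp hn0).2 h4
          refine ⟨⟨h3, ?_⟩, h5⟩
          have h6 : Real.log n ≤ Real.log N := h5.trans ht
          exact_mod_cast (Real.log_le_log_iff hn0 hN0).1 h6
        · rintro ⟨⟨h3, h4⟩, h5⟩
          have hn0 : (0 : ℝ) < n := by exact_mod_cast h3
          exact ⟨h3, (Real.log_le_iff_le_exp hn0).1 h5⟩
      rw [h2, Finset.sum_filter, Finset.mul_sum, Finset.sum_mul]
      refine Finset.sum_congr rfl fun n _ => ?_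
      by_cases h3 : Real.log n ≤ t
      · rw [if_pos h3, Set.indicator_of_mem (Set.mem_Icc.2 ⟨h3, ht⟩)]
        ring
      · rw [if_neg h3, Set.indicator_of_notMem (fun h4 => h3 (Set.mem_Icc.1 h4).1)]
        ring
    · unfold FF
      rw [if_neg h0, zero_mul]
      symm
      refine Finset.sum_eq_zero fun n hn => ?_
      rw [Set.indicator_of_notMem, zero_mul]
      intro h4
      have h5 : 0 ≤ Real.log n := Real.log_nonneg (by exact_mod_cast (Finset.mem_Icc.1 hn).1)
      exact h0 (h5.trans (Set.mem_Icc.1 h4).1)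
  have hI : ∀ n : ℕ, IntegrableOn (fun t => Real.exp (-(t / 2)) * D t) (Set.Icc (Real.log n) (Real.log N)) := by
    intro n
    have h2 : IntegrableOn (fun t : ℝ => Real.exp (-(t / 2))) (Set.Icc (Real.log n) (Real.log N)) :=
      Continuous.integrableOn_Icc (by fun_prop)
    exact h2.mul_bdd (c := B) hD.aestronglyMeasurable (Eventually.of_forall fun t => by rw [Real.norm_eq_abs]; exact hB t)
  rw [setIntegral_congr_fun measurableSet_Iic h1, integral_finset_sum]
  · refine Finset.sum_congr rfl fun n _ => ?_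
    rw [integral_mul_const]
    congr 1
    rw [setIntegral_indicator measurableSet_Icc]
    congr 2
    ext t
    rw [Set.mem_inter_iff, Set.mem_Iic, Set.mem_Icc]
    constructor
    · rintro ⟨_, h⟩
      exact h
    · rintro ⟨h2, h3⟩
      exact ⟨h3, h2, h3⟩
  · intro n _
    exact (((integrable_indicator_iff measurableSet_Icc).2 (hI n)).mul_const _).integrableOn

theorem exp_half_le (x : ℝ) (T : ℝ) : ∫ t in Set.Icc x T, Real.exp (-(t / 2)) ≤ 2 * Real.exp (-(x / 2)) := by
  have h1 : IntegrableOn (fun t : ℝ => Real.exp (-(1 / 2) * t)) (Set.Ioi x) := integrableOn_exp_mul_Ioi (by norm_num) x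
  have h2 := integral_exp_mul_Ioi (show (-(1 / 2) : ℝ) < 0 by norm_num) x
  have h3 : ∫ t in Set.Icc x T, Real.exp (-(t / 2)) ≤ ∫ t in Set.Ioi x, Real.exp (-(1 / 2) * t) := by
    rw [integral_Icc_eq_integral_Ioc]
    have h4 : (fun t : ℝ => Real.exp (-(t / 2))) = fun t : ℝ => Real.exp (-(1 / 2) * t) := by
      funext t; congr 1; ring
    rw [h4]
    exact setIntegral_mono_set h1 (Eventually.of_forall fun t => (Real.exp_pos _).le) Set.Ioc_subset_Ioi_self.eventuallyLE
  rw [h2] at h3
  refine h3.trans (le_of_eq ?_)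
  rw [show -(1 / 2) * x = -(x / 2) by ring]
  ring

/-- **Block BDG.** -/
theorem bDG (K : Ker) : ∃ C : ℝ, 0 < C ∧ ∃ r0 : ℕ, ∀ r : ℕ, r0 ≤ r → ∀ i : ℕ, (i : ℝ) ≤ 1 / sr r → ∃ γ : ℕ → ℝ,
    (∀ n : ℕ, 1 ≤ n → |γ n| ≤ 1 / (Vr r ^ 7 * Real.sqrt n)) ∧
    ∀ (a : ℕ → ℝ) (σ lam : ℝ), (∀ n, |a n| ≤ 1) → (σ = 1 ∨ σ = -1) → 0 ≤ lam → (∀ u : ℝ, σ * bb 1 (FF a) u ≤ lam) →
      σ * (SS (KG K) r (fun n => (a n : ℂ)) i).re ≤ C * lam + 1 + |∑ n ∈ Finset.Icc 1 (Y (2 * r + 2)), γ n * a n| := by
  obtain ⟨Cm, hCm, r1, h1⟩ := kf_mass K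
  obtain ⟨r2, h2⟩ := Dt_le K
  obtain ⟨r3, h3⟩ := sr_le_one
  obtain ⟨r4, h4⟩ := pow_le_Vr 1 (1 / (2 * Cm + 1)) (by positivity) 1 le_rfl
  refine ⟨2 * Cm, by positivity, r1 + r2 + r3 + r4 + 10, fun r hr i hi => ?_⟩
  have hV := Vr_pos r
  obtain ⟨hs0, hs1⟩ := h3 r (by omega)
  have hle : Vr r ≤ 2 * Vr r := by linarith
  have hD := h2 r (by omega) i hi
  have hN1 : 1 ≤ Y (2 * r + 2) := Nat.one_le_two_pow
  have hlogN : Real.log (Y (2 * r + 2) : ℝ) = Vr (2 * r + 2) := by
    rw [← exp_Vr, Real.log_exp]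
  have hV8 : 8 ≤ Vr r := by
    have h6 := le_Vr r
    have h7 : (2 : ℝ) ^ 10 ≤ 2 ^ r := pow_le_pow_right₀ (by norm_num) (by omega)
    norm_num at h7
    linarith
  have hT0 : 16 * Vr r ≤ Vr (2 * r + 2) := by
    unfold Vr
    have h7 : (2 : ℝ) ^ (2 * r + 2) = 4 * 2 ^ r * 2 ^ r := by
      rw [show 2 * r + 2 = r + r + 2 by ring, pow_add, pow_add]
      ring
    have h8 : (2 : ℝ) ^ 10 ≤ 2 ^ r := pow_le_pow_right₀ (by norm_num) (by omega)
    norm_num at h8
    have h9 : 0 < Real.log 2 := Real.log_pos (by norm_num)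
    rw [h7]
    have h10 : (0:ℝ) < 2 ^ r := by positivity
    have h11 : 16 * (2 ^ r * Real.log 2) = 16 * 2 ^ r * Real.log 2 := by ring
    rw [h11]
    apply mul_le_mul_of_nonneg_right _ h9.le
    nlinarith
  have hes : Real.exp (sr r ^ 2 / 2) ≤ 2 := by
    have h6 : Real.exp (sr r ^ 2 / 2) ≤ Real.exp (1 / 2) := Real.exp_le_exp.2 (by nlinarith)
    have h7 : Real.exp (1 / 2) ^ 2 = Real.exp 1 := by rw [← Real.exp_nat_mul]; norm_num
    have h8 := Real.exp_one_lt_d9
    nlinarith [Real.exp_pos (1 / 2 : ℝ)]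
  have hDm : Measurable (Dt K r i) := by
    unfold Dt
    exact ((continuous_kf (KG K) r (Ur r + i)).measurable.indicator measurableSet_Icc).sub (kapG_cont K r i).measurable
  refine ⟨fun n => ∫ t in Set.Icc (Real.log n) (Real.log (Y (2 * r + 2) : ℕ)), Real.exp (-(t / 2)) * Dt K r i t, fun n hn => ?_, ?_⟩
  · -- size of the coefficients
    have hn0 : (0 : ℝ) < n := by exact_mod_cast hn
    have h5 : |∫ t in Set.Icc (Real.log n) (Real.log (Y (2 * r + 2) : ℕ)), Real.exp (-(t / 2)) * Dt K r i t| ≤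
        ∫ t in Set.Icc (Real.log n) (Real.log (Y (2 * r + 2) : ℕ)), Real.exp (-(t / 2)) * (4 / Vr r ^ 8) := by
      rw [← Real.norm_eq_abs]
      refine norm_integral_le_of_norm_le ?_ (Eventually.of_forall fun t => ?_)
      · exact (Continuous.integrableOn_Icc (by fun_prop) : IntegrableOn (fun t : ℝ => Real.exp (-(t / 2)) * (4 / Vr r ^ 8)) _)
      · rw [norm_mul, Real.norm_of_nonneg (Real.exp_pos _).le, Real.norm_eq_abs]
        exact mul_le_mul_of_nonneg_left (hD t) (Real.exp_pos _).le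
    rw [integral_mul_const] at h5
    refine h5.trans ?_
    have h6 := exp_half_le (Real.log n) (Real.log (Y (2 * r + 2) : ℕ))
    have h7 : Real.exp (-(Real.log n / 2)) = (Real.sqrt n)⁻¹ := by
      rw [Real.exp_neg, Real.exp_half, Real.exp_log hn0]
    rw [h7] at h6
    have hsn : 0 < Real.sqrt n := Real.sqrt_pos.2 hn0
    calc (∫ t in Set.Icc (Real.log n) (Real.log (Y (2 * r + 2) : ℕ)), Real.exp (-(t / 2))) * (4 / Vr r ^ 8)
        ≤ 2 * (Real.sqrt n)⁻¹ * (4 / Vr r ^ 8) := mul_le_mul_of_nonneg_right h6 (by positivity)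
      _ = 8 / Vr r * (1 / (Vr r ^ 7 * Real.sqrt n)) := by
          field_simp
          ring
      _ ≤ 1 * (1 / (Vr r ^ 7 * Real.sqrt n)) := by
          refine mul_le_mul_of_nonneg_right ?_ (by positivity)
          rw [div_le_one hV]
          exact hV8
      _ = _ := one_mul _
  · intro a σ lam ha hσ hlam hu
    have hσ1 : |σ| = 1 := by rcases hσ with h | h <;> rw [h] <;> simp
    have hFb : ∀ t, |FF a t| ≤ Real.exp (t / 2) := fun t => by
      rw [FF_eq_Av]
      exact abs_Av_le ha t
    have hFm := measurable_FF a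
    have hF0 : ∀ t < 0, FF a t = 0 := fun t ht => by unfold FF; rw [if_neg (not_le.2 ht)]
    obtain ⟨hki, hke⟩ := kapG_fub K r i hFm hFb
    -- the smoothed sum
    have e1 : (SS (KG K) r (fun n => (a n : ℂ)) i).re =
        ∫ t : ℝ, FF a t * (Set.Icc (Vr r) (2 * Vr r)).indicator (kf (KG K) r (Ur r + i)) t := by
      rw [SS_re52]
      simp only [Complex.ofReal_re]
      unfold RC
      rw [intervalIntegral.integral_of_le hle, ← integral_Icc_eq_integral_Ioc, ← integral_indicator measurableSet_Icc]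
      refine integral_congr_ae (Eventually.of_forall fun t => ?_)
      simp only
      rw [FF_eq_Av]
      by_cases ht : t ∈ Set.Icc (Vr r) (2 * Vr r)
      · rw [Set.indicator_of_mem ht, Set.indicator_of_mem ht]
      · rw [Set.indicator_of_notMem ht, Set.indicator_of_notMem ht, mul_zero]
    have hki2 : Integrable (fun t : ℝ => FF a t * (Set.Icc (Vr r) (2 * Vr r)).indicator (kf (KG K) r (Ur r + i)) t) := by
      have h5 : IntegrableOn (fun t : ℝ => Real.exp (t / 2) * kf (KG K) r (Ur r + i) t) (Set.Icc (Vr r) (2 * Vr r)) :=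
        Continuous.integrableOn_Icc (by have := continuous_kf (KG K) r (Ur r + i); fun_prop)
      refine ((integrable_indicator_iff measurableSet_Icc).2 h5).mono'
        (hFm.mul ((continuous_kf (KG K) r (Ur r + i)).measurable.indicator measurableSet_Icc)).aestronglyMeasurable
        (Eventually.of_forall fun t => ?_)
      by_cases ht : t ∈ Set.Icc (Vr r) (2 * Vr r)
      · rw [Set.indicator_of_mem ht, Set.indicator_of_mem ht, norm_mul, Real.norm_eq_abs, Real.norm_of_nonneg (kf_nonneg _ _ _ _)]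
        exact mul_le_mul_of_nonneg_right (hFb t) (kf_nonneg _ _ _ _)
      · rw [Set.indicator_of_notMem ht, Set.indicator_of_notMem ht, mul_zero, norm_zero]
    have hDi : Integrable (fun t : ℝ => FF a t * Dt K r i t) := by
      refine (hki2.sub hki).congr (Eventually.of_forall fun t => ?_)
      simp only [Pi.sub_apply, Dt]
      ring
    have e2 : (SS (KG K) r (fun n => (a n : ℂ)) i).re = (∫ t : ℝ, FF a t * kapG K r i t) + ∫ t : ℝ, FF a t * Dt K r i t := by
      rw [e1, ← integral_add hki hDi]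
      refine integral_congr_ae (Eventually.of_forall fun t => ?_)
      simp only [Dt]
      ring
    -- first part
    have p1 : σ * ∫ t : ℝ, FF a t * kapG K r i t ≤ 2 * Cm * lam := by
      rw [hke]
      have hbc : ∀ v : ℝ, kf K r (Ur r + i) v * (σ * bb 1 (FF a) (v - sr r)) ≤ kf K r (Ur r + i) v * lam := fun v =>
        mul_le_mul_of_nonneg_left (hu _) (kf_nonneg _ _ _ _)
      have hbm : Measurable (fun v : ℝ => bb 1 (FF a) (v - sr r)) := by
        have h6 : Measurable (bb 1 (FF a)) := by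
          have h7 : StronglyMeasurable (fun p : ℝ × ℝ => FF a p.2 * gk 1 (p.1 - p.2)) := by
            have hg := gk1_cont
            exact ((hFm.comp measurable_snd).mul (by fun_prop : Continuous fun p : ℝ × ℝ => gk 1 (p.1 - p.2)).measurable).stronglyMeasurable
          exact h7.integral_prod_right.measurable
        exact h6.comp (measurable_id.sub_const _)
      have hbi : IntervalIntegrable (fun v : ℝ => kf K r (Ur r + i) v * (σ * bb 1 (FF a) (v - sr r))) volume (Vr r) (2 * Vr r) := by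
        rw [intervalIntegrable_iff_integrableOn_Ioc_of_le hle]
        have h5 : IntegrableOn (fun v : ℝ => kf K r (Ur r + i) v * (2 * Real.exp (v / 2))) (Set.Ioc (Vr r) (2 * Vr r)) :=
          (Continuous.integrableOn_Icc (by have := continuous_kf K r (Ur r + i); fun_prop)).mono_set Set.Ioc_subset_Icc_self
        refine h5.mono' ((continuous_kf K r (Ur r + i)).measurable.mul (hbm.const_mul σ)).aestronglyMeasurable
          (Eventually.of_forall fun v => ?_)
        rw [norm_mul, Real.norm_of_nonneg (kf_nonneg _ _ _ _), norm_mul, Real.norm_eq_abs, hσ1, one_mul, Real.norm_eq_abs]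
        refine mul_le_mul_of_nonneg_left ?_ (kf_nonneg _ _ _ _)
        have h6 := bb_le (F := FF a) (A := 1) (fun t => by rw [one_mul]; exact hFb t) (v - sr r)
        rw [one_mul] at h6
        refine h6.trans ?_
        gcongr
        linarith
      have h5 : σ * ∫ v in (Vr r)..(2 * Vr r), kf K r (Ur r + i) v * bb 1 (FF a) (v - sr r) ≤ Cm * lam := by
        rw [← intervalIntegral.integral_const_mul]
        have e3 : (fun v : ℝ => σ * (kf K r (Ur r + i) v * bb 1 (FF a) (v - sr r))) =
            fun v : ℝ => kf K r (Ur r + i) v * (σ * bb 1 (FF a) (v - sr r)) := by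
          funext v; ring
        rw [e3]
        have hbi2 : IntervalIntegrable (fun v : ℝ => kf K r (Ur r + i) v * lam) volume (Vr r) (2 * Vr r) :=
          Continuous.intervalIntegrable (by have := continuous_kf K r (Ur r + i); fun_prop) _ _
        have h6 := intervalIntegral.integral_mono_on hle hbi hbi2 fun v _ => hbc v
        rw [intervalIntegral.integral_mul_const] at h6
        refine h6.trans ?_
        exact mul_le_mul_of_nonneg_right (h1 r (by omega) i hi) hlam
      have h6 : σ * (Real.exp (sr r ^ 2 / 2) * ∫ v in (Vr r)..(2 * Vr r), kf K r (Ur r + i) v * bb 1 (FF a) (v - sr r)) =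
          Real.exp (sr r ^ 2 / 2) * (σ * ∫ v in (Vr r)..(2 * Vr r), kf K r (Ur r + i) v * bb 1 (FF a) (v - sr r)) := by ring
      rw [h6]
      calc Real.exp (sr r ^ 2 / 2) * (σ * ∫ v in (Vr r)..(2 * Vr r), kf K r (Ur r + i) v * bb 1 (FF a) (v - sr r))
          ≤ Real.exp (sr r ^ 2 / 2) * (Cm * lam) := mul_le_mul_of_nonneg_left h5 (Real.exp_pos _).le
        _ ≤ 2 * (Cm * lam) := mul_le_mul_of_nonneg_right hes (by positivity)
        _ = _ := by ring
    -- second part
    have e3 : ∫ t : ℝ, FF a t * Dt K r i t = (∫ t in Set.Iic (Vr (2 * r + 2)), FF a t * Dt K r i t) +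
        ∫ t in Set.Ioi (Vr (2 * r + 2)), FF a t * Dt K r i t := (intervalIntegral.integral_Iic_add_Ioi hDi.integrableOn hDi.integrableOn).symm
    have e4 : ∫ t in Set.Iic (Vr (2 * r + 2)), FF a t * Dt K r i t = ∑ n ∈ Finset.Icc 1 (Y (2 * r + 2)),
        (∫ t in Set.Icc (Real.log n) (Real.log (Y (2 * r + 2) : ℕ)), Real.exp (-(t / 2)) * Dt K r i t) * a n := by
      rw [← hlogN]
      exact FF_int_sum hDm hD hN1
    -- the tail
    have p3 : |∫ t in Set.Ioi (Vr (2 * r + 2)), FF a t * Dt K r i t| ≤ 1 := by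
      have h5 : ∀ t ∈ Set.Ioi (Vr (2 * r + 2)), ‖FF a t * Dt K r i t‖ ≤ 2 * Cm * Real.exp (-(1 : ℝ) * t) := by
        intro t ht
        have ht1 : Vr (2 * r + 2) < t := ht
        have htV : 16 * Vr r < t := hT0.trans_lt ht1
        have hni : t ∉ Set.Icc (Vr r) (2 * Vr r) := fun h => by linarith [h.2]
        unfold Dt
        rw [Set.indicator_of_notMem hni, zero_sub, norm_mul, norm_neg, Real.norm_eq_abs, Real.norm_of_nonneg (kapG_nn K r i t)]
        unfold kapG
        have h6 : ∀ v ∈ Set.Icc (Vr r) (2 * Vr r), gk 1 (v - sr r - t) * kf K r (Ur r + i) v ≤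
            Real.exp (-(3 / 2 * t)) * kf K r (Ur r + i) v := by
          intro v hv
          refine mul_le_mul_of_nonneg_right ((gk1_le_sq _).trans (Real.exp_le_exp.2 ?_)) (kf_nonneg _ _ _ _)
          have h7 : 7 / 8 * t ≤ t - v + sr r := by linarith [hv.2]
          have h8 : (v - sr r - t) ^ 2 = (t - v + sr r) ^ 2 := by ring
          rw [h8]
          have h9 : (7 / 8 * t) ^ 2 ≤ (t - v + sr r) ^ 2 := pow_le_pow_left₀ (by linarith) h7 2
          nlinarith
        have h7 : ∫ v in (Vr r)..(2 * Vr r), gk 1 (v - sr r - t) * kf K r (Ur r + i) v ≤ Real.exp (-(3 / 2 * t)) * Cm := by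
          have hg := gk1_cont
          have hk := continuous_kf K r (Ur r + i)
          have h8 : ∫ v in (Vr r)..(2 * Vr r), gk 1 (v - sr r - t) * kf K r (Ur r + i) v ≤
              ∫ v in (Vr r)..(2 * Vr r), Real.exp (-(3 / 2 * t)) * kf K r (Ur r + i) v := by
            refine intervalIntegral.integral_mono_on hle ?_ ?_ h6
            · exact Continuous.intervalIntegrable (by fun_prop) _ _
            · exact Continuous.intervalIntegrable (by fun_prop) _ _
          rw [intervalIntegral.integral_const_mul] at h8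
          exact h8.trans (mul_le_mul_of_nonneg_left (h1 r (by omega) i hi) (Real.exp_pos _).le)
        calc |FF a t| * (Real.exp (sr r ^ 2 / 2) * ∫ v in (Vr r)..(2 * Vr r), gk 1 (v - sr r - t) * kf K r (Ur r + i) v)
            ≤ Real.exp (t / 2) * (2 * (Real.exp (-(3 / 2 * t)) * Cm)) := by
              refine mul_le_mul (hFb t) (mul_le_mul hes h7 ?_ (by norm_num)) ?_ (Real.exp_pos _).le
              · exact intervalIntegral.integral_nonneg hle fun v _ => mul_nonneg (gk1_pos _).le (kf_nonneg K r _ _)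
              · refine mul_nonneg (Real.exp_pos _).le ?_
                exact intervalIntegral.integral_nonneg hle fun v _ => mul_nonneg (gk1_pos _).le (kf_nonneg K r _ _)
          _ = 2 * Cm * (Real.exp (t / 2) * Real.exp (-(3 / 2 * t))) := by ring
          _ = 2 * Cm * Real.exp (-(1 : ℝ) * t) := by
              rw [← Real.exp_add]
              congr 2
              ring
      have h6 : IntegrableOn (fun t : ℝ => 2 * Cm * Real.exp (-(1 : ℝ) * t)) (Set.Ioi (Vr (2 * r + 2))) :=
        (integrableOn_exp_mul_Ioi (by norm_num) _).const_mul _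
      have h7 : ‖∫ t in Set.Ioi (Vr (2 * r + 2)), FF a t * Dt K r i t‖ ≤ ∫ t in Set.Ioi (Vr (2 * r + 2)), 2 * Cm * Real.exp (-(1 : ℝ) * t) :=
        norm_integral_le_of_norm_le h6 ((ae_restrict_iff' measurableSet_Ioi).2 (Eventually.of_forall h5))
      rw [integral_const_mul, integral_exp_mul_Ioi (by norm_num), Real.norm_eq_abs] at h7
      refine h7.trans ?_
      have h8 := h4 r (by omega)
      simp only [pow_one] at h8
      have hr1 : (1 : ℝ) ≤ r := by exact_mod_cast (show 1 ≤ r by omega)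
      have h9 : 2 * Cm + 1 ≤ Vr r := by
        have h13 : (1 : ℝ) ≤ 1 / (2 * Cm + 1) * Vr r := hr1.trans h8
        rw [one_div, ← div_eq_inv_mul, le_div_iff₀ (by positivity), one_mul] at h13
        exact h13
      have h10 : Real.exp (-(1 : ℝ) * Vr (2 * r + 2)) ≤ 1 / (2 * Cm + 1) := by
        rw [neg_one_mul, Real.exp_neg, ← one_div]
        refine one_div_le_one_div_of_le (by positivity) ?_
        have := Real.add_one_le_exp (Vr (2 * r + 2))
        linarith
      have h11 : -Real.exp (-(1 : ℝ) * Vr (2 * r + 2)) / -(1 : ℝ) = Real.exp (-(1 : ℝ) * Vr (2 * r + 2)) := by ring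
      rw [h11]
      calc 2 * Cm * Real.exp (-(1 : ℝ) * Vr (2 * r + 2)) ≤ 2 * Cm * (1 / (2 * Cm + 1)) := by gcongr
        _ ≤ 1 := by
            rw [mul_one_div, div_le_one (by positivity)]
            linarith
    rw [e2, e3, e4, mul_add, mul_add]
    have p4 : σ * ∑ n ∈ Finset.Icc 1 (Y (2 * r + 2)),
        (∫ t in Set.Icc (Real.log n) (Real.log (Y (2 * r + 2) : ℕ)), Real.exp (-(t / 2)) * Dt K r i t) * a n ≤
        |∑ n ∈ Finset.Icc 1 (Y (2 * r + 2)),
        (∫ t in Set.Icc (Real.log n) (Real.log (Y (2 * r + 2) : ℕ)), Real.exp (-(t / 2)) * Dt K r i t) * a n| := by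
      refine (le_abs_self _).trans ?_
      rw [abs_mul, hσ1, one_mul]
    have p5 : σ * ∫ t in Set.Ioi (Vr (2 * r + 2)), FF a t * Dt K r i t ≤ 1 := by
      refine (le_abs_self _).trans ?_
      rw [abs_mul, hσ1, one_mul]
      exact p3
    linarith

end Pool.Agent.DR
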