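import Pool.Agent.Helper95.TF.PsiD
import Mathlib.NumberTheory.LegendreSymbol.JacobiSymbol
import Mathlib.NumberTheory.DirichletCharacter.Basic

/-!
Block J4psi (MP_a499ba_nt): the characters `ps j n * jacobiSym n q` are primitive real characters.
-/

set_option autoImplicit false

namespace Pool.Agent.Q3psi

open scoped NumberTheorySymbols

theorem ps_mod (j : Fin 4) {m n : ℕ} (h : m ≡ n [MOD cd j]) : ps j m = ps j n := by
  fin_cases j
  · rfl
  · change ZMod.χ₄ (m : ZMod 4) = ZMod.χ₄ (n : ZMod 4)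
    rw [(ZMod.natCast_eq_natCast_iff m n 4).2 h]
  · change ZMod.χ₈ (m : ZMod 8) = ZMod.χ₈ (n : ZMod 8)
    rw [(ZMod.natCast_eq_natCast_iff m n 8).2 h]
  · change ZMod.χ₈' (m : ZMod 8) = ZMod.χ₈' (n : ZMod 8)
    rw [(ZMod.natCast_eq_natCast_iff m n 8).2 h]

theorem ps_one (j : Fin 4) : ps j 1 = 1 := by
  fin_cases j
  · rfl
  · change ZMod.χ₄ ((1 : ℕ) : ZMod 4) = 1
    rw [Nat.cast_one, map_one]
  · change ZMod.χ₈ ((1 : ℕ) : ZMod 8) = 1
    rw [Nat.cast_one, map_one]
  · change ZMod.χ₈' ((1 : ℕ) : ZMod 8) = 1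
    rw [Nat.cast_one, map_one]

theorem ps_mul (j : Fin 4) (m n : ℕ) : ps j (m * n) = ps j m * ps j n := by
  fin_cases j
  · rfl
  · change ZMod.χ₄ ((m * n : ℕ) : ZMod 4) = ZMod.χ₄ (m : ZMod 4) * ZMod.χ₄ (n : ZMod 4)
    rw [Nat.cast_mul, map_mul]
  · change ZMod.χ₈ ((m * n : ℕ) : ZMod 8) = ZMod.χ₈ (m : ZMod 8) * ZMod.χ₈ (n : ZMod 8)
    rw [Nat.cast_mul, map_mul]
  · change ZMod.χ₈' ((m * n : ℕ) : ZMod 8) = ZMod.χ₈' (m : ZMod 8) * ZMod.χ₈' (n : ZMod 8)
    rw [Nat.cast_mul, map_mul]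

theorem ps_zero (j : Fin 4) {n : ℕ} (h : ¬ Nat.Coprime n (cd j)) : ps j n = 0 := by
  fin_cases j
  · exact absurd (Nat.coprime_one_right n) h
  · change ZMod.χ₄ (n : ZMod 4) = 0
    exact MulChar.map_nonunit _ (fun hu => h ((ZMod.isUnit_iff_coprime n 4).1 hu))
  · change ZMod.χ₈ (n : ZMod 8) = 0
    exact MulChar.map_nonunit _ (fun hu => h ((ZMod.isUnit_iff_coprime n 8).1 hu))
  · change ZMod.χ₈' (n : ZMod 8) = 0
    exact MulChar.map_nonunit _ (fun hu => h ((ZMod.isUnit_iff_coprime n 8).1 hu))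

theorem ps_sq (j : Fin 4) {n : ℕ} (h : Nat.Coprime n (cd j)) : ps j n = 1 ∨ ps j n = -1 := by
  fin_cases j
  · exact Or.inl rfl
  · have hu := (ZMod.isUnit_iff_coprime n 4).2 h
    change ZMod.χ₄ (n : ZMod 4) = 1 ∨ ZMod.χ₄ (n : ZMod 4) = -1
    generalize (n : ZMod 4) = a at hu ⊢
    revert a
    decide
  · have hu := (ZMod.isUnit_iff_coprime n 8).2 h
    change ZMod.χ₈ (n : ZMod 8) = 1 ∨ ZMod.χ₈ (n : ZMod 8) = -1
    generalize (n : ZMod 8) = a at hu ⊢
    revert a
    decide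
  · have hu := (ZMod.isUnit_iff_coprime n 8).2 h
    change ZMod.χ₈' (n : ZMod 8) = 1 ∨ ZMod.χ₈' (n : ZMod 8) = -1
    generalize (n : ZMod 8) = a at hu ⊢
    revert a
    decide

theorem cd_pos (j : Fin 4) : 0 < cd j := by fin_cases j <;> decide

/-- the character with integer values -/
def jp (j : Fin 4) (q : ℕ) [NeZero (cd j * q)] (hq1 : 1 < cd j * q) : MulChar (ZMod (cd j * q)) ℤ where
  toFun a := ps j a.val * jacobiSym (a.val : ℤ) q
  map_one' := by
    have : Fact (1 < cd j * q) := ⟨hq1⟩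
    rw [ZMod.val_one]
    rw [ps_one]
    exact (one_mul _).trans (jacobiSym.one_left q)
  map_mul' a b := by
    have e1 : ps j (a * b).val = ps j a.val * ps j b.val := by
      rw [← ps_mul]
      apply ps_mod
      rw [ZMod.val_mul]
      exact (Nat.mod_modEq _ _).of_mul_right q
    have e2 : jacobiSym (((a * b).val : ℕ) : ℤ) q = jacobiSym (a.val : ℤ) q * jacobiSym (b.val : ℤ) q := by
      rw [ZMod.val_mul, ← jacobiSym.mul_left]
      apply jacobiSym.mod_left'
      push_cast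
      rw [Int.emod_emod_of_dvd _ (dvd_mul_left _ _)]
    rw [e1, e2]
    ring
  map_nonunit' a ha := by
    have h0 : ¬ Nat.Coprime a.val (cd j * q) := by
      intro h
      apply ha
      have := (ZMod.isUnit_iff_coprime a.val (cd j * q)).2 h
      rwa [ZMod.natCast_zmod_val] at this
    by_cases h1 : Nat.Coprime a.val (cd j)
    · have h2 : ¬ Nat.Coprime a.val q := fun h => h0 (Nat.Coprime.mul_right h1 h)
      have hq0 : q ≠ 0 := by
        rintro rfl
        simp at hq1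
      have : jacobiSym (a.val : ℤ) q = 0 := by
        rw [jacobiSym.eq_zero_iff]
        exact ⟨hq0, by rw [Int.gcd_natCast_natCast]; exact h2⟩
      rw [this, mul_zero]
    · rw [ps_zero j h1, zero_mul]

theorem jp_nat (j : Fin 4) (q : ℕ) [NeZero (cd j * q)] (hq1 : 1 < cd j * q) (n : ℕ) :
    jp j q hq1 (n : ZMod (cd j * q)) = ps j n * jacobiSym (n : ℤ) q := by
  change ps j (n : ZMod (cd j * q)).val * jacobiSym (((n : ZMod (cd j * q)).val : ℕ) : ℤ) q = _
  rw [ZMod.val_natCast]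
  have e1 : ps j (n % (cd j * q)) = ps j n := ps_mod j ((Nat.mod_modEq _ _).of_mul_right q)
  have e2 : jacobiSym ((n % (cd j * q) : ℕ) : ℤ) q = jacobiSym (n : ℤ) q := by
    apply jacobiSym.mod_left'
    push_cast
    rw [Int.emod_emod_of_dvd _ (dvd_mul_left _ _)]
  rw [e1, e2]

/-- a criterion -/
theorem isPrimitive_of {N : ℕ} [NeZero N] (χ : DirichletCharacter ℂ N)
    (h : ∀ p s : ℕ, p.Prime → N = p * s → ∃ v : ℕ, v ≡ 1 [MOD s] ∧ Nat.Coprime v N ∧ χ v ≠ 1) :
    χ.IsPrimitive := by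
  rw [DirichletCharacter.isPrimitive_def]
  by_contra hne
  obtain ⟨hd, χ₀, h0⟩ := DirichletCharacter.factorsThrough_conductor χ
  obtain ⟨f, hf⟩ : ∃ f, f = χ.conductor := ⟨_, rfl⟩
  obtain ⟨e, he⟩ := hd
  rw [← hf] at he
  have he1 : e ≠ 1 := by
    rintro rfl
    rw [mul_one] at he
    exact hne (hf ▸ he.symm)
  obtain ⟨p, hp, e', he'⟩ := Nat.exists_prime_and_dvd he1
  have hqe : N = p * (f * e') := by
    calc N = f * e := he
      _ = p * (f * e') := by rw [he']; ring
  obtain ⟨v, hv2, hc, hv3⟩ := h p (f * e') hp hqe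
  have hv4 : (v : ZMod χ.conductor) = 1 := by
    have : v ≡ 1 [MOD χ.conductor] := hf ▸ hv2.of_mul_right _
    have := (ZMod.natCast_eq_natCast_iff _ _ _).2 this
    simpa using this
  have hv5 : χ (v : ZMod N) = χ₀ (v : ZMod χ.conductor) := by
    have h5 := DirichletCharacter.changeLevel_eq_cast_of_dvd χ₀ (DirichletCharacter.conductor_dvd_level χ)
      (ZMod.unitOfCoprime v hc)
    rw [ZMod.coe_unitOfCoprime, ← h0] at h5
    rw [h5, ZMod.cast_natCast (DirichletCharacter.conductor_dvd_level χ)]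
  rw [hv4, map_one] at hv5
  exact hv3 hv5

/-- a number with symbol minus one -/
theorem ex_neg (j : Fin 4) {q p s : ℕ} (hodd : Odd q) (hs : Squarefree q) (hp : p.Prime) (hN : cd j * q = p * s) :
    ∃ v : ℕ, ps j v * jacobiSym (v : ℤ) q = -1 ∧ v ≡ 1 [MOD s] := by
  by_cases hpq : p ∣ q
  · obtain ⟨t, ht⟩ := hpq
    have hst : s = cd j * t := by
      have : p * s = p * (cd j * t) := by rw [← hN, ht]; ring
      exact Nat.eq_of_mul_eq_mul_left hp.pos this
    have hP2 : p ≠ 2 := by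
      intro h2
      rw [ht, h2] at hodd
      exact (Nat.not_odd_iff_even.2 (even_two_mul t)) hodd
    have : Fact p.Prime := ⟨hp⟩
    have hcop1 : Nat.Coprime p t := Nat.coprime_of_squarefree_mul (ht ▸ hs)
    have hcop2 : Nat.Coprime p (cd j) := by
      have h2 : Nat.Coprime p 2 := (Nat.coprime_primes hp Nat.prime_two).2 hP2
      fin_cases j
      · exact Nat.coprime_one_right p
      · exact Nat.Coprime.pow_right 2 h2
      · exact Nat.Coprime.pow_right 3 h2
      · exact Nat.Coprime.pow_right 3 h2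
    have hcop : Nat.Coprime p s := hst ▸ Nat.Coprime.mul_right hcop2 hcop1
    obtain ⟨y, hy⟩ := FiniteField.exists_nonsquare (F := ZMod p) (by
      rw [ZMod.ringChar_zmod_n]; exact hP2)
    obtain ⟨v, hv1, hv2⟩ := Nat.chineseRemainder hcop y.val 1
    refine ⟨v, ?_, hv2⟩
    have ht0 : t ≠ 0 := by
      rintro rfl
      simp at ht
      rw [ht] at hodd
      simp at hodd
    have e0 : ps j v = 1 := by
      rw [← ps_one j]
      apply ps_mod
      have := hst ▸ hv2
      exact this.of_mul_right t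
    rw [e0, one_mul, ht, jacobiSym.mul_right' _ hp.ne_zero ht0]
    have e1 : jacobiSym (v : ℤ) p = jacobiSym (y.val : ℤ) p := by
      apply jacobiSym.mod_left'
      exact_mod_cast hv1
    have e2 : jacobiSym (v : ℤ) t = jacobiSym (1 : ℤ) t := by
      apply jacobiSym.mod_left'
      have h3 : v ≡ 1 [MOD t] := (hst ▸ hv2 : v ≡ 1 [MOD cd j * t]).of_mul_left (cd j)
      have : v % t = 1 % t := h3
      exact_mod_cast this
    rw [e1, e2, jacobiSym.one_left, mul_one, ZMod.nonsquare_iff_jacobiSym_eq_neg_one]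
    simpa using hy
  · have hpc : p ∣ cd j := by
      have : p ∣ cd j * q := ⟨s, hN⟩
      exact (hp.dvd_mul.1 this).resolve_right hpq
    have hq2 : Nat.Coprime 2 q := Nat.coprime_two_left.2 hodd
    have key : ∀ (c c' w : ℕ), cd j = c → Nat.Coprime c q → cd j = 2 * c' → w ≡ 1 [MOD c'] → c' ∣ c → p = 2 →
        ps j w = -1 → ∃ v : ℕ, ps j v * jacobiSym (v : ℤ) q = -1 ∧ v ≡ 1 [MOD s] := by
      intro c c' w hc hcq hc2 hw hcc hp2 hps
      obtain ⟨v, hv1, hv2⟩ := Nat.chineseRemainder hcq w 1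
      refine ⟨v, ?_, ?_⟩
      · have e1 : ps j v = ps j w := ps_mod j (hc.symm ▸ hv1)
        have e2 : jacobiSym (v : ℤ) q = jacobiSym (1 : ℤ) q := by
          apply jacobiSym.mod_left'
          have : v % q = 1 % q := hv2
          exact_mod_cast this
        rw [e1, e2, hps, jacobiSym.one_left, mul_one]
      · have hs' : s = c' * q := by
          have : 2 * s = 2 * (c' * q) := by
            rw [← hp2, ← hN, hc2, hp2]; ring
          exact Nat.eq_of_mul_eq_mul_left two_pos this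
        rw [hs']
        have h1 : v ≡ 1 [MOD c'] := (hv1.of_dvd hcc).trans hw
        have hcop : Nat.Coprime c' q := Nat.Coprime.coprime_dvd_left hcc hcq
        exact (Nat.modEq_and_modEq_iff_modEq_mul hcop).1 ⟨h1, hv2⟩
    fin_cases j
    · exact absurd (Nat.dvd_one.1 hpc) hp.one_lt.ne'
    · have hp2 : p = 2 := (Nat.prime_dvd_prime_iff_eq hp Nat.prime_two).1 (hp.dvd_of_dvd_pow (n := 2) hpc)
      exact key 4 2 3 rfl (Nat.Coprime.pow_left 2 hq2) rfl (by decide) (by decide) hp2 (by decide)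
    · have hp2 : p = 2 := (Nat.prime_dvd_prime_iff_eq hp Nat.prime_two).1 (hp.dvd_of_dvd_pow (n := 3) hpc)
      exact key 8 4 5 rfl (Nat.Coprime.pow_left 3 hq2) rfl (by decide) (by decide) hp2 (by decide)
    · have hp2 : p = 2 := (Nat.prime_dvd_prime_iff_eq hp Nat.prime_two).1 (hp.dvd_of_dvd_pow (n := 3) hpc)
      exact key 8 4 5 rfl (Nat.Coprime.pow_left 3 hq2) rfl (by decide) (by decide) hp2 (by decide)

theorem unit_of_neg {j : Fin 4} {q v : ℕ} (hq : q ≠ 0) (h : ps j v * jacobiSym (v : ℤ) q = -1) :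
    Nat.Coprime v (cd j * q) := by
  refine Nat.Coprime.mul_right ?_ ?_
  · by_contra hn
    rw [ps_zero j hn, zero_mul] at h
    norm_num at h
  · by_contra hn
    have : jacobiSym (v : ℤ) q = 0 := by
      rw [jacobiSym.eq_zero_iff, Int.gcd_natCast_natCast]
      exact ⟨hq, hn⟩
    rw [this, mul_zero] at h
    norm_num at h

theorem sq_one {j : Fin 4} {q v : ℕ} (h : Nat.Coprime v (cd j * q)) : (ps j v * jacobiSym (v : ℤ) q) ^ 2 = 1 := by
  have h1 : Nat.Coprime v (cd j) := Nat.Coprime.coprime_mul_right_right h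
  have h2 : Nat.Coprime v q := Nat.Coprime.coprime_mul_left_right h
  rw [mul_pow]
  have e1 : ps j v ^ 2 = 1 := by
    rcases ps_sq j h1 with h | h <;> rw [h] <;> norm_num
  have e2 : jacobiSym (v : ℤ) q ^ 2 = 1 := by
    rcases jacobiSym.eq_one_or_neg_one (a := (v : ℤ)) (b := q)
      (by rw [Int.gcd_natCast_natCast]; exact h2) with h | h <;> rw [h] <;> norm_num
  rw [e1, e2, one_mul]

theorem j4psi : StmtJ4psi := by
  intro j q hodd hsf hq1
  have hq0 : q ≠ 0 := by
    rintro rfl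
    simp at hq1
  have hN : NeZero (cd j * q) := ⟨by omega⟩
  let χ : DirichletCharacter ℂ (cd j * q) := (jp j q hq1).ringHomComp (Int.castRingHom ℂ)
  have hval : ∀ n : ℕ, χ n = ((ps j n * jacobiSym n q : ℤ) : ℂ) := by
    intro n
    have h1 : χ (n : ZMod (cd j * q)) = ((jp j q hq1 (n : ZMod (cd j * q)) : ℤ) : ℂ) := rfl
    rw [h1, jp_nat]
  have hsq : χ ^ 2 = 1 := by
    ext u
    have hu : Nat.Coprime (u : ZMod (cd j * q)).val (cd j * q) := ZMod.val_coe_unit_coprime u
    have h1 : χ (u : ZMod (cd j * q)) =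
        ((ps j (u : ZMod (cd j * q)).val * jacobiSym ((u : ZMod (cd j * q)).val : ℤ) q : ℤ) : ℂ) := rfl
    rw [MulChar.pow_apply_coe, MulChar.one_apply_coe, h1]
    exact_mod_cast sq_one hu
  have hprim : χ.IsPrimitive := by
    apply isPrimitive_of
    intro p s hp hN
    obtain ⟨v, hv1, hv2⟩ := ex_neg j hodd hsf hp hN
    refine ⟨v, hv2, unit_of_neg hq0 hv1, ?_⟩
    rw [hval, hv1]
    norm_num
  have hne : χ ≠ 1 := by
    intro h
    rw [DirichletCharacter.isPrimitive_def, h, DirichletCharacter.conductor_one] at hprim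
    omega
  refine ⟨hN, χ, ⟨hprim, hsq, hne, fun n => ?_⟩, hval⟩
  rw [hval]
  push_cast
  ring

end Pool.Agent.Q3psi
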