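import Pool.Agent.Helper95.TF.Gk
import Pool.Agent.Helper5.DR.Defs

/-!
# Project DR (MP_a499ba_nt): the kernel smoothed by the Gaussian of width 1
-/

set_option autoImplicit false

namespace Pool.Agent.DR

open Finset MeasureTheory Filter Topology Pool.Agent.Helper5.RM Pool.Agent.Helper96.AF Pool.Agent.Helper66.LW Pool.Agent.IT
open Pool.Agent.QT (gk bb)
open scoped ContDiff

/-- the transform of the Gaussian -/
theorem gk1_tr (z : ℂ) : Integrable (fun y : ℝ => Complex.exp (-z * y) * (gk 1 y : ℂ)) ∧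
      ∫ y : ℝ, Complex.exp (-z * y) * (gk 1 y : ℂ) = Complex.exp (z ^ 2 / 2) := by
  have hbc : (-(1 / 2 : ℂ)).re < 0 := by
    simp
  have he : (fun y : ℝ => Complex.exp (-z * y) * (gk 1 y : ℂ)) = fun y : ℝ =>
      (((Real.sqrt (2 * Real.pi))⁻¹ : ℝ) : ℂ) * Complex.exp (-(1 / 2 : ℂ) * (y : ℂ) ^ 2 + -z * y + 0) := by
    funext y
    rw [gk1_eq]
    push_cast
    rw [add_zero, Complex.exp_add]
    ring
  rw [he]
  refine ⟨(integrable_cexp_quadratic' hbc _ _).const_mul _, ?_⟩
  rw [integral_const_mul, integral_cexp_quadratic hbc]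
  have h1 : ((Real.pi : ℂ) / -(-(1 / 2 : ℂ))) ^ (1 / 2 : ℂ) = ((Real.sqrt (2 * Real.pi) : ℝ) : ℂ) := by
    rw [Real.sqrt_eq_rpow, Complex.ofReal_cpow (by positivity)]
    push_cast
    rw [neg_neg]
    congr 1
    ring
  rw [h1, ← mul_assoc, ← Complex.ofReal_mul, inv_mul_cancel₀ (Real.sqrt_pos.2 (by positivity)).ne', Complex.ofReal_one, one_mul]
  congr 1
  ring

theorem gk1_pow (k : ℕ) : Integrable (fun y : ℝ => (1 + |y|) ^ k * gk 1 y) := by
  have h1 := (gk1_exp (-1)).1
  have h2 := (gk1_exp 1).1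
  have h3 := (h1.add h2).const_mul ((k.factorial : ℝ) * Real.exp 1)
  refine h3.mono' ((by fun_prop : Continuous fun y : ℝ => (1 + |y|) ^ k).mul gk1_cont).aestronglyMeasurable
    (Eventually.of_forall fun y => ?_)
  have hg := gk1_pos y
  rw [Real.norm_eq_abs, abs_of_nonneg (by positivity)]
  simp only [Pi.add_apply]
  have h4 : (1 + |y|) ^ k ≤ (k.factorial : ℝ) * Real.exp (1 + |y|) := by
    have h5 := Real.pow_div_factorial_le_exp (1 + |y|) (by positivity) k
    rwa [div_le_iff₀ (by positivity), mul_comm] at h5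
  have h5 : Real.exp |y| ≤ Real.exp (-(-1 * y)) + Real.exp (-(1 * y)) := by
    have a1 := Real.exp_pos (-(-1 * y))
    have a2 := Real.exp_pos (-(1 * y))
    rcases abs_cases y with ⟨h6, _⟩ | ⟨h6, _⟩
    · rw [h6]
      have : -(-1 * y) = y := by ring
      rw [this] at a1 ⊢
      linarith
    · rw [h6]
      have : -(1 * y) = -y := by ring
      rw [this] at a2 ⊢
      linarith
  calc (1 + |y|) ^ k * gk 1 y ≤ ((k.factorial : ℝ) * Real.exp (1 + |y|)) * gk 1 y := mul_le_mul_of_nonneg_right h4 hg.le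
    _ = (k.factorial : ℝ) * Real.exp 1 * (Real.exp |y| * gk 1 y) := by rw [Real.exp_add]; ring
    _ ≤ (k.factorial : ℝ) * Real.exp 1 * ((Real.exp (-(-1 * y)) + Real.exp (-(1 * y))) * gk 1 y) := by gcongr
    _ = _ := by ring

theorem w_bdd (K : Ker) : ∃ C : ℝ, 0 < C ∧ ∀ x, |K.w x| ≤ C := by
  obtain ⟨C, hC, hw⟩ := K.w_dec
  refine ⟨C, hC, fun x => ?_⟩
  rw [abs_of_nonneg (K.w_nonneg x)]
  refine (hw x).trans (div_le_self hC.le ?_)
  exact one_le_pow₀ (by linarith [abs_nonneg x])

theorem wg_int (K : Ker) (x : ℝ) : Integrable (fun y : ℝ => K.w (x - y) * gk 1 y) := by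
  obtain ⟨C, hC, hw⟩ := w_bdd K
  have hc := K.w_cont
  have hg := gk1_cont
  refine (gk1_int.1.const_mul C).mono' (by fun_prop : Continuous fun y : ℝ => K.w (x - y) * gk 1 y).aestronglyMeasurable
    (Eventually.of_forall fun y => ?_)
  rw [norm_mul, Real.norm_of_nonneg (gk1_pos y).le, Real.norm_eq_abs]
  exact mul_le_mul_of_nonneg_right (hw _) (gk1_pos y).le

/-- the smoothed kernel -/
noncomputable def w1 (K : Ker) (x : ℝ) : ℝ := ∫ y : ℝ, K.w (x - y) * gk 1 y

theorem w1_cont (K : Ker) : Continuous (w1 K) := by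
  obtain ⟨C, hC, hw⟩ := w_bdd K
  have hc := K.w_cont
  have hg := gk1_cont
  unfold w1
  refine continuous_of_dominated (bound := fun y => C * gk 1 y) (fun x => ?_) (fun x => ?_) (gk1_int.1.const_mul C) ?_
  · exact (by fun_prop : Continuous fun y : ℝ => K.w (x - y) * gk 1 y).aestronglyMeasurable
  · refine Eventually.of_forall fun y => ?_
    rw [norm_mul, Real.norm_of_nonneg (gk1_pos y).le, Real.norm_eq_abs]
    exact mul_le_mul_of_nonneg_right (hw _) (gk1_pos y).le
  · exact Eventually.of_forall fun y => by fun_prop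

theorem w1_dec (K : Ker) : ∃ C : ℝ, 0 < C ∧ ∀ x, w1 K x ≤ C / (1 + |x|) ^ 12 := by
  obtain ⟨C, hC, hw⟩ := K.w_dec
  have hI := gk1_pow 12
  have hI0 : 0 ≤ ∫ y : ℝ, (1 + |y|) ^ 12 * gk 1 y :=
    integral_nonneg fun y => mul_nonneg (by positivity) (gk1_pos y).le
  refine ⟨C * (∫ y : ℝ, (1 + |y|) ^ 12 * gk 1 y) + 1, by positivity, fun x => ?_⟩
  have hx : (0:ℝ) < (1 + |x|) ^ 12 := by positivity
  have h1 : w1 K x ≤ ∫ y : ℝ, C / (1 + |x|) ^ 12 * ((1 + |y|) ^ 12 * gk 1 y) := by
    refine integral_mono (wg_int K x) (hI.const_mul _) fun y => ?_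
    simp only
    rw [← mul_assoc]
    refine mul_le_mul_of_nonneg_right ((hw _).trans ?_) (gk1_pos y).le
    rw [div_mul_eq_mul_div, div_le_div_iff₀ (by positivity) hx, mul_assoc]
    refine mul_le_mul_of_nonneg_left ?_ hC.le
    rw [← mul_pow]
    refine pow_le_pow_left₀ (by positivity) ?_ 12
    have h2 : |x| ≤ |x - y| + |y| := by
      have := abs_add_le (x - y) y
      rwa [sub_add_cancel] at this
    nlinarith [abs_nonneg (x - y), abs_nonneg y]
  rw [integral_const_mul] at h1
  refine h1.trans ?_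
  rw [div_mul_eq_mul_div]
  exact div_le_div_of_nonneg_right (by linarith) hx.le

/-- `ρ` is integrable -/
theorem rho_int (K : Ker) : Integrable K.ρ := by
  have hc : Continuous K.ρ := K.ρ_smooth.continuous
  have hs : HasCompactSupport K.ρ := by
    refine HasCompactSupport.intro (K := Set.Icc (-(1 / 4)) (1 / 4)) isCompact_Icc fun t ht => K.ρ_supp t ?_
    rw [Set.mem_Icc, not_and_or, not_le, not_le] at ht
    rcases ht with h | h
    · have : |t| = -t := abs_of_neg (by linarith)
      rw [this]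
      linarith
    · exact h.le.trans (le_abs_self t)
  exact hc.integrable_of_hasCompactSupport hs

theorem w1_eq (K : Ker) (x : ℝ) :
    (w1 K x : ℂ) = ∫ t : ℝ, ((K.ρ t * Real.exp (-(t ^ 2 / 2)) : ℝ) : ℂ) * Complex.exp (Complex.I * (t * x)) := by
  have hρ := rho_int K
  have hρc : Continuous K.ρ := K.ρ_smooth.continuous
  have hg := gk1_cont
  have hI : Integrable (Function.uncurry fun y t : ℝ => ((K.ρ t : ℂ) * Complex.exp (Complex.I * (t * (x - y)))) * (gk 1 y : ℂ))
      (volume.prod volume) := by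
    have h1 : Integrable (fun p : ℝ × ℝ => gk 1 p.1 * K.ρ p.2) (volume.prod volume) := gk1_int.1.mul_prod hρ
    refine h1.norm.mono' ?_ (Eventually.of_forall fun p => ?_)
    · refine Continuous.aestronglyMeasurable ?_
      simp only [Function.uncurry_def]
      fun_prop
    · simp only [Function.uncurry_def]
      rw [norm_mul, norm_mul, Complex.norm_real, Complex.norm_real, norm_mul, Complex.norm_exp]
      have : (Complex.I * ((p.2 : ℂ) * ((x : ℂ) - (p.1 : ℂ)))).re = 0 := by simp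
      rw [this, Real.exp_zero, mul_one, mul_comm]
  have h1 : (w1 K x : ℂ) = ∫ y : ℝ, ∫ t : ℝ, ((K.ρ t : ℂ) * Complex.exp (Complex.I * (t * (x - y)))) * (gk 1 y : ℂ) := by
    unfold w1
    rw [← integral_complex_ofReal]
    refine integral_congr_ae (Eventually.of_forall fun y => ?_)
    simp only
    rw [integral_mul_const, Complex.ofReal_mul, K.w_eq]
    congr 1
    refine integral_congr_ae (Eventually.of_forall fun t => ?_)
    simp only
    push_cast
    rfl
  rw [h1, integral_integral_swap hI]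
  refine integral_congr_ae (Eventually.of_forall fun t => ?_)
  simp only
  have h2 : (fun y : ℝ => ((K.ρ t : ℂ) * Complex.exp (Complex.I * (t * (x - y)))) * (gk 1 y : ℂ)) =
      fun y : ℝ => ((K.ρ t : ℂ) * Complex.exp (Complex.I * (t * x))) * (Complex.exp (-(Complex.I * t) * y) * (gk 1 y : ℂ)) := by
    funext y
    have : Complex.exp (Complex.I * (t * (x - y))) = Complex.exp (Complex.I * (t * x)) * Complex.exp (-(Complex.I * t) * y) := by
      rw [← Complex.exp_add]
      congr 1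
      ring
    rw [this]
    ring
  rw [h2, integral_const_mul, (gk1_tr (Complex.I * t)).2]
  have h3 : Complex.exp ((Complex.I * t) ^ 2 / 2) = ((Real.exp (-(t ^ 2 / 2)) : ℝ) : ℂ) := by
    rw [mul_pow, Complex.I_sq]
    push_cast
    congr 1
    ring
  rw [h3]
  push_cast
  ring

/-- the smoothed kernel as a kernel -/
noncomputable def KG (K : Ker) : Ker where
  w := w1 K
  ρ := fun t => K.ρ t * Real.exp (-(t ^ 2 / 2))
  w_cont := w1_cont K
  w_nonneg := fun x => integral_nonneg fun y => mul_nonneg (K.w_nonneg _) (gk1_pos y).le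
  w_dec := w1_dec K
  ρ_smooth := K.ρ_smooth.mul (by fun_prop)
  ρ_nonneg := fun t => mul_nonneg (K.ρ_nonneg t) (Real.exp_pos _).le
  ρ_supp := fun t ht => by rw [K.ρ_supp t ht, zero_mul]
  ρ_pos := by
    obtain ⟨c, hc, h⟩ := K.ρ_pos
    refine ⟨c * Real.exp (-1), by positivity, fun t ht => ?_⟩
    refine mul_le_mul (h t ht) (Real.exp_le_exp.2 ?_) (Real.exp_pos _).le (K.ρ_nonneg t)
    have : t ^ 2 ≤ 1 := by
      rw [← sq_abs]
      have := abs_nonneg t
      nlinarith
    linarith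
  w_eq := w1_eq K

end Pool.Agent.DR
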