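import Pool.Agent.Helper95.TF.J4psi

/-!
Block J4psi, converse (MP_a499ba_nt): every primitive real character is one of the characters `ps j n * jacobiSym n q`.
-/

set_option autoImplicit false

namespace Pool.Agent.Q3psi

open scoped NumberTheorySymbols

section conv

variable {N : ℕ} [NeZero N] {χ : DirichletCharacter ℂ N}

omit [NeZero N] in
theorem val_eq {a b : ℕ} (h : a ≡ b [MOD N]) : χ (a : ZMod N) = χ (b : ZMod N) := by
  rw [(ZMod.natCast_eq_natCast_iff a b N).2 h]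

omit [NeZero N] in
theorem val_one {a : ℕ} (h : a ≡ 1 [MOD N]) : χ (a : ZMod N) = 1 := by
  rw [val_eq h, Nat.cast_one, map_one]

omit [NeZero N] in
theorem val_sq (h2 : χ ^ 2 = 1) {a : ℕ} (ha : Nat.Coprime a N) : χ (a : ZMod N) ^ 2 = 1 := by
  have h := congrArg (fun f : DirichletCharacter ℂ N => f ((ZMod.unitOfCoprime a ha : (ZMod N)ˣ) : ZMod N)) h2
  simp only [MulChar.pow_apply_coe, MulChar.one_apply_coe] at h
  rwa [ZMod.coe_unitOfCoprime] at h

omit [NeZero N] in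
theorem val_pm (h2 : χ ^ 2 = 1) {a : ℕ} (ha : Nat.Coprime a N) : χ (a : ZMod N) = 1 ∨ χ (a : ZMod N) = -1 :=
  sq_eq_one_iff.1 (val_sq h2 ha)

omit [NeZero N] in
theorem val_mul {a b c : ℕ} (h : c ≡ a * b [MOD N]) : χ (c : ZMod N) = χ (a : ZMod N) * χ (b : ZMod N) := by
  rw [val_eq h, Nat.cast_mul, map_mul]

omit [NeZero N] in
theorem val_of_sq (h2 : χ ^ 2 = 1) {u a : ℕ} (hu : Nat.Coprime u N) (h : a ^ 2 ≡ u [MOD N]) :
    χ (u : ZMod N) = 1 := by
  have ha2 : Nat.Coprime (a ^ 2) N := by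
    unfold Nat.Coprime
    rw [Nat.ModEq.gcd_eq h]
    exact hu
  have ha : Nat.Coprime a N := Nat.Coprime.coprime_dvd_left (dvd_pow_self a two_ne_zero) ha2
  rw [val_eq h.symm, Nat.cast_pow, map_pow]
  exact val_sq h2 ha

/-- a primitive character does not factor through a proper divisor -/
theorem prim_neg (hp : χ.IsPrimitive) {p s : ℕ} (hpp : p.Prime) (hN : N = p * s) :
    ∃ v : ℕ, v ≡ 1 [MOD s] ∧ Nat.Coprime v N ∧ χ (v : ZMod N) ≠ 1 := by
  by_contra hcon
  push Not at hcon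
  have hs : s ∣ N := ⟨p, by rw [hN]; ring⟩
  have hf : χ.FactorsThrough s := by
    rw [DirichletCharacter.factorsThrough_iff_ker_unitsMap hs]
    intro x hx
    rw [MonoidHom.mem_ker] at hx ⊢
    have hx1 : ((x : ZMod N).val : ZMod s) = 1 := by
      have h := congrArg (Units.val) hx
      rw [ZMod.unitsMap_val, Units.val_one] at h
      rw [← h]
      conv_rhs => rw [← ZMod.natCast_zmod_val (x : ZMod N)]
      rw [ZMod.cast_natCast hs]
    have hx2 : (x : ZMod N).val ≡ 1 [MOD s] := by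
      rw [← ZMod.natCast_eq_natCast_iff]
      simpa using hx1
    have h3 := hcon _ hx2 (ZMod.val_coe_unit_coprime x)
    rw [ZMod.natCast_zmod_val] at h3
    ext
    rw [Units.val_one]
    simpa using h3
  have hd := DirichletCharacter.conductor_dvd_of_mem_conductorSet χ ((DirichletCharacter.mem_conductorSet_iff χ).2 hf)
  rw [(DirichletCharacter.isPrimitive_def χ).1 hp] at hd
  have hs0 : 0 < s := Nat.pos_of_ne_zero (by
    rintro rfl
    exact NeZero.ne N (by rw [hN, mul_zero]))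
  have h1 := Nat.le_of_dvd hs0 hd
  have h2 := hpp.two_le
  nlinarith

/-- the modulus is not divisible by the square of an odd prime -/
theorem no_sq (h2 : χ ^ 2 = 1) (hp : χ.IsPrimitive) {p : ℕ} (hpp : p.Prime) (hodd : p ≠ 2) : ¬ p * p ∣ N := by
  rintro ⟨t, ht⟩
  have hN : N = p * (p * t) := by rw [ht]; ring
  obtain ⟨v, hv1, hv2, hv3⟩ := prim_neg hp hpp hN
  apply hv3
  have hv0 : 1 ≤ v := by
    rcases Nat.eq_zero_or_pos v with h | h
    · rw [h, Nat.coprime_zero_left] at hv2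
      rw [hv2] at hN
      have := Nat.eq_one_of_mul_eq_one_right hN.symm
      exact absurd this hpp.one_lt.ne'
    · exact h
  obtain ⟨k, hk⟩ := (Nat.modEq_iff_dvd' hv0).1 hv1.symm
  have hv : v = 1 + p * t * k := by omega
  obtain ⟨m, hm⟩ := hpp.odd_of_ne_two hodd
  refine val_of_sq h2 hv2 (a := 1 + p * t * (k * (m + 1))) ?_
  have : (1 + p * t * (k * (m + 1))) ^ 2 = v + N * (k + t * (k * (m + 1)) ^ 2) := by
    rw [hv, hN]
    have e : p * t * (k * (m + 1)) * 2 = p * t * k * (p + 1) := by rw [hm]; ring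
    calc (1 + p * t * (k * (m + 1))) ^ 2 = 1 + p * t * (k * (m + 1)) * 2 + (p * t * (k * (m + 1))) ^ 2 := by ring
      _ = _ := by rw [e]; ring
  rw [this]
  exact (Nat.modEq_iff_dvd' (by omega)).2 ⟨k + t * (k * (m + 1)) ^ 2, by simp⟩ |>.symm

theorem no_sixteen (h2 : χ ^ 2 = 1) (hp : χ.IsPrimitive) : ¬ 16 ∣ N := by
  rintro ⟨m, hm⟩
  have hN : N = 2 * (8 * m) := by rw [hm]; ring
  obtain ⟨v, hv1, hv2, hv3⟩ := prim_neg hp Nat.prime_two hN
  apply hv3
  have hv0 : 1 ≤ v := by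
    rcases Nat.eq_zero_or_pos v with h | h
    · rw [h, Nat.coprime_zero_left] at hv2
      omega
    · exact h
  obtain ⟨k, hk⟩ := (Nat.modEq_iff_dvd' hv0).1 hv1.symm
  have hv : v = 1 + 8 * m * k := by omega
  rcases Nat.even_or_odd' k with ⟨l, hl | hl⟩
  · apply val_one
    have : v = 1 + N * l := by rw [hv, hN, hl]; ring
    rw [this]
    simp [Nat.ModEq]
  · refine val_of_sq h2 hv2 (a := 1 + 4 * m) ?_
    have e : (1 + 4 * m) ^ 2 = 1 + 8 * m + N * m := by rw [hN]; ring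
    have e' : v = 1 + 8 * m + N * l := by rw [hv, hN, hl]; ring
    rw [e, e']
    simp [Nat.ModEq]

theorem not_two (hp : χ.IsPrimitive) {s : ℕ} (hs : Odd s) : N ≠ 2 * s := by
  intro hN
  obtain ⟨v, hv1, hv2, hv3⟩ := prim_neg hp Nat.prime_two hN
  apply hv3
  apply val_one
  have h2 : v ≡ 1 [MOD 2] := by
    have : Odd v := Nat.coprime_two_right.1 (Nat.Coprime.coprime_dvd_right ⟨s, hN⟩ hv2)
    exact Nat.odd_iff.1 this
  rw [hN]
  exact (Nat.modEq_and_modEq_iff_modEq_mul (Nat.coprime_two_left.2 hs)).1 ⟨h2, hv1⟩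

omit [NeZero N] in
theorem crt {a b : ℕ} (hab : Nat.Coprime a b) (hN : N = a * b) {u : ℕ} (hu : Nat.Coprime u N) :
    ∃ x y : ℕ, x ≡ u [MOD a] ∧ x ≡ 1 [MOD b] ∧ y ≡ 1 [MOD a] ∧ y ≡ u [MOD b] ∧ Nat.Coprime x N ∧ Nat.Coprime y N ∧
      χ (u : ZMod N) = χ (x : ZMod N) * χ (y : ZMod N) := by
  obtain ⟨x, hx1, hx2⟩ := Nat.chineseRemainder hab u 1
  obtain ⟨y, hy1, hy2⟩ := Nat.chineseRemainder hab 1 u
  have hua : Nat.Coprime u a := Nat.Coprime.coprime_dvd_right ⟨b, hN⟩ hu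
  have hub : Nat.Coprime u b := Nat.Coprime.coprime_dvd_right ⟨a, by rw [hN]; ring⟩ hu
  refine ⟨x, y, hx1, hx2, hy1, hy2, ?_, ?_, ?_⟩
  · rw [hN]
    refine Nat.Coprime.mul_right ?_ ?_
    · unfold Nat.Coprime; rw [hx1.gcd_eq]; exact hua
    · unfold Nat.Coprime; rw [hx2.gcd_eq]; exact Nat.gcd_one_left b
  · rw [hN]
    refine Nat.Coprime.mul_right ?_ ?_
    · unfold Nat.Coprime; rw [hy1.gcd_eq]; exact Nat.gcd_one_left a
    · unfold Nat.Coprime; rw [hy2.gcd_eq]; exact hub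
  · apply val_mul
    rw [hN]
    refine (Nat.modEq_and_modEq_iff_modEq_mul hab).1 ⟨?_, ?_⟩
    · simpa using (hx1.mul hy1).symm
    · simpa using (hx2.mul hy2).symm

/-- at an odd prime -/
theorem at_prime (h2 : χ ^ 2 = 1) (hp : χ.IsPrimitive) {p s : ℕ} (hpp : p.Prime) (hN : N = p * s)
    (hcop : Nat.Coprime p s) {u : ℕ} (hu : Nat.Coprime u N) (hu1 : u ≡ 1 [MOD s]) :
    χ (u : ZMod N) = ((jacobiSym (u : ℤ) p : ℤ) : ℂ) := by
  have : Fact p.Prime := ⟨hpp⟩
  have key : ∀ w : ℕ, Nat.Coprime w N → w ≡ 1 [MOD s] → jacobiSym (w : ℤ) p ≠ -1 → χ (w : ZMod N) = 1 := by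
    intro w hw hw1 hj
    rw [Ne, ZMod.nonsquare_iff_jacobiSym_eq_neg_one, not_not] at hj
    obtain ⟨y, hy⟩ := hj
    obtain ⟨a, ha1, ha2⟩ := Nat.chineseRemainder hcop y.val 1
    refine val_of_sq h2 hw (a := a) ?_
    rw [hN]
    refine (Nat.modEq_and_modEq_iff_modEq_mul hcop).1 ⟨?_, ?_⟩
    · have h3 : ((a ^ 2 : ℕ) : ZMod p) = ((w : ℕ) : ZMod p) := by
        have h4 : (a : ZMod p) = y := by
          have := (ZMod.natCast_eq_natCast_iff _ _ _).2 ha1
          rw [this, ZMod.natCast_zmod_val]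
        rw [Nat.cast_pow, h4]
        have : ((w : ℤ) : ZMod p) = ((w : ℕ) : ZMod p) := by simp
        rw [← this, hy, sq]
      exact (ZMod.natCast_eq_natCast_iff _ _ _).1 h3
    · exact (by simpa using ha2.pow 2 : a ^ 2 ≡ 1 [MOD s]).trans hw1.symm
  have hnz : ∀ w : ℕ, Nat.Coprime w N → jacobiSym (w : ℤ) p = 1 ∨ jacobiSym (w : ℤ) p = -1 := by
    intro w hw
    apply jacobiSym.eq_one_or_neg_one
    rw [Int.gcd_natCast_natCast]
    exact Nat.Coprime.coprime_dvd_right ⟨s, hN⟩ hw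
  rcases hnz u hu with h | h
  · rw [key u hu hu1 (by rw [h]; norm_num), h]
    norm_num
  · obtain ⟨v, hv1, hv2, hv3⟩ := prim_neg hp hpp hN
    have hv4 : χ (v : ZMod N) = -1 := (val_pm h2 hv2).resolve_left hv3
    have hv5 : jacobiSym (v : ℤ) p = -1 := by
      by_contra hne
      exact hv3 (key v hv2 hv1 hne)
    have h6 : χ ((u * v : ℕ) : ZMod N) = 1 := by
      refine key (u * v) (Nat.Coprime.mul_left hu hv2) (by simpa using hu1.mul hv1) ?_
      rw [Nat.cast_mul, jacobiSym.mul_left, h, hv5]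
      norm_num
    rw [Nat.cast_mul, map_mul, hv4] at h6
    rw [h]
    push_cast
    linear_combination -h6

theorem odd_part (h2 : χ ^ 2 = 1) (hp : χ.IsPrimitive) {c q : ℕ} (hN : N = c * q) (hcq : Nat.Coprime c q)
    (hsf : Squarefree q) : ∀ t s : ℕ, q = s * t → ∀ u : ℕ, Nat.Coprime u N → u ≡ 1 [MOD c * s] →
    χ (u : ZMod N) = ((jacobiSym (u : ℤ) t : ℤ) : ℂ) := by
  intro t
  induction t using Nat.strong_induction_on with
  | _ t ih =>
    intro s hq u hu hu1
    have hq0 : q ≠ 0 := by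
      rintro rfl
      exact NeZero.ne N (by rw [hN, mul_zero])
    have ht0 : t ≠ 0 := by
      rintro rfl
      exact hq0 (by rw [hq, mul_zero])
    rcases (eq_or_ne t 1).imp_right Nat.exists_prime_and_dvd with h1 | ⟨p, hpp, t', ht'⟩
    · subst h1
      rw [jacobiSym.one_right]
      rw [val_one (by rw [hN, hq, mul_one]; exact hu1)]
      norm_num
    · have ht'0 : t' ≠ 0 := by
        rintro rfl
        exact ht0 (by rw [ht', mul_zero])
      have hlt : t' < t := by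
        rw [ht']
        have := hpp.two_le
        have : 0 < t' := Nat.pos_of_ne_zero ht'0
        nlinarith
      have hNp : N = p * (c * s * t') := by rw [hN, hq, ht']; ring
      have hpq : p ∣ q := ⟨s * t', by rw [hq, ht']; ring⟩
      have hcop1 : Nat.Coprime p c := (Nat.Coprime.coprime_dvd_right hpq hcq).symm
      have hcop2 : Nat.Coprime p (s * t') := by
        apply Nat.coprime_of_squarefree_mul
        have : q = p * (s * t') := by rw [hq, ht']; ring
        exact this ▸ hsf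
      have hcop3 : Nat.Coprime p (c * s * t') := by
        rw [mul_assoc]
        exact Nat.Coprime.mul_right hcop1 hcop2
      obtain ⟨x, y, hx1, hx2, hy1, hy2, hx3, hy3, hxy⟩ := crt (χ := χ) hcop3 hNp hu
      have ex : χ (x : ZMod N) = ((jacobiSym (x : ℤ) p : ℤ) : ℂ) := at_prime h2 hp hpp hNp hcop3 hx3 hx2
      have ey : χ (y : ZMod N) = ((jacobiSym (y : ℤ) t' : ℤ) : ℂ) := by
        refine ih t' hlt (s * p) (by rw [hq, ht']; ring) y hy3 ?_
        have hcop4 : Nat.Coprime (c * s) p := (Nat.Coprime.coprime_mul_right_right hcop3).symm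
        rw [← mul_assoc]
        refine (Nat.modEq_and_modEq_iff_modEq_mul hcop4).1 ⟨?_, hy1⟩
        exact (hy2.of_mul_right t').trans hu1
      have e1 : jacobiSym (x : ℤ) p = jacobiSym (u : ℤ) p := by
        apply jacobiSym.mod_left'
        exact_mod_cast hx1
      have e2 : jacobiSym (y : ℤ) t' = jacobiSym (u : ℤ) t' := by
        apply jacobiSym.mod_left'
        have h3 : y ≡ u [MOD t'] := hy2.of_mul_left (c * s)
        exact_mod_cast h3
      rw [hxy, ex, ey, e1, e2, ht', jacobiSym.mul_right' _ hpp.ne_zero ht'0]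
      push_cast
      ring

theorem mod4 {u : ℕ} (h : Odd u) : u ≡ 1 [MOD 4] ∨ u ≡ 3 [MOD 4] := by
  have := Nat.odd_iff.1 h
  unfold Nat.ModEq
  omega

theorem mod8 {u : ℕ} (h : Odd u) : u ≡ 1 [MOD 8] ∨ u ≡ 3 [MOD 8] ∨ u ≡ 5 [MOD 8] ∨ u ≡ 7 [MOD 8] := by
  have := Nat.odd_iff.1 h
  unfold Nat.ModEq
  omega

theorem fin_of (h2 : χ ^ 2 = 1) (hp : χ.IsPrimitive) {q : ℕ} {j : Fin 4} (hN : N = cd j * q) (hq : Odd q)
    (hcq : Nat.Coprime (cd j) q) (hsf : Squarefree q)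
    (h : ∀ u : ℕ, Nat.Coprime u N → u ≡ 1 [MOD q] → χ (u : ZMod N) = ((ps j u : ℤ) : ℂ)) (n : ℕ) :
    χ (n : ZMod N) = ((ps j n * jacobiSym n q : ℤ) : ℂ) := by
  have hq0 : q ≠ 0 := by
    rintro rfl
    simp at hq
  by_cases hn : Nat.Coprime n N
  · obtain ⟨x, y, hx1, hx2, hy1, hy2, hx3, hy3, hxy⟩ := crt (χ := χ) hcq hN hn
    have e1 := h x hx3 hx2
    have e2 := odd_part h2 hp hN hcq hsf q 1 (by rw [one_mul]) y hy3 (by rw [mul_one]; exact hy1)
    have e3 : jacobiSym (y : ℤ) q = jacobiSym (n : ℤ) q := by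
      apply jacobiSym.mod_left'
      exact_mod_cast hy2
    rw [hxy, e1, e2, e3, ps_mod j hx1]
    push_cast
    ring
  · have h0 : χ (n : ZMod N) = 0 := MulChar.map_nonunit _ (fun hu => hn ((ZMod.isUnit_iff_coprime n N).1 hu))
    rw [h0]
    have : ps j n * jacobiSym (n : ℤ) q = 0 := by
      by_cases h1 : Nat.Coprime n (cd j)
      · have h2 : ¬ Nat.Coprime n q := fun h => hn (hN ▸ Nat.Coprime.mul_right h1 h)
        have : jacobiSym (n : ℤ) q = 0 := by
          rw [jacobiSym.eq_zero_iff]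
          exact ⟨hq0, by rw [Int.gcd_natCast_natCast]; exact h2⟩
        rw [this, mul_zero]
      · rw [ps_zero j h1, zero_mul]
    rw [this]
    norm_num

/-- the converse: a primitive real character is `ps j n * jacobiSym n q` -/
theorem conv (h2 : χ ^ 2 = 1) (hp : χ.IsPrimitive) : ∃ (j : Fin 4) (q : ℕ), Odd q ∧ Squarefree q ∧ N = cd j * q ∧
    ∀ n : ℕ, χ n = ((ps j n * jacobiSym n q : ℤ) : ℂ) := by
  obtain ⟨k, q, hq, hN⟩ := Nat.exists_eq_two_pow_mul_odd (NeZero.ne N)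
  have hsf : Squarefree q := by
    rw [Nat.squarefree_iff_prime_squarefree]
    intro p hpp hd
    refine no_sq h2 hp hpp ?_ (hd.trans ⟨2 ^ k, by rw [hN]; ring⟩)
    rintro rfl
    have : 2 ∣ q := (dvd_mul_right 2 2).trans hd
    exact (Nat.not_even_iff_odd.2 hq) (even_iff_two_dvd.2 this)
  have h2q : Nat.Coprime 2 q := Nat.coprime_two_left.2 hq
  have hk3 : k ≤ 3 := by
    by_contra hk
    push Not at hk
    apply no_sixteen h2 hp
    rw [hN]
    exact (pow_dvd_pow 2 hk).mul_right q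
  have hk1 : k ≠ 1 := by
    rintro rfl
    exact not_two hp hq (by rw [hN, pow_one])
  have hodd : ∀ u : ℕ, 1 ≤ k → Nat.Coprime u N → Odd u := by
    intro u hk hu
    apply Nat.coprime_two_right.1
    refine Nat.Coprime.coprime_dvd_right ?_ hu
    rw [hN]
    exact (dvd_pow_self 2 (by omega)).mul_right q
  have hk : k = 0 ∨ k = 2 ∨ k = 3 := by omega
  rcases hk with rfl | rfl | rfl
  · refine ⟨0, q, hq, hsf, by rw [hN]; rfl, fun n => ?_⟩
    refine fin_of (j := 0) h2 hp (by rw [hN]; rfl) hq (Nat.coprime_one_left q) hsf ?_ n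
    intro u hu hu1
    rw [val_one (by rw [hN, pow_zero, one_mul]; exact hu1)]
    norm_num [ps]
  · have hN4 : N = 4 * q := by rw [hN]; norm_num
    have h4 : Nat.Coprime 4 q := Nat.Coprime.pow_left 2 h2q
    refine ⟨1, q, hq, hsf, hN4, fun n => ?_⟩
    refine fin_of (j := 1) h2 hp hN4 hq h4 hsf ?_ n
    obtain ⟨v, hv1, hv2, hv3⟩ := prim_neg hp Nat.prime_two (s := 2 * q) (by rw [hN]; ring)
    have hvq : v ≡ 1 [MOD q] := hv1.of_mul_left 2
    have hv4 : v ≡ 3 [MOD 4] := by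
      refine (mod4 (hodd v (by norm_num) hv2)).resolve_left fun h => hv3 (val_one ?_)
      rw [hN4]
      exact (Nat.modEq_and_modEq_iff_modEq_mul h4).1 ⟨h, hvq⟩
    intro u hu hu1
    rcases mod4 (hodd u (by norm_num) hu) with h | h
    · rw [val_one (by rw [hN4]; exact (Nat.modEq_and_modEq_iff_modEq_mul h4).1 ⟨h, hu1⟩),
        ps_mod 1 (n := 1) h, ps_one]
      norm_num
    · have e1 : χ (u : ZMod N) = χ (v : ZMod N) := by
        apply val_eq
        rw [hN4]
        exact (Nat.modEq_and_modEq_iff_modEq_mul h4).1 ⟨h.trans hv4.symm, hu1.trans hvq.symm⟩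
      rw [e1, (val_pm h2 hv2).resolve_left hv3, ps_mod 1 (n := 3) h]
      have : ps 1 3 = -1 := by decide
      rw [this]
      norm_num
  · have hN8 : N = 8 * q := by rw [hN]; norm_num
    have h8 : Nat.Coprime 8 q := Nat.Coprime.pow_left 3 h2q
    obtain ⟨v, hv1, hv2, hv3⟩ := prim_neg hp Nat.prime_two (s := 4 * q) (by rw [hN]; ring)
    have hvq : v ≡ 1 [MOD q] := hv1.of_mul_left 4
    have hvf : v ≡ 1 [MOD 4] := hv1.of_mul_right q
    have hv5 : v ≡ 5 [MOD 8] := by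
      rcases mod8 (hodd v (by norm_num) hv2) with h | h | h | h
      · exact absurd (val_one (by rw [hN8]; exact (Nat.modEq_and_modEq_iff_modEq_mul h8).1 ⟨h, hvq⟩)) hv3
      · unfold Nat.ModEq at h hvf
        omega
      · exact h
      · unfold Nat.ModEq at h hvf
        omega
    have ev : χ (v : ZMod N) = -1 := (val_pm h2 hv2).resolve_left hv3
    obtain ⟨w, hw1, hw2⟩ := Nat.chineseRemainder h8 3 1
    have hw3 : Nat.Coprime w N := by
      rw [hN8]
      refine Nat.Coprime.mul_right ?_ ?_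
      · unfold Nat.Coprime; rw [hw1.gcd_eq]; norm_num
      · unfold Nat.Coprime; rw [hw2.gcd_eq]; exact Nat.gcd_one_left q
    have tab : ∀ u : ℕ, Nat.Coprime u N → u ≡ 1 [MOD q] →
        (u ≡ 1 [MOD 8] ∧ χ (u : ZMod N) = 1) ∨ (u ≡ 3 [MOD 8] ∧ χ (u : ZMod N) = χ (w : ZMod N)) ∨
        (u ≡ 5 [MOD 8] ∧ χ (u : ZMod N) = -1) ∨ (u ≡ 7 [MOD 8] ∧ χ (u : ZMod N) = -χ (w : ZMod N)) := by
      intro u hu hu1
      rcases mod8 (hodd u (by norm_num) hu) with h | h | h | h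
      · exact Or.inl ⟨h, val_one (by rw [hN8]; exact (Nat.modEq_and_modEq_iff_modEq_mul h8).1 ⟨h, hu1⟩)⟩
      · refine Or.inr (Or.inl ⟨h, val_eq ?_⟩)
        rw [hN8]
        exact (Nat.modEq_and_modEq_iff_modEq_mul h8).1 ⟨h.trans hw1.symm, hu1.trans hw2.symm⟩
      · refine Or.inr (Or.inr (Or.inl ⟨h, ?_⟩))
        rw [← ev]
        apply val_eq
        rw [hN8]
        exact (Nat.modEq_and_modEq_iff_modEq_mul h8).1 ⟨h.trans hv5.symm, hu1.trans hvq.symm⟩
      · refine Or.inr (Or.inr (Or.inr ⟨h, ?_⟩))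
        have e : χ (u : ZMod N) = χ (v : ZMod N) * χ (w : ZMod N) := by
          apply val_mul
          rw [hN8]
          refine (Nat.modEq_and_modEq_iff_modEq_mul h8).1 ⟨?_, ?_⟩
          · exact h.trans (hv5.mul hw1).symm
          · exact hu1.trans (hvq.mul hw2).symm
        rw [e, ev]
        ring
    have c3 : ∀ u j, u ≡ 3 [MOD 8] → cd j = 8 → ps j u = ps j 3 := fun u j h hj => ps_mod j (hj.symm ▸ h)
    rcases val_pm h2 hw3 with hw | hw
    · refine ⟨3, q, hq, hsf, hN8, fun n => ?_⟩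
      refine fin_of (j := 3) h2 hp hN8 hq h8 hsf ?_ n
      intro u hu hu1
      rcases tab u hu hu1 with ⟨h, e⟩ | ⟨h, e⟩ | ⟨h, e⟩ | ⟨h, e⟩
      · rw [e, ps_mod 3 (n := 1) h, ps_one]; norm_num
      · rw [e, hw, ps_mod 3 (n := 3) h, (by decide : ps 3 3 = 1)]; norm_num
      · rw [e, ps_mod 3 (n := 5) h, (by decide : ps 3 5 = -1)]; norm_num
      · rw [e, hw, ps_mod 3 (n := 7) h, (by decide : ps 3 7 = -1)]; norm_num
    · refine ⟨2, q, hq, hsf, hN8, fun n => ?_⟩
      refine fin_of (j := 2) h2 hp hN8 hq h8 hsf ?_ n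
      intro u hu hu1
      rcases tab u hu hu1 with ⟨h, e⟩ | ⟨h, e⟩ | ⟨h, e⟩ | ⟨h, e⟩
      · rw [e, ps_mod 2 (n := 1) h, ps_one]; norm_num
      · rw [e, hw, ps_mod 2 (n := 3) h, (by decide : ps 2 3 = -1)]; norm_num
      · rw [e, ps_mod 2 (n := 5) h, (by decide : ps 2 5 = -1)]; norm_num
      · rw [e, hw, ps_mod 2 (n := 7) h, (by decide : ps 2 7 = 1)]; norm_num

end conv

end Pool.Agent.Q3psi
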